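import Pool.Agent.DiaA.PInc

/-!
# Module Ctr: the contraction

`ctr`: by induction on `n`: `inc y r n ≤ .06 s`, `inc y p n ≤ .114 s`, `inc y q n ≤ 1.02 s` (all are `≥ 0` by
`inc_nonneg`, and `0` for `n = 0`, since `y^0 = 1`), `s ≤ 1/1000`, `exp u - 1 ≤ u (1 + u)` for `0 ≤ u ≤ 1`.
Step from `n` to `n + 1`:
`inc y r (n+1) ≤ R (exp (s + .114 s) - 1) ≤ .0476 * 1.114 * 1.002 s ≤ .0532 s`;
with `α = inc y r (n+1)`, `β = inc y d n = 2 inc y q n ≤ 2.04 s`: replace `ts r (n+1)`, `ts d n` by `R`, `D` with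
`inc_mono` (also for `v = 1, e = 2`), then
`inc y b (n+1) ≤ [(R + α) (D + β)^2 - R D^2] + 4 α + .19 β + s/100
 ≤ (.0741 + .2158 + .0005 + .24 + .3876 + .01) s ≤ .93 s`;
`inc y q (n+1) ≤ Q (exp (.93 s) - 1) ≤ 1.0555 * .93 * 1.001 s ≤ .99 s`;
`inc y p (n+1) ≤ (R + α) (Q + inc y q n) - R Q` (monotonicity as in `inc_mono`) `≤ .0486 s + .0634 s + .0001 s ≤ .114 s`.
`lin_contr`: linear inequalities: `B ≤ a X + 2 b (Q B + δ) + δ`, `2 b Q ≤ .6245`, so `B ≤ 14 X + 5 δ`;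
`q ≤ 15 X + 7 δ`; `P ≤ 1.0555 X + .0476 (15 X + 7 δ) + δ ≤ 1.8 X + 1.4 δ`; `X ≤ .0476 (1.8 X + 2.4 δ)`, so
`X ≤ δ/2`, `B ≤ 12 δ`, `q ≤ 15 δ`, `P ≤ 3 δ`.
-/

set_option linter.unusedSectionVars false

namespace Dia
open Finset PGr Pool.Agent.DiamP

private theorem Ctr_exp {u : ℝ} (h0 : 0 ≤ u) (h1 : u ≤ 1) : Real.exp u - 1 ≤ u * (1 + u) := by
  have h2 := Real.abs_exp_sub_one_sub_id_le (x := u) (by rw [abs_of_nonneg h0]; exact h1)
  have h3 := (abs_le.1 h2).2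
  nlinarith

private theorem Ctr_zero (y : ℝ) (f : ℕ → ℝ) : inc y f 0 = 0 := by
  unfold inc
  simp

private theorem Ctr_ts {f : ℕ → ℝ} (hf : ∀ k, 0 ≤ f k) (n : ℕ) : 0 ≤ ts f n :=
  Finset.sum_nonneg fun k _ => hf k

theorem ctr {x : ℝ} {h : ℕ → ℕ → ℝ} {M : ℕ∞} {r e p q d b : ℕ → ℝ}
    (H : PSys x h M r e p q d b) (hx : 0 ≤ x) (hh : ∀ v e, 0 ≤ h v e) (h0 : ∀ e, h 0 e = 0)
    {R D Q s : ℝ} (hR : ∀ n, ts r n ≤ R) (hD : ∀ n, ts d n ≤ D) (hQ : ∀ n, ts q n ≤ Q)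
    (hR1 : R ≤ 476 / 10000) (hD1 : D ≤ 1111 / 1000) (hQ1 : Q ≤ 10555 / 10000) (hs0 : 0 < s)
    (hs : s ≤ 1 / 1000)
    (hH : ∀ F : Finset (ℕ × ℕ), (∀ t ∈ F, ((t.2 + 1 : ℕ) : ℕ∞) < M) → ∀ α β : ℝ, 0 ≤ α →
      α ≤ 6 / 100 * s → 0 ≤ β → β ≤ 204 / 100 * s →
      ∑ t ∈ F, h t.1 t.2 * ((R + α) ^ t.1 * (D + β) ^ t.2 - R ^ t.1 * D ^ t.2) ≤
        4 * α + 19 / 100 * β + s / 100) (n : ℕ) :
    inc (Real.exp s) r n ≤ 6 / 100 * s ∧ inc (Real.exp s) p n ≤ 114 / 1000 * s ∧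
      inc (Real.exp s) q n ≤ 102 / 100 * s := by
  have hy : (1 : ℝ) ≤ Real.exp s := Real.one_le_exp hs0.le
  have hR0 : 0 ≤ R := (Ctr_ts H.r_nn 0).trans (hR 0)
  have hD0 : 0 ≤ D := (Ctr_ts H.d_nn 0).trans (hD 0)
  have hQ0 : 0 ≤ Q := (Ctr_ts H.q_nn 0).trans (hQ 0)
  induction n with
  | zero =>
    rw [Ctr_zero, Ctr_zero, Ctr_zero]
    exact ⟨by positivity, by positivity, by positivity⟩
  | succ n ih =>
    obtain ⟨ih1, ih2, ih3⟩ := ih
    have ip0 := inc_nonneg H.p_nn hy n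
    have iq0 := inc_nonneg H.q_nn hy n
    have ir0 := inc_nonneg H.r_nn hy (n + 1)
    have ib0 := inc_nonneg H.b_nn hy (n + 1)
    -- the bound for `r`
    have h1 : inc (Real.exp s) r (n + 1) ≤ 532 / 10000 * s := by
      have h2 := PInc_r H hx hy n
      rw [← Real.exp_add] at h2
      have h3 : Real.exp (s + inc (Real.exp s) p n) - 1 ≤ 11154 / 10000 * s := by
        have h4 : Real.exp (s + inc (Real.exp s) p n) ≤ Real.exp (1114 / 1000 * s) :=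
          Real.exp_le_exp.2 (by linarith)
        have h5 := Ctr_exp (u := 1114 / 1000 * s) (by positivity) (by linarith)
        have h6 : 1114 / 1000 * s * (1 + 1114 / 1000 * s) ≤ 11154 / 10000 * s := by nlinarith
        linarith
      have h4 : 0 ≤ Real.exp (s + inc (Real.exp s) p n) - 1 := by
        have := Real.one_le_exp (x := s + inc (Real.exp s) p n) (by linarith)
        linarith
      calc inc (Real.exp s) r (n + 1) ≤ ts r (n + 1) *
            (Real.exp (s + inc (Real.exp s) p n) - 1) := h2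
        _ ≤ 476 / 10000 * (11154 / 10000 * s) :=
            mul_le_mul ((hR _).trans hR1) h3 h4 (by norm_num)
        _ ≤ 532 / 10000 * s := by nlinarith
    set α := inc (Real.exp s) r (n + 1) with hα
    have hβ := PInc_d H (Real.exp s) n
    set κ := inc (Real.exp s) q n with hκ
    have hb : inc (Real.exp s) b (n + 1) ≤ 93 / 100 * s := by
      obtain ⟨F, hF, h2⟩ := PInc_b H hh h0 hy n
      rw [hβ, ← hα] at h2
      have h3 : (ts r (n + 1) + α) * (ts d n + 2 * κ) ^ 2 - ts r (n + 1) * ts d n ^ 2 ≤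
          (R + α) * (D + 2 * κ) ^ 2 - R * D ^ 2 := by
        have h4 := inc_mono (Ctr_ts H.r_nn (n + 1)) (Ctr_ts H.d_nn n) (hR (n + 1)) (hD n) ir0
          (show 0 ≤ 2 * κ by linarith) 1 2
        simpa only [pow_one] using h4
      have h5 : ∑ t ∈ F, h t.1 t.2 * ((ts r (n + 1) + α) ^ t.1 * (ts d n + 2 * κ) ^ t.2 -
          ts r (n + 1) ^ t.1 * ts d n ^ t.2) ≤
          ∑ t ∈ F, h t.1 t.2 * ((R + α) ^ t.1 * (D + 2 * κ) ^ t.2 - R ^ t.1 * D ^ t.2) :=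
        Finset.sum_le_sum fun t _ => mul_le_mul_of_nonneg_left
          (inc_mono (Ctr_ts H.r_nn (n + 1)) (Ctr_ts H.d_nn n) (hR (n + 1)) (hD n) ir0
            (by linarith) t.1 t.2) (hh _ _)
      have h6 := hH F hF α (2 * κ) ir0 (by linarith) (by linarith) (by linarith)
      have h7 : (R + α) * (D + 2 * κ) ^ 2 - R * D ^ 2 ≤ 2820 / 10000 * s := by
        have e1 : (R + α) * (D + 2 * κ) ^ 2 - R * D ^ 2 =
            α * (D + 2 * κ) ^ 2 + R * (2 * κ * (2 * D + 2 * κ)) := by ring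
        rw [e1]
        have g1 : D + 2 * κ ≤ 11131 / 10000 := by linarith
        have g2 : (D + 2 * κ) ^ 2 ≤ 12391 / 10000 := by
          calc (D + 2 * κ) ^ 2 ≤ (11131 / 10000) ^ 2 :=
                pow_le_pow_left₀ (by linarith) g1 2
            _ ≤ 12391 / 10000 := by norm_num
        have g3 : α * (D + 2 * κ) ^ 2 ≤ 532 / 10000 * s * (12391 / 10000) :=
          mul_le_mul h1 g2 (sq_nonneg _) (by positivity)
        have g4 : 2 * κ * (2 * D + 2 * κ) ≤ 204 / 100 * s * (22241 / 10000) :=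
          mul_le_mul (by linarith) (by linarith) (by linarith) (by positivity)
        have g5 : R * (2 * κ * (2 * D + 2 * κ)) ≤ 476 / 10000 * (204 / 100 * s * (22241 / 10000)) :=
          mul_le_mul hR1 g4 (mul_nonneg (by linarith) (by linarith)) (by norm_num)
        nlinarith
      linarith
    refine ⟨by linarith, ?_, ?_⟩
    · have h2 := PInc_p H hy n
      have h3 := inc_mono (Ctr_ts H.r_nn (n + 1)) (Ctr_ts H.q_nn n) (hR (n + 1)) (hQ n) ir0 iq0 1 1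
      simp only [pow_one] at h3
      have e1 : (R + α) * (Q + κ) - R * Q = α * Q + R * κ + α * κ := by ring
      rw [e1] at h3
      have g1 : α * Q ≤ 532 / 10000 * s * (10555 / 10000) := mul_le_mul h1 hQ1 hQ0 (by positivity)
      have g2 : R * κ ≤ 476 / 10000 * (102 / 100 * s) := mul_le_mul hR1 ih3 iq0 (by norm_num)
      have g3 : α * κ ≤ 532 / 10000 * s * (102 / 100 * s) := mul_le_mul h1 ih3 iq0 (by positivity)
      have g4 : s * s ≤ 1 / 1000 * s := mul_le_mul_of_nonneg_right hs hs0.le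
      nlinarith
    · have h2 := PInc_q H hy (n + 1)
      have h3 : Real.exp (inc (Real.exp s) b (n + 1)) - 1 ≤ 931 / 1000 * s := by
        have h4 : Real.exp (inc (Real.exp s) b (n + 1)) ≤ Real.exp (93 / 100 * s) :=
          Real.exp_le_exp.2 hb
        have h5 := Ctr_exp (u := 93 / 100 * s) (by positivity) (by linarith)
        have h6 : 93 / 100 * s * (1 + 93 / 100 * s) ≤ 931 / 1000 * s := by nlinarith
        linarith
      have h4 : 0 ≤ Real.exp (inc (Real.exp s) b (n + 1)) - 1 := by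
        have := Real.one_le_exp ib0
        linarith
      calc inc (Real.exp s) q (n + 1) ≤ ts q (n + 1) *
            (Real.exp (inc (Real.exp s) b (n + 1)) - 1) := h2
        _ ≤ 10555 / 10000 * (931 / 1000 * s) :=
            mul_le_mul ((hQ _).trans hQ1) h3 h4 (by norm_num)
        _ ≤ 102 / 100 * s := by nlinarith

theorem lin_contr {X P q B R Q a b δ : ℝ} (hX : 0 ≤ X) (hP : 0 ≤ P) (hq : 0 ≤ q) (hB : 0 ≤ B)
    (hδ : 0 ≤ δ) (hR0 : 0 ≤ R) (hQ0 : 0 ≤ Q) (ha0 : 0 ≤ a) (hb0 : 0 ≤ b) (hR : R ≤ 476 / 10000)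
    (hQ : Q ≤ 10555 / 10000) (ha : a ≤ 524 / 100) (hb : b ≤ 2958 / 10000) (h1 : X ≤ R * (P + δ))
    (h2 : P ≤ Q * X + R * q + δ) (h3 : q ≤ Q * B + δ) (h4 : B ≤ a * X + b * (2 * q) + δ) :
    X ≤ δ ∧ B ≤ 20 * δ ∧ q ≤ 20 * δ ∧ P ≤ 5 * δ := by
  have g1 : R * (P + δ) ≤ 476 / 10000 * (P + δ) := mul_le_mul_of_nonneg_right hR (by linarith)
  have g2 : Q * X ≤ 10555 / 10000 * X := mul_le_mul_of_nonneg_right hQ hX
  have g3 : R * q ≤ 476 / 10000 * q := mul_le_mul_of_nonneg_right hR hq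
  have g4 : Q * B ≤ 10555 / 10000 * B := mul_le_mul_of_nonneg_right hQ hB
  have g5 : a * X ≤ 524 / 100 * X := mul_le_mul_of_nonneg_right ha hX
  have g6 : b * (2 * q) ≤ 2958 / 10000 * (2 * q) := mul_le_mul_of_nonneg_right hb (by linarith)
  refine ⟨?_, ?_, ?_, ?_⟩
  all_goals linarith

end Dia
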