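import Pool.Agent.DiamP.Conv

/-!
# Truncated sums and functionals of weighted sequences: definitions

`inc y f n = ∑_{k ≤ n} f_k (y^k - 1)` (increment of the truncated generating function from `1` to `y`).
-/

set_option linter.unusedSectionVars false

namespace Dia
open Finset Pool.Agent.DiamP

/-- truncated sum -/
noncomputable def ts (f : ℕ → ℝ) (n : ℕ) : ℝ := ∑ k ∈ range (n + 1), f k

/-- increment of the truncated generating function -/
noncomputable def inc (y : ℝ) (f : ℕ → ℝ) (n : ℕ) : ℝ := ∑ k ∈ range (n + 1), f k * (y ^ k - 1)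

/-- `min(1, s k)` -/
noncomputable def fm (s : ℝ) (k : ℕ) : ℝ := min 1 (s * k)

/-- `min(1, (s k)^2)` -/
noncomputable def fw (s : ℝ) (k : ℕ) : ℝ := min 1 ((s * k) ^ 2)

end Dia
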