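import Mathlib

/-!
# Module Dyad: from windows of length `n^(2/3)` to dyadic sums

`dyad_up`: (a) for `N ≥ 1` and `J ⊆ [N, 2N)`: `∑_J τ ≤ C' N^(-3/2)`.  Double counting: for `j ∈ J` the number of `n`
with `n ≤ j ≤ n + n^(2/3)` and `N/2 ≤ n` is at least `N^(2/3)/4` (all `n` with `j - N^(2/3)/2 ≤ n ≤ j`: then
`n ≥ N/2`, `n^(2/3) ≥ N^(2/3)/2`); so `N^(2/3)/4 ∑_J τ ≤ ∑_{N/2 ≤ n < 2N} C n^(-11/6) ≤ 2 N * C * (N/2)^(-11/6)`.
(Or: cover `[N, 2N)` by at most `N^(1/3) + 2` windows `[n_i, n_i + n_i^(2/3)]`, `n_i = N + i ⌊N^(2/3)⌋`.)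
(b) `j ≥ N`: sum (a) over `N 2^i`: geometric series.  (c) `j ≤ M`: `∑_{2^i ≤ j < 2^(i+1)} j^2 τ j ≤ 4 * 4^i C' 2^(-3i/2)
= 4 C' 2^(i/2)`, geometric sum over `2^i ≤ M` (and the term `j = 0` is `0`).
`dyad_low`: double counting: put `x1 = (1 - η/2) x`, `x2 = (1 + η/2) x` (`η < 1` without loss of generality: the sum
increases with `η`).  `∑_{x1 ≤ n ≤ x2} ∑_{|μ j - n| ≤ A n^(2/3)} τ j ≥ (η x - 1) c x2^(-11/6)`; every `j` which
occurs satisfies `|μ j - x| ≤ η x` (for `x` large: `A (2x)^(2/3) ≤ η x/2`) and is counted for at most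
`2 A (2x)^(2/3) + 1` values of `n`.  So `∑ τ j ≥ c' x^(1 - 11/6 - 2/3) = c' x^(-3/2)`.
-/

set_option linter.unusedSectionVars false

namespace Dia
open Finset

/-- one dyadic block -/
private theorem Dyad_block {τ : ℕ → ℝ} (hτ : ∀ j, 0 ≤ τ j) {C : ℝ} (hC : 0 < C)
    (hup : ∀ n : ℕ, 1 ≤ n → ∀ J : Finset ℕ, (∀ j ∈ J, n ≤ j ∧ (j : ℝ) ≤ n + (n : ℝ) ^ (2 / 3 : ℝ)) →
      ∑ j ∈ J, τ j ≤ C * (n : ℝ) ^ (-(11 / 6) : ℝ)) (N : ℕ) (hN : 1 ≤ N) (J : Finset ℕ)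
    (hJ : ∀ j ∈ J, N ≤ j ∧ j < 2 * N) : ∑ j ∈ J, τ j ≤ 3 * C * (N : ℝ) ^ (-(3 / 2) : ℝ) := by
  classical
  have hNR : (1 : ℝ) ≤ N := by exact_mod_cast hN
  have hN0 : (0 : ℝ) < N := by linarith
  have hw1 : (1 : ℝ) ≤ (N : ℝ) ^ (2 / 3 : ℝ) := Real.one_le_rpow hNR (by norm_num)
  obtain ⟨w, hw⟩ : ∃ w : ℕ, w = ⌊(N : ℝ) ^ (2 / 3 : ℝ)⌋₊ := ⟨_, rfl⟩
  have hwpos : 1 ≤ w := by rw [hw]; exact Nat.le_floor (by simpa using hw1)
  have hwle : (w : ℝ) ≤ (N : ℝ) ^ (2 / 3 : ℝ) := by rw [hw]; exact Nat.floor_le (by linarith)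
  have hwge : (N : ℝ) ^ (2 / 3 : ℝ) ≤ 2 * w := by
    have h1 : (N : ℝ) ^ (2 / 3 : ℝ) < w + 1 := by rw [hw]; exact Nat.lt_floor_add_one _
    have h2 : (1 : ℝ) ≤ w := by exact_mod_cast hwpos
    linarith
  have hmaps : ∀ j ∈ J, (j - N) / w ∈ range (N / w + 1) := by
    intro j hj
    rw [mem_range]
    have h1 := hJ j hj
    have h2 : (j - N) / w ≤ N / w := Nat.div_le_div_right (by omega)
    omega
  rw [← sum_fiberwise_of_maps_to hmaps]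
  have hone : ∀ i ∈ range (N / w + 1), ∑ j ∈ J.filter (fun j => (j - N) / w = i), τ j ≤
      C * (N : ℝ) ^ (-(11 / 6) : ℝ) := by
    intro i _
    refine (hup (N + i * w) (by omega) _ ?_).trans ?_
    · intro j hj
      rw [mem_filter] at hj
      have h1 := hJ j hj.1
      have h2 : i * w ≤ j - N := by rw [← hj.2]; exact Nat.div_mul_le_self _ _
      have h3 : j - N < (i + 1) * w := by
        rw [← hj.2, mul_comm]
        exact Nat.lt_mul_div_succ _ (by omega)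
      refine ⟨by omega, ?_⟩
      have h4 : j ≤ N + i * w + w := by
        have : (i + 1) * w = i * w + w := by ring
        omega
      have h5 : (j : ℝ) ≤ ((N + i * w : ℕ) : ℝ) + w := by exact_mod_cast h4
      refine h5.trans ?_
      have h6 : (N : ℝ) ^ (2 / 3 : ℝ) ≤ ((N + i * w : ℕ) : ℝ) ^ (2 / 3 : ℝ) := by
        refine Real.rpow_le_rpow hN0.le ?_ (by norm_num)
        exact_mod_cast Nat.le_add_right _ _
      linarith
    · refine mul_le_mul_of_nonneg_left ?_ hC.le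
      refine Real.rpow_le_rpow_of_nonpos hN0 ?_ (by norm_num)
      exact_mod_cast Nat.le_add_right _ _
  refine (sum_le_sum hone).trans ?_
  rw [sum_const, card_range, nsmul_eq_mul]
  have hcnt : ((N / w + 1 : ℕ) : ℝ) ≤ 3 * (N : ℝ) ^ (1 / 3 : ℝ) := by
    have h1 : ((N / w : ℕ) : ℝ) ≤ (N : ℝ) / w := Nat.cast_div_le
    have h2 : (N : ℝ) / w ≤ 2 * (N : ℝ) ^ (1 / 3 : ℝ) := by
      have hw0 : (0 : ℝ) < w := by exact_mod_cast (by omega : 0 < w)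
      rw [div_le_iff₀ hw0]
      have h3 : (N : ℝ) = (N : ℝ) ^ (1 / 3 : ℝ) * (N : ℝ) ^ (2 / 3 : ℝ) := by
        rw [← Real.rpow_add hN0]
        norm_num
      have h4 : 0 ≤ (N : ℝ) ^ (1 / 3 : ℝ) := Real.rpow_nonneg hN0.le _
      calc (N : ℝ) = (N : ℝ) ^ (1 / 3 : ℝ) * (N : ℝ) ^ (2 / 3 : ℝ) := h3
        _ ≤ (N : ℝ) ^ (1 / 3 : ℝ) * (2 * w) := mul_le_mul_of_nonneg_left hwge h4
        _ = _ := by ring
    have h3 : (1 : ℝ) ≤ (N : ℝ) ^ (1 / 3 : ℝ) := Real.one_le_rpow hNR (by norm_num)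
    push_cast
    linarith
  have h0 : 0 ≤ C * (N : ℝ) ^ (-(11 / 6) : ℝ) := mul_nonneg hC.le (Real.rpow_nonneg hN0.le _)
  refine (mul_le_mul_of_nonneg_right hcnt h0).trans (le_of_eq ?_)
  have h1 : (N : ℝ) ^ (-(3 / 2) : ℝ) = (N : ℝ) ^ (1 / 3 : ℝ) * (N : ℝ) ^ (-(11 / 6) : ℝ) := by
    rw [← Real.rpow_add hN0]
    norm_num
  rw [h1]
  ring

private theorem Dyad_geo (r : ℝ) (h0 : 0 ≤ r) (h1 : r ≤ 1 / 2) (n : ℕ) : ∑ i ∈ range n, r ^ i ≤ 2 := by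
  have h2 : (1 - r) * ∑ i ∈ range n, r ^ i = 1 - r ^ n := mul_neg_geom_sum r n
  have h3 : 0 ≤ r ^ n := pow_nonneg h0 n
  have h4 : 0 ≤ ∑ i ∈ range n, r ^ i := sum_nonneg fun i _ => pow_nonneg h0 i
  nlinarith

theorem dyad_up {τ : ℕ → ℝ} (hτ : ∀ j, 0 ≤ τ j) {C : ℝ} (hC : 0 < C)
    (hup : ∀ n : ℕ, 1 ≤ n → ∀ J : Finset ℕ, (∀ j ∈ J, n ≤ j ∧ (j : ℝ) ≤ n + (n : ℝ) ^ (2 / 3 : ℝ)) →
      ∑ j ∈ J, τ j ≤ C * (n : ℝ) ^ (-(11 / 6) : ℝ)) :
    ∃ K : ℝ, 0 < K ∧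
      (∀ N : ℕ, 1 ≤ N → ∀ J : Finset ℕ, (∀ j ∈ J, N ≤ j) →
        ∑ j ∈ J, τ j ≤ K * (N : ℝ) ^ (-(3 / 2) : ℝ)) ∧
      (∀ M : ℕ, 1 ≤ M → ∀ J : Finset ℕ, (∀ j ∈ J, j ≤ M) →
        ∑ j ∈ J, (j : ℝ) ^ 2 * τ j ≤ K * (M : ℝ) ^ (1 / 2 : ℝ)) := by
  classical
  refine ⟨48 * C, by linarith, ?_, ?_⟩
  · intro N hN J hJ
    have hN0 : (0 : ℝ) < N := by exact_mod_cast hN
    obtain ⟨I, hI⟩ : ∃ I : ℕ, ∀ j ∈ J, Nat.log 2 (j / N) < I := by
      refine ⟨(J.sup fun j => Nat.log 2 (j / N)) + 1, fun j hj => ?_⟩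
      exact Nat.lt_succ_of_le (le_sup (f := fun j => Nat.log 2 (j / N)) hj)
    have hmaps : ∀ j ∈ J, Nat.log 2 (j / N) ∈ range I := fun j hj => mem_range.2 (hI j hj)
    rw [← sum_fiberwise_of_maps_to hmaps]
    have hone : ∀ i ∈ range I, ∑ j ∈ J.filter (fun j => Nat.log 2 (j / N) = i), τ j ≤
        3 * C * (N : ℝ) ^ (-(3 / 2) : ℝ) * ((2 : ℝ) ^ (-(3 / 2) : ℝ)) ^ i := by
      intro i _
      refine (Dyad_block hτ hC hup (N * 2 ^ i) (Nat.mul_pos hN (pow_pos (by norm_num) _)) _ ?_).trans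
        (le_of_eq ?_)
      · intro j hj
        rw [mem_filter] at hj
        have h1 := hJ j hj.1
        have h2 : 1 ≤ j / N := (Nat.one_le_div_iff hN).2 h1
        have h3 : 2 ^ i ≤ j / N := by rw [← hj.2]; exact Nat.pow_log_le_self 2 (by omega)
        have h4 : j / N < 2 ^ (i + 1) := by rw [← hj.2]; exact Nat.lt_pow_succ_log_self (by norm_num) _
        constructor
        · calc N * 2 ^ i ≤ N * (j / N) := Nat.mul_le_mul_left _ h3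
            _ ≤ j := Nat.mul_div_le _ _
        · have h5 : j < N * 2 ^ (i + 1) := by
            rw [mul_comm]
            exact (Nat.div_lt_iff_lt_mul hN).1 h4
          calc j < N * 2 ^ (i + 1) := h5
            _ = 2 * (N * 2 ^ i) := by ring
      · push_cast
        rw [Real.mul_rpow hN0.le (by positivity), ← Real.rpow_natCast, ← Real.rpow_natCast, ← Real.rpow_mul (by norm_num),
          ← Real.rpow_mul (by norm_num)]
        ring_nf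
    refine (sum_le_sum hone).trans ?_
    rw [← mul_sum]
    have hr : (2 : ℝ) ^ (-(3 / 2) : ℝ) ≤ 1 / 2 := by
      calc (2 : ℝ) ^ (-(3 / 2) : ℝ) ≤ (2 : ℝ) ^ (-1 : ℝ) :=
            Real.rpow_le_rpow_of_exponent_le (by norm_num) (by norm_num)
        _ = 1 / 2 := by rw [Real.rpow_neg_one]; norm_num
    have h1 := Dyad_geo _ (by positivity) hr I
    have h2 : 0 ≤ 3 * C * (N : ℝ) ^ (-(3 / 2) : ℝ) := by positivity
    have h3 : 0 ≤ C * (N : ℝ) ^ (-(3 / 2) : ℝ) := by positivity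
    refine (mul_le_mul_of_nonneg_left h1 h2).trans ?_
    nlinarith
  · intro M hM J hJ
    have hM0 : (0 : ℝ) < M := by exact_mod_cast hM
    -- remove `0`
    have e0 : ∑ j ∈ J, (j : ℝ) ^ 2 * τ j = ∑ j ∈ J.filter (fun j => 1 ≤ j), (j : ℝ) ^ 2 * τ j := by
      refine (sum_filter_of_ne fun j _ hne => ?_).symm
      by_contra h
      have : j = 0 := by omega
      subst this
      simp at hne
    rw [e0]
    have hmaps : ∀ j ∈ J.filter (fun j => 1 ≤ j), Nat.log 2 j ∈ range (Nat.log 2 M + 1) := by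
      intro j hj
      rw [mem_filter] at hj
      rw [mem_range]
      exact Nat.lt_succ_of_le (Nat.log_mono_right (hJ j hj.1))
    rw [← sum_fiberwise_of_maps_to hmaps]
    have hone : ∀ i ∈ range (Nat.log 2 M + 1), ∑ j ∈ (J.filter (fun j => 1 ≤ j)).filter (fun j => Nat.log 2 j = i),
        (j : ℝ) ^ 2 * τ j ≤ 12 * C * (√2) ^ i := by
      intro i _
      have h0 : ∀ j ∈ (J.filter (fun j => 1 ≤ j)).filter (fun j => Nat.log 2 j = i), 2 ^ i ≤ j ∧ j < 2 * 2 ^ i := by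
        intro j hj
        rw [mem_filter, mem_filter] at hj
        constructor
        · rw [← hj.2]; exact Nat.pow_log_le_self 2 (by omega)
        · have : j < 2 ^ (i + 1) := by rw [← hj.2]; exact Nat.lt_pow_succ_log_self (by norm_num) _
          rw [pow_succ] at this
          omega
      have h1 : ∑ j ∈ (J.filter (fun j => 1 ≤ j)).filter (fun j => Nat.log 2 j = i), (j : ℝ) ^ 2 * τ j ≤
          ∑ j ∈ (J.filter (fun j => 1 ≤ j)).filter (fun j => Nat.log 2 j = i), (4 * (2 ^ i) ^ 2) * τ j := by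
        refine sum_le_sum fun j hj => mul_le_mul_of_nonneg_right ?_ (hτ j)
        have h2 : (j : ℝ) ≤ 2 * 2 ^ i := by exact_mod_cast (h0 j hj).2.le
        calc (j : ℝ) ^ 2 ≤ (2 * 2 ^ i) ^ 2 := pow_le_pow_left₀ (Nat.cast_nonneg _) h2 2
          _ = _ := by ring
      refine h1.trans ?_
      rw [← mul_sum]
      have h2 := Dyad_block hτ hC hup (2 ^ i) (Nat.one_le_two_pow) _ h0
      refine (mul_le_mul_of_nonneg_left h2 (by positivity)).trans (le_of_eq ?_)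
      push_cast
      have h3 : ((2 : ℝ) ^ i) ^ (-(3 / 2) : ℝ) * ((2 : ℝ) ^ i) ^ 2 = (√2) ^ i := by
        have hp : (0 : ℝ) < (2 : ℝ) ^ i := by positivity
        rw [← Real.rpow_natCast ((2 : ℝ) ^ i) 2, ← Real.rpow_add hp, Real.sqrt_eq_rpow, ← Real.rpow_natCast,
          ← Real.rpow_natCast, ← Real.rpow_mul (by norm_num), ← Real.rpow_mul (by norm_num)]
        push_cast
        ring_nf
      calc 4 * ((2 : ℝ) ^ i) ^ 2 * (3 * C * ((2 : ℝ) ^ i) ^ (-(3 / 2) : ℝ)) =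
          12 * C * (((2 : ℝ) ^ i) ^ (-(3 / 2) : ℝ) * ((2 : ℝ) ^ i) ^ 2) := by ring
        _ = _ := by rw [h3]
    refine (sum_le_sum hone).trans ?_
    rw [← mul_sum]
    set r : ℝ := √2 with hr
    have hr2 : r ^ 2 = 2 := Real.sq_sqrt (by norm_num)
    have hr0 : 0 ≤ r := Real.sqrt_nonneg _
    have hr14 : (14 : ℝ) / 10 ≤ r := by
      rw [hr]; exact Real.le_sqrt_of_sq_le (by norm_num)
    have hr15 : r ≤ 15 / 10 := by
      rw [hr]; exact Real.sqrt_le_iff.2 ⟨by norm_num, by norm_num⟩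
    have hgs : (r - 1) * ∑ i ∈ range (Nat.log 2 M + 1), r ^ i = r ^ (Nat.log 2 M + 1) - 1 := by
      rw [mul_comm]; exact geom_sum_mul r _
    have hL : r ^ Nat.log 2 M ≤ (M : ℝ) ^ (1 / 2 : ℝ) := by
      rw [← Real.sqrt_eq_rpow]
      refine Real.le_sqrt_of_sq_le ?_
      rw [← pow_mul, mul_comm, pow_mul, hr2]
      exact_mod_cast Nat.pow_log_le_self 2 (by omega)
    have hS0 : 0 ≤ ∑ i ∈ range (Nat.log 2 M + 1), r ^ i := sum_nonneg fun i _ => pow_nonneg hr0 i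
    have hM2 : 0 ≤ (M : ℝ) ^ (1 / 2 : ℝ) := by positivity
    have h5 : r ^ (Nat.log 2 M + 1) ≤ 15 / 10 * (M : ℝ) ^ (1 / 2 : ℝ) := by
      rw [pow_succ]
      calc r ^ Nat.log 2 M * r ≤ (M : ℝ) ^ (1 / 2 : ℝ) * (15 / 10) := mul_le_mul hL hr15 hr0 hM2
        _ = _ := by ring
    have h6 : ∑ i ∈ range (Nat.log 2 M + 1), r ^ i ≤ 4 * (M : ℝ) ^ (1 / 2 : ℝ) := by nlinarith
    calc 12 * C * ∑ i ∈ range (Nat.log 2 M + 1), r ^ i ≤ 12 * C * (4 * (M : ℝ) ^ (1 / 2 : ℝ)) :=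
          mul_le_mul_of_nonneg_left h6 (by positivity)
      _ = _ := by ring

private theorem Dyad_card (a B : ℝ) (hB : 0 ≤ B) (S : Finset ℕ) (hS : ∀ n ∈ S, |a - n| ≤ B) :
    (S.card : ℝ) ≤ 2 * B + 1 := by
  classical
  have h1 : S.card ≤ (Icc ⌈a - B⌉ ⌊a + B⌋).card := by
    rw [← card_image_of_injective S (f := fun n : ℕ => (n : ℤ)) Nat.cast_injective]
    refine card_le_card fun z hz => ?_
    obtain ⟨n, hn, rfl⟩ := mem_image.1 hz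
    have h2 := abs_le.1 (hS n hn)
    rw [mem_Icc, Int.ceil_le, Int.le_floor]
    push_cast
    constructor <;> linarith
  rw [Int.card_Icc] at h1
  have h2 : ((⌊a + B⌋ + 1 - ⌈a - B⌉).toNat : ℝ) ≤ 2 * B + 1 := by
    have h3 : ((⌊a + B⌋ + 1 - ⌈a - B⌉ : ℤ) : ℝ) ≤ 2 * B + 1 := by
      push_cast
      have h4 := Int.floor_le (a + B)
      have h5 := Int.le_ceil (a - B)
      linarith
    by_cases h6 : 0 ≤ ⌊a + B⌋ + 1 - ⌈a - B⌉
    · have h7 : (((⌊a + B⌋ + 1 - ⌈a - B⌉).toNat : ℤ) : ℝ) = ((⌊a + B⌋ + 1 - ⌈a - B⌉ : ℤ) : ℝ) := by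
        rw [Int.toNat_of_nonneg h6]
      rw [← h7] at h3
      exact_mod_cast h3
    · rw [Int.toNat_of_nonpos (by omega)]
      simp only [CharP.cast_eq_zero]
      linarith
  exact le_trans (by exact_mod_cast h1) h2

theorem dyad_low {τ : ℕ → ℝ} (hτ : ∀ j, 0 ≤ τ j) {c A μ : ℝ} (hc : 0 < c) (hA : 0 < A)
    (hμ : 0 < μ) {n0 : ℕ}
    (hlow : ∀ n : ℕ, n0 ≤ n → c * (n : ℝ) ^ (-(11 / 6) : ℝ) ≤
      ∑ j ∈ (range (n + 1)).filter (fun j : ℕ => |μ * j - n| ≤ A * (n : ℝ) ^ (2 / 3 : ℝ)), τ j)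
    {η : ℝ} (hη : 0 < η) :
    ∃ c' : ℝ, 0 < c' ∧ ∃ x0 : ℝ, ∀ x : ℝ, x0 ≤ x → ∃ J : Finset ℕ,
      (∀ j ∈ J, |μ * j - x| ≤ η * x) ∧ c' * x ^ (-(3 / 2) : ℝ) ≤ ∑ j ∈ J, τ j := by
  classical
  obtain ⟨e, he⟩ : ∃ e : ℝ, e = min η 1 := ⟨_, rfl⟩
  have he0 : 0 < e := by rw [he]; exact lt_min hη one_pos
  have he1 : e ≤ 1 := by rw [he]; exact min_le_right _ _
  have heη : e ≤ η := by rw [he]; exact min_le_left _ _
  -- `x` large
  have hev : ∀ᶠ x : ℝ in Filter.atTop, A * (2 * x) ^ (2 / 3 : ℝ) ≤ e * x / 2 ∧ 1 ≤ A * (2 * x) ^ (2 / 3 : ℝ) ∧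
      2 / e ≤ x ∧ 2 * (n0 : ℝ) ≤ x ∧ 1 ≤ x := by
    have t1 : Filter.Tendsto (fun x : ℝ => (2 * x) ^ (1 / 3 : ℝ)) Filter.atTop Filter.atTop :=
      (tendsto_rpow_atTop (by norm_num)).comp (Filter.tendsto_id.const_mul_atTop (by norm_num))
    have t2 : Filter.Tendsto (fun x : ℝ => (2 * x) ^ (2 / 3 : ℝ)) Filter.atTop Filter.atTop :=
      (tendsto_rpow_atTop (by norm_num)).comp (Filter.tendsto_id.const_mul_atTop (by norm_num))
    filter_upwards [t1.eventually_ge_atTop (4 * A / e), t2.eventually_ge_atTop (1 / A),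
      Filter.eventually_ge_atTop (2 / e), Filter.eventually_ge_atTop (2 * (n0 : ℝ)),
      Filter.eventually_ge_atTop (1 : ℝ)] with x h1 h2 h3 h4 h5
    refine ⟨?_, ?_, h3, h4, h5⟩
    · have hx : 0 < 2 * x := by linarith
      have h6 : 2 * x = (2 * x) ^ (1 / 3 : ℝ) * (2 * x) ^ (2 / 3 : ℝ) := by
        rw [← Real.rpow_add hx]
        norm_num
      have h7 : 0 ≤ (2 * x) ^ (2 / 3 : ℝ) := Real.rpow_nonneg hx.le _
      have h8 : 4 * A / e * (2 * x) ^ (2 / 3 : ℝ) ≤ 2 * x := by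
        calc 4 * A / e * (2 * x) ^ (2 / 3 : ℝ) ≤ (2 * x) ^ (1 / 3 : ℝ) * (2 * x) ^ (2 / 3 : ℝ) :=
              mul_le_mul_of_nonneg_right h1 h7
          _ = 2 * x := h6.symm
      have h9 : 4 * A / e * (2 * x) ^ (2 / 3 : ℝ) = (4 * A * (2 * x) ^ (2 / 3 : ℝ)) / e := by ring
      rw [h9, div_le_iff₀ he0] at h8
      linarith
    · rw [div_le_iff₀ hA] at h2
      linarith
  obtain ⟨x0, hx0⟩ := Filter.eventually_atTop.1 hev
  refine ⟨e * c / (12 * A) * (2 : ℝ) ^ (-(3 / 2) : ℝ), by positivity, x0, fun x hx => ?_⟩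
  obtain ⟨h1, h2, h3, h4, h5⟩ := hx0 x hx
  have hx0' : 0 < x := by linarith
  have h2x : (0 : ℝ) < 2 * x := by linarith
  set y : ℝ := (2 * x) ^ (2 / 3 : ℝ) with hy
  set R : Finset ℕ := Icc ⌈(1 - e / 2) * x⌉₊ ⌊(1 + e / 2) * x⌋₊ with hR
  set J : Finset ℕ := (range (⌊(1 + e / 2) * x⌋₊ + 1)).filter fun j : ℕ => |μ * j - x| ≤ e * x with hJ
  have hRn : ∀ n ∈ R, (1 - e / 2) * x ≤ n ∧ (n : ℝ) ≤ (1 + e / 2) * x ∧ n ≤ ⌊(1 + e / 2) * x⌋₊ := by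
    intro n hn
    rw [hR, mem_Icc] at hn
    refine ⟨Nat.ceil_le.1 hn.1, ?_, hn.2⟩
    exact (Nat.le_floor_iff (by positivity)).1 hn.2
  have hcardR : e * x / 2 ≤ R.card := by
    rw [hR, Nat.card_Icc]
    have g1 : (⌈(1 - e / 2) * x⌉₊ : ℝ) < (1 - e / 2) * x + 1 :=
      Nat.ceil_lt_add_one (mul_nonneg (by linarith) hx0'.le)
    have g2 : (1 + e / 2) * x < ⌊(1 + e / 2) * x⌋₊ + 1 := Nat.lt_floor_add_one _
    have g3 : ((⌊(1 + e / 2) * x⌋₊ + 1 : ℕ) : ℝ) - (⌈(1 - e / 2) * x⌉₊ : ℝ) ≤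
        ((⌊(1 + e / 2) * x⌋₊ + 1 - ⌈(1 - e / 2) * x⌉₊ : ℕ) : ℝ) := by
      rw [sub_le_iff_le_add]
      exact_mod_cast (by omega : ⌊(1 + e / 2) * x⌋₊ + 1 ≤
        ⌊(1 + e / 2) * x⌋₊ + 1 - ⌈(1 - e / 2) * x⌉₊ + ⌈(1 - e / 2) * x⌉₊)
    refine le_trans ?_ g3
    push_cast
    have g4 : 2 ≤ e * x := by
      rw [div_le_iff₀ he0] at h3
      linarith
    linarith
  refine ⟨J, ?_, ?_⟩
  · intro j hj
    rw [hJ, mem_filter] at hj
    exact hj.2.trans (mul_le_mul_of_nonneg_right heη hx0'.le)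
  -- double counting
  have hlow' : ∀ n ∈ R, c * (2 * x) ^ (-(11 / 6) : ℝ) ≤
      ∑ j ∈ J, if |μ * j - n| ≤ A * y then τ j else 0 := by
    intro n hn
    obtain ⟨g1, g2, g3⟩ := hRn n hn
    have hn1 : x / 2 ≤ n := by
      have : (1 - e / 2) * x ≥ x / 2 := by nlinarith
      linarith
    have hn2 : (n : ℝ) ≤ 2 * x := by
      have : (1 + e / 2) * x ≤ 2 * x := by nlinarith
      linarith
    have hnn0 : n0 ≤ n := by
      have : (n0 : ℝ) ≤ n := by linarith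
      exact_mod_cast this
    have hn0 : (0 : ℝ) < n := by linarith
    have hny : (n : ℝ) ^ (2 / 3 : ℝ) ≤ y := Real.rpow_le_rpow hn0.le hn2 (by norm_num)
    have g4 : c * (2 * x) ^ (-(11 / 6) : ℝ) ≤ c * (n : ℝ) ^ (-(11 / 6) : ℝ) :=
      mul_le_mul_of_nonneg_left (Real.rpow_le_rpow_of_nonpos hn0 hn2 (by norm_num)) hc.le
    refine g4.trans ((hlow n hnn0).trans ?_)
    rw [← sum_filter]
    refine sum_le_sum_of_subset_of_nonneg ?_ fun j _ _ => hτ j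
    intro j hj
    rw [mem_filter, mem_range] at hj
    have g5 : |μ * j - n| ≤ A * y := hj.2.trans (mul_le_mul_of_nonneg_left hny hA.le)
    rw [mem_filter, hJ, mem_filter, mem_range]
    refine ⟨⟨by omega, ?_⟩, g5⟩
    have g6 : |(n : ℝ) - x| ≤ e * x / 2 := by
      rw [abs_le]
      constructor <;> linarith
    calc |μ * j - x| = |(μ * j - n) + (n - x)| := by ring_nf
      _ ≤ |μ * j - n| + |(n : ℝ) - x| := abs_add_le _ _
      _ ≤ A * y + e * x / 2 := add_le_add g5 g6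
      _ ≤ e * x := by linarith
  have hsum : e * x / 2 * (c * (2 * x) ^ (-(11 / 6) : ℝ)) ≤ (3 * (A * y)) * ∑ j ∈ J, τ j := by
    calc e * x / 2 * (c * (2 * x) ^ (-(11 / 6) : ℝ)) ≤ R.card * (c * (2 * x) ^ (-(11 / 6) : ℝ)) :=
          mul_le_mul_of_nonneg_right hcardR (by positivity)
      _ = ∑ _n ∈ R, c * (2 * x) ^ (-(11 / 6) : ℝ) := by rw [sum_const, nsmul_eq_mul]
      _ ≤ ∑ n ∈ R, ∑ j ∈ J, (if |μ * j - n| ≤ A * y then τ j else 0) := sum_le_sum hlow'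
      _ = ∑ j ∈ J, ∑ n ∈ R, (if |μ * j - n| ≤ A * y then τ j else 0) := sum_comm
      _ ≤ ∑ j ∈ J, (3 * (A * y)) * τ j := by
          refine sum_le_sum fun j _ => ?_
          rw [← sum_filter, sum_const, nsmul_eq_mul]
          refine mul_le_mul_of_nonneg_right ?_ (hτ j)
          have g1 := Dyad_card (μ * j) (A * y) (by linarith) (R.filter fun n : ℕ => |μ * j - n| ≤ A * y)
            (fun n hn => (mem_filter.1 hn).2)
          linarith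
      _ = _ := by rw [← mul_sum]
  have hy0 : 0 < y := Real.rpow_pos_of_pos h2x _
  have e1 : (2 * x) ^ (-(11 / 6) : ℝ) * (2 * x) = (2 * x) ^ (-(3 / 2) : ℝ) * y := by
    rw [hy, ← Real.rpow_add h2x]
    conv_lhs => rw [← Real.rpow_one (2 * x), ← Real.rpow_mul h2x.le, ← Real.rpow_add h2x]
    norm_num
  have e2 : (2 * x) ^ (-(3 / 2) : ℝ) = (2 : ℝ) ^ (-(3 / 2) : ℝ) * x ^ (-(3 / 2) : ℝ) :=
    Real.mul_rpow (by norm_num) hx0'.le
  have e3 : e * x / 2 * (c * (2 * x) ^ (-(11 / 6) : ℝ)) =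
      3 * (A * y) * (e * c / (12 * A) * (2 : ℝ) ^ (-(3 / 2) : ℝ) * x ^ (-(3 / 2) : ℝ)) := by
    have : e * x / 2 * (c * (2 * x) ^ (-(11 / 6) : ℝ)) = e * c / 4 * ((2 * x) ^ (-(11 / 6) : ℝ) * (2 * x)) := by ring
    rw [this, e1, e2]
    field_simp
    ring
  rw [e3] at hsum
  exact le_of_mul_le_mul_left hsum (by positivity)

end Dia
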