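import Pool.Agent.DiaA.Defs

/-!
# Module Fun: the functionals `ex f (fm s)`, `ex f (fw s)`

`ex f φ = ∑' n, f n * φ n` (DiamP/Prob).  All sequences are nonnegative and summable; `0 ≤ fm, fw ≤ 1`.
`fm_add`: `min 1 (u + v) ≤ min 1 u + min 1 v`; `fw_add`: `min 1 ((u+v)^2) ≤ min 1 (u^2) + min 1 (v^2) + 2 min 1 u min 1 v`
(if `u, v ≤ 1` it is an identity for the upper bound, otherwise the right side is `≥ 1`).
`fm_div`: `j min(1, s(i+j)) ≤ (i+j) min(1, s j)`: `min(1,u)/u` is decreasing.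
`fw_div`: `j/(i+j) min(1, (s(i+j))^2) ≤ fw s j + fm s i * fm s j`: it is at most `s^2 j (i+j) = (sj)^2 + (si)(sj)`
(clear if `s(i+j) ≤ 1`; if `s(i+j) > 1` then `j/(i+j) ≤ s^2 j (i+j)`); this settles `si ≤ 1`, `sj ≤ 1`.  If `sj > 1`:
the left side is `≤ 1`.  If `sj ≤ 1 < si`: left side `≤ j/(i+j) ≤ j/i ≤ s j = fm s i * fm s j`.
`ex_cv_fm`, `ex_cv_fw`: `hasSum_cv` (DiamP/Basic): `ex (cv f g) φ = ∑' i, f i ∑' j, g j φ(i+j)`.
`ex_log_fm`, `ex_log_fw`: `ex f φ = ∑_{k ≥ 1} k f k φ(k)/k ≤ ∑_{i,j} j g j f i φ(i+j)/(i+j)` (`φ 0 = 0`; use `hasSum_cv`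
for truncated sums or with the bounded function `φ(k)/k` and the summable sequence `j g j` replaced by its truncation
at `j ≤ N`, or in `ENNReal`), then `fm_div`, `fw_div`.
`tsum_cvL_rd`: `∑' cvL = ∏ ∑'`; `ex_rd_fm`, `ex_rd_fw`: induction on `e` and `v` with `ex_cv_fm`, `ex_cv_fw`;
the cross terms: adding one factor `f` (`f = r` or `d`, with total `F`) to a list with product `Π`, `m` members:
`2 ex f fm * ex (cvL l) fm ≤ 2 F Π u * (m u) ≤ F Π u^2 ((m+1)^2 - m^2)` for `u ≥ ex r fm/R, ex d fm/D`.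
-/

set_option linter.unusedSectionVars false

namespace Dia
open Finset Pool.Agent.DiamP

theorem fm_nonneg {s : ℝ} (hs : 0 ≤ s) (k : ℕ) : 0 ≤ fm s k :=
  le_min zero_le_one (mul_nonneg hs (Nat.cast_nonneg _))

theorem fm_le_one (s : ℝ) (k : ℕ) : fm s k ≤ 1 := min_le_left _ _

theorem fw_nonneg (s : ℝ) (k : ℕ) : 0 ≤ fw s k := le_min zero_le_one (sq_nonneg _)

theorem fw_le_one (s : ℝ) (k : ℕ) : fw s k ≤ 1 := min_le_left _ _

theorem fm_add {s : ℝ} (hs : 0 ≤ s) (i j : ℕ) : fm s (i + j) ≤ fm s i + fm s j := by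
  unfold fm
  have hi : 0 ≤ s * i := mul_nonneg hs (Nat.cast_nonneg _)
  have hj : 0 ≤ s * j := mul_nonneg hs (Nat.cast_nonneg _)
  have e : s * ((i + j : ℕ) : ℝ) = s * i + s * j := by push_cast; ring
  rw [e]
  rcases le_total (s * i) 1 with h1 | h1
  · rcases le_total (s * j) 1 with h2 | h2
    · rw [min_eq_right h1, min_eq_right h2]
      exact min_le_right _ _
    · rw [min_eq_left h2]
      have := min_le_left (1 : ℝ) (s * i + s * j)
      have : 0 ≤ min 1 (s * i) := le_min zero_le_one hi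
      linarith
  · rw [min_eq_left h1]
    have := min_le_left (1 : ℝ) (s * i + s * j)
    have : 0 ≤ min 1 (s * j) := le_min zero_le_one hj
    linarith

theorem fw_add {s : ℝ} (hs : 0 ≤ s) (i j : ℕ) :
    fw s (i + j) ≤ fw s i + fw s j + 2 * (fm s i * fm s j) := by
  have hf : 0 ≤ fm s i * fm s j := mul_nonneg (fm_nonneg hs i) (fm_nonneg hs j)
  have hi : 0 ≤ s * i := mul_nonneg hs (Nat.cast_nonneg _)
  have hj : 0 ≤ s * j := mul_nonneg hs (Nat.cast_nonneg _)
  have hfi := fw_nonneg s i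
  have hfj := fw_nonneg s j
  have hle := fw_le_one s (i + j)
  rcases le_total (s * i) 1 with h1 | h1
  · rcases le_total (s * j) 1 with h2 | h2
    · have e1 : fw s i = (s * i) ^ 2 := min_eq_right (pow_le_one₀ hi h1)
      have e2 : fw s j = (s * j) ^ 2 := min_eq_right (pow_le_one₀ hj h2)
      have e3 : fm s i = s * i := min_eq_right h1
      have e4 : fm s j = s * j := min_eq_right h2
      rw [e1, e2, e3, e4]
      refine (min_le_right _ _).trans (le_of_eq ?_)
      push_cast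
      ring
    · have e2 : fw s j = 1 := min_eq_left (one_le_pow₀ h2)
      linarith
  · have e2 : fw s i = 1 := min_eq_left (one_le_pow₀ h1)
    linarith

theorem fm_div {s : ℝ} (hs : 0 ≤ s) (i j : ℕ) :
    (j : ℝ) * fm s (i + j) ≤ ((i + j : ℕ) : ℝ) * fm s j := by
  have hj0 : (0 : ℝ) ≤ j := Nat.cast_nonneg _
  have hi0 : (0 : ℝ) ≤ i := Nat.cast_nonneg _
  push_cast
  rcases le_total (s * j) 1 with h | h
  · have e : fm s j = s * j := min_eq_right h
    rw [e]
    have h2 : fm s (i + j) ≤ s * ((i + j : ℕ) : ℝ) := min_le_right _ _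
    refine (mul_le_mul_of_nonneg_left h2 hj0).trans (le_of_eq ?_)
    push_cast
    ring
  · have e : fm s j = 1 := min_eq_left h
    rw [e]
    have h2 := fm_le_one s (i + j)
    nlinarith

theorem fw_div {s : ℝ} (hs : 0 ≤ s) (i j : ℕ) :
    (j : ℝ) * fw s (i + j) ≤ ((i + j : ℕ) : ℝ) * (fw s j + fm s i * fm s j) := by
  have hj0 : (0 : ℝ) ≤ j := Nat.cast_nonneg _
  have hi0 : (0 : ℝ) ≤ i := Nat.cast_nonneg _
  have hsj : 0 ≤ s * j := mul_nonneg hs hj0
  have hsi : 0 ≤ s * i := mul_nonneg hs hi0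
  have hf : 0 ≤ fm s i * fm s j := mul_nonneg (fm_nonneg hs i) (fm_nonneg hs j)
  have hle := fw_le_one s (i + j)
  have h0 := fw_nonneg s (i + j)
  push_cast
  rcases le_total (s * j) 1 with h | h
  · have e1 : fw s j = (s * j) ^ 2 := min_eq_right (pow_le_one₀ hsj h)
    have e2 : fm s j = s * j := min_eq_right h
    rcases le_total (s * i) 1 with h' | h'
    · have e3 : fm s i = s * i := min_eq_right h'
      rw [e1, e2, e3]
      have h2 : fw s (i + j) ≤ (s * ((i + j : ℕ) : ℝ)) ^ 2 := min_le_right _ _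
      refine (mul_le_mul_of_nonneg_left h2 hj0).trans (le_of_eq ?_)
      push_cast
      ring
    · have e3 : fm s i = 1 := min_eq_left h'
      rw [e1, e2, e3]
      have h3 : (j : ℝ) ≤ j * (s * i) := le_mul_of_one_le_right hj0 h'
      have h4 : 0 ≤ ((i : ℝ) + j) * (s * j) ^ 2 := by positivity
      have h5 : 0 ≤ (j : ℝ) * (s * j) := by positivity
      nlinarith
  · have e1 : fw s j = 1 := min_eq_left (one_le_pow₀ h)
    rw [e1]
    nlinarith

section
variable {f g r d : ℕ → ℝ} {s : ℝ}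

private theorem Fun_cv {p q : ℕ → ℝ} (hp : ∀ k, 0 ≤ p k) (hq : ∀ k, 0 ≤ q k) (sp : Summable p) (sq : Summable q) :
    Summable (cv p q) ∧ ∑' k, cv p q k = (∑' k, p k) * ∑' k, q k := by
  have hp' : Summable fun n => ‖p n‖ := by
    simpa [Real.norm_of_nonneg (hp _)] using sp
  have hq' : Summable fun n => ‖q n‖ := by
    simpa [Real.norm_of_nonneg (hq _)] using sq
  exact ⟨(summable_norm_sum_mul_antidiagonal_of_summable_norm hp' hq').of_norm,
    (tsum_mul_tsum_eq_tsum_sum_antidiagonal_of_summable_norm hp' hq').symm⟩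

private theorem Fun_mul {p φ : ℕ → ℝ} (hp : ∀ k, 0 ≤ p k) (sp : Summable p) (h0 : ∀ k, 0 ≤ φ k) (h1 : ∀ k, φ k ≤ 1) :
    Summable (fun k => p k * φ k) :=
  Summable.of_nonneg_of_le (fun k => mul_nonneg (hp k) (h0 k))
    (fun k => mul_le_of_le_one_right (hp k) (h1 k)) sp

theorem ex_cv_fm (hs : 0 ≤ s) (hf : ∀ k, 0 ≤ f k) (hg : ∀ k, 0 ≤ g k) (sf : Summable f)
    (sg : Summable g) :
    ex (cv f g) (fm s) ≤ (∑' k, g k) * ex f (fm s) + (∑' k, f k) * ex g (fm s) := by
  have m1 := Fun_mul hf sf (fm_nonneg hs) (fm_le_one s)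
  have m2 := Fun_mul hg sg (fm_nonneg hs) (fm_le_one s)
  obtain ⟨a1, a2⟩ := Fun_cv (fun k => mul_nonneg (hf k) (fm_nonneg hs k)) hg m1 sg
  obtain ⟨b1, b2⟩ := Fun_cv hf (fun k => mul_nonneg (hg k) (fm_nonneg hs k)) sf m2
  have hpt : ∀ k, cv f g k * fm s k ≤ cv (fun k => f k * fm s k) g k + cv f (fun k => g k * fm s k) k := by
    intro k
    unfold cv
    rw [sum_mul, ← sum_add_distrib]
    refine sum_le_sum fun ij hij => ?_
    have e : ij.1 + ij.2 = k := Finset.HasAntidiagonal.mem_antidiagonal.1 hij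
    have h1 := fm_add hs ij.1 ij.2
    rw [e] at h1
    have h2 := mul_le_mul_of_nonneg_left h1 (mul_nonneg (hf ij.1) (hg ij.2))
    refine h2.trans (le_of_eq ?_)
    ring
  have hsum : Summable fun k => cv (fun k => f k * fm s k) g k + cv f (fun k => g k * fm s k) k := a1.add b1
  have h3 : ∑' k, cv f g k * fm s k ≤
      ∑' k, (cv (fun k => f k * fm s k) g k + cv f (fun k => g k * fm s k) k) :=
    Summable.tsum_le_tsum hpt (Summable.of_nonneg_of_le
      (fun k => mul_nonneg (cv_nonneg hf hg k) (fm_nonneg hs k)) hpt hsum) hsum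
  rw [a1.tsum_add b1, a2, b2] at h3
  unfold ex
  linarith

theorem ex_cv_fw (hs : 0 ≤ s) (hf : ∀ k, 0 ≤ f k) (hg : ∀ k, 0 ≤ g k) (sf : Summable f)
    (sg : Summable g) :
    ex (cv f g) (fw s) ≤ (∑' k, g k) * ex f (fw s) + (∑' k, f k) * ex g (fw s) +
      2 * (ex f (fm s) * ex g (fm s)) := by
  have m1 := Fun_mul hf sf (fw_nonneg s) (fw_le_one s)
  have m2 := Fun_mul hg sg (fw_nonneg s) (fw_le_one s)
  have m3 := Fun_mul hf sf (fm_nonneg hs) (fm_le_one s)
  have m4 := Fun_mul hg sg (fm_nonneg hs) (fm_le_one s)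
  obtain ⟨a1, a2⟩ := Fun_cv (fun k => mul_nonneg (hf k) (fw_nonneg s k)) hg m1 sg
  obtain ⟨b1, b2⟩ := Fun_cv hf (fun k => mul_nonneg (hg k) (fw_nonneg s k)) sf m2
  obtain ⟨c1, c2⟩ := Fun_cv (fun k => mul_nonneg (hf k) (fm_nonneg hs k))
    (fun k => mul_nonneg (hg k) (fm_nonneg hs k)) m3 m4
  have hpt : ∀ k, cv f g k * fw s k ≤ cv (fun k => f k * fw s k) g k + cv f (fun k => g k * fw s k) k +
      2 * cv (fun k => f k * fm s k) (fun k => g k * fm s k) k := by
    intro k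
    unfold cv
    rw [sum_mul, mul_sum, ← sum_add_distrib, ← sum_add_distrib]
    refine sum_le_sum fun ij hij => ?_
    have e : ij.1 + ij.2 = k := Finset.HasAntidiagonal.mem_antidiagonal.1 hij
    have h1 := fw_add hs ij.1 ij.2
    rw [e] at h1
    have h2 := mul_le_mul_of_nonneg_left h1 (mul_nonneg (hf ij.1) (hg ij.2))
    refine h2.trans (le_of_eq ?_)
    ring
  have hsum : Summable fun k => cv (fun k => f k * fw s k) g k + cv f (fun k => g k * fw s k) k +
      2 * cv (fun k => f k * fm s k) (fun k => g k * fm s k) k := (a1.add b1).add (c1.mul_left 2)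
  have h3 : ∑' k, cv f g k * fw s k ≤
      ∑' k, (cv (fun k => f k * fw s k) g k + cv f (fun k => g k * fw s k) k +
      2 * cv (fun k => f k * fm s k) (fun k => g k * fm s k) k) :=
    Summable.tsum_le_tsum hpt (Summable.of_nonneg_of_le
      (fun k => mul_nonneg (cv_nonneg hf hg k) (fw_nonneg s k)) hpt hsum) hsum
  rw [(a1.add b1).tsum_add (c1.mul_left 2), a1.tsum_add b1, a2, b2, tsum_mul_left, c2] at h3
  unfold ex
  linarith

theorem ex_log_fm (hs : 0 ≤ s) (hf : ∀ k, 0 ≤ f k) (hg : ∀ k, 0 ≤ g k) (sf : Summable f)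
    (sg : Summable g) (h : ∀ k : ℕ, (k : ℝ) * f k ≤ cv (fun j => (j : ℝ) * g j) f k) :
    ex f (fm s) ≤ (∑' k, f k) * ex g (fm s) := by
  have m2 := Fun_mul hg sg (fm_nonneg hs) (fm_le_one s)
  obtain ⟨a1, a2⟩ := Fun_cv (fun k => mul_nonneg (hg k) (fm_nonneg hs k)) hf m2 sf
  have hpt : ∀ k, f k * fm s k ≤ cv (fun k => g k * fm s k) f k := by
    intro k
    rcases Nat.eq_zero_or_pos k with h0 | h0
    · subst h0
      have e : fm s 0 = 0 := by unfold fm; simp
      rw [e, mul_zero]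
      exact cv_nonneg (fun k => mul_nonneg (hg k) (fm_nonneg hs k)) hf 0
    · have hk : (0 : ℝ) < k := by exact_mod_cast h0
      have h1 := mul_le_mul_of_nonneg_right (h k) (fm_nonneg hs k)
      have h2 : cv (fun j => (j : ℝ) * g j) f k * fm s k ≤ k * cv (fun k => g k * fm s k) f k := by
        unfold cv
        rw [sum_mul, mul_sum]
        refine sum_le_sum fun ij hij => ?_
        have e : ij.2 + ij.1 = k := by rw [add_comm]; exact Finset.HasAntidiagonal.mem_antidiagonal.1 hij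
        have h3 := fm_div hs ij.2 ij.1
        rw [e] at h3
        have h4 := mul_le_mul_of_nonneg_left h3 (mul_nonneg (hg ij.1) (hf ij.2))
        calc (ij.1 : ℝ) * g ij.1 * f ij.2 * fm s k = g ij.1 * f ij.2 * (ij.1 * fm s k) := by ring
          _ ≤ g ij.1 * f ij.2 * (k * fm s ij.1) := h4
          _ = _ := by ring
      have h5 : (k : ℝ) * (f k * fm s k) ≤ k * cv (fun k => g k * fm s k) f k := by
        calc (k : ℝ) * (f k * fm s k) = k * f k * fm s k := by ring
          _ ≤ _ := h1.trans h2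
      exact le_of_mul_le_mul_left h5 hk
  have h3 : ∑' k, f k * fm s k ≤ ∑' k, cv (fun k => g k * fm s k) f k :=
    Summable.tsum_le_tsum hpt (Fun_mul hf sf (fm_nonneg hs) (fm_le_one s)) a1
  rw [a2] at h3
  unfold ex
  linarith

theorem ex_log_fw (hs : 0 ≤ s) (hf : ∀ k, 0 ≤ f k) (hg : ∀ k, 0 ≤ g k) (sf : Summable f)
    (sg : Summable g) (h : ∀ k : ℕ, (k : ℝ) * f k ≤ cv (fun j => (j : ℝ) * g j) f k) :
    ex f (fw s) ≤ (∑' k, f k) * ex g (fw s) + ex f (fm s) * ex g (fm s) := by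
  have m1 := Fun_mul hf sf (fm_nonneg hs) (fm_le_one s)
  have m2 := Fun_mul hg sg (fm_nonneg hs) (fm_le_one s)
  have m3 := Fun_mul hg sg (fw_nonneg s) (fw_le_one s)
  obtain ⟨a1, a2⟩ := Fun_cv (fun k => mul_nonneg (hg k) (fw_nonneg s k)) hf m3 sf
  obtain ⟨b1, b2⟩ := Fun_cv (fun k => mul_nonneg (hg k) (fm_nonneg hs k))
    (fun k => mul_nonneg (hf k) (fm_nonneg hs k)) m2 m1
  have hpt : ∀ k, f k * fw s k ≤ cv (fun k => g k * fw s k) f k +
      cv (fun k => g k * fm s k) (fun k => f k * fm s k) k := by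
    intro k
    rcases Nat.eq_zero_or_pos k with h0 | h0
    · subst h0
      have e : fw s 0 = 0 := by unfold fw; simp
      rw [e, mul_zero]
      exact add_nonneg (cv_nonneg (fun k => mul_nonneg (hg k) (fw_nonneg s k)) hf 0)
        (cv_nonneg (fun k => mul_nonneg (hg k) (fm_nonneg hs k)) (fun k => mul_nonneg (hf k) (fm_nonneg hs k)) 0)
    · have hk : (0 : ℝ) < k := by exact_mod_cast h0
      have h1 := mul_le_mul_of_nonneg_right (h k) (fw_nonneg s k)
      have h2 : cv (fun j => (j : ℝ) * g j) f k * fw s k ≤ k * (cv (fun k => g k * fw s k) f k +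
          cv (fun k => g k * fm s k) (fun k => f k * fm s k) k) := by
        unfold cv
        rw [sum_mul, ← sum_add_distrib, mul_sum]
        refine sum_le_sum fun ij hij => ?_
        have e : ij.2 + ij.1 = k := by rw [add_comm]; exact Finset.HasAntidiagonal.mem_antidiagonal.1 hij
        have h3 := fw_div hs ij.2 ij.1
        rw [e] at h3
        have h4 := mul_le_mul_of_nonneg_left h3 (mul_nonneg (hg ij.1) (hf ij.2))
        calc (ij.1 : ℝ) * g ij.1 * f ij.2 * fw s k = g ij.1 * f ij.2 * (ij.1 * fw s k) := by ring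
          _ ≤ g ij.1 * f ij.2 * (k * (fw s ij.1 + fm s ij.2 * fm s ij.1)) := h4
          _ = _ := by ring
      have h5 : (k : ℝ) * (f k * fw s k) ≤ k * (cv (fun k => g k * fw s k) f k +
          cv (fun k => g k * fm s k) (fun k => f k * fm s k) k) := by
        calc (k : ℝ) * (f k * fw s k) = k * f k * fw s k := by ring
          _ ≤ _ := h1.trans h2
      exact le_of_mul_le_mul_left h5 hk
  have h3 : ∑' k, f k * fw s k ≤ ∑' k, (cv (fun k => g k * fw s k) f k +
      cv (fun k => g k * fm s k) (fun k => f k * fm s k) k) :=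
    Summable.tsum_le_tsum hpt (Fun_mul hf sf (fw_nonneg s) (fw_le_one s)) (a1.add b1)
  rw [a1.tsum_add b1, a2, b2] at h3
  unfold ex
  linarith

end

end Dia
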