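import Pool.Agent.DiaA.Fun

/-!
# Module FunB: the functionals for lists

`summable_cvL`: induction; `hasSum_cv` (DiamP/Basic) with `f = 1`.
`tsum_cvL_rd`: special case.  `ex_rd_fm`, `ex_rd_fw`: induction on `e` and `v` with `ex_cv_fm`, `ex_cv_fw` (module Fun);
the cross terms: adding one factor `f` (`f = r` or `d`, with total `F`) to a list with product `Π` and `m` members:
`2 ex f fm * ex (cvL l) fm ≤ 2 (u F) (m u Π) ≤ F Π u^2 ((m+1)^2 - m^2)`; here `ex (cvL l) fm ≤ m u Π` (from `ex_rd_fm`).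
-/

set_option linter.unusedSectionVars false

namespace Dia
open Finset Pool.Agent.DiamP

section
variable {f g r d : ℕ → ℝ} {s : ℝ}

private theorem FunB_cv (hf : ∀ k, 0 ≤ f k) (hg : ∀ k, 0 ≤ g k) (sf : Summable f)
    (sg : Summable g) : Summable (cv f g) ∧ ∑' k, cv f g k = (∑' k, f k) * ∑' k, g k := by
  have hf' : Summable fun n => ‖f n‖ := by simpa [Real.norm_of_nonneg (hf _)] using sf
  have hg' : Summable fun n => ‖g n‖ := by simpa [Real.norm_of_nonneg (hg _)] using sg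
  exact ⟨(summable_norm_sum_mul_antidiagonal_of_summable_norm hf' hg').of_norm,
    (tsum_mul_tsum_eq_tsum_sum_antidiagonal_of_summable_norm hf' hg').symm⟩

private theorem FunB_nn {l : List (ℕ → ℝ)} (hl : ∀ f ∈ l, ∀ k, 0 ≤ f k) (k : ℕ) :
    0 ≤ cvL l k := by
  induction l generalizing k with
  | nil =>
    rw [cvL_nil]
    unfold one0
    split_ifs <;> norm_num
  | cons f l ih =>
    rw [cvL_cons]
    exact cv_nonneg (hl f (by simp)) (fun n => ih (fun g hg => hl g (by simp [hg])) n) k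

private theorem FunB_one0 : Summable one0 ∧ ∑' k, one0 k = 1 := by
  have h : HasSum one0 (1 : ℝ) := by
    have h1 := hasSum_ite_eq (α := ℝ) (0 : ℕ) (1 : ℝ)
    exact h1
  exact ⟨h.summable, h.tsum_eq⟩

theorem summable_cvL {l : List (ℕ → ℝ)} (hl : ∀ f ∈ l, (∀ k, 0 ≤ f k) ∧ Summable f) :
    Summable (cvL l) ∧ ∑' k, cvL l k = (l.map fun f => ∑' k, f k).prod := by
  induction l with
  | nil =>
    rw [cvL_nil, List.map_nil, List.prod_nil]
    exact FunB_one0
  | cons f l ih =>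
    have h1 := ih fun g hg => hl g (by simp [hg])
    have h2 := hl f (by simp)
    have h3 := FunB_cv h2.1 (FunB_nn fun g hg => (hl g (by simp [hg])).1) h2.2 h1.1
    rw [cvL_cons, List.map_cons, List.prod_cons, ← h1.2]
    exact h3

private theorem FunB_mem (hr : ∀ k, 0 ≤ r k) (hd : ∀ k, 0 ≤ d k) (sr : Summable r)
    (sd : Summable d) (v e : ℕ) : ∀ f ∈ List.replicate v r ++ List.replicate e d,
      (∀ k, 0 ≤ f k) ∧ Summable f := by
  intro f hf
  rw [List.mem_append, List.mem_replicate, List.mem_replicate] at hf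
  rcases hf with hf | hf
  · rw [hf.2]
    exact ⟨hr, sr⟩
  · rw [hf.2]
    exact ⟨hd, sd⟩

theorem tsum_cvL_rd (hr : ∀ k, 0 ≤ r k) (hd : ∀ k, 0 ≤ d k) (sr : Summable r) (sd : Summable d)
    (v e : ℕ) : ∑' k, cvL (List.replicate v r ++ List.replicate e d) k =
      (∑' k, r k) ^ v * (∑' k, d k) ^ e := by
  rw [(summable_cvL (FunB_mem hr hd sr sd v e)).2, List.map_append, List.map_replicate,
    List.map_replicate, List.prod_append, List.prod_replicate, List.prod_replicate]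

private theorem FunB_L_nn (hr : ∀ k, 0 ≤ r k) (hd : ∀ k, 0 ≤ d k) (sr : Summable r)
    (sd : Summable d) (v e : ℕ) (k : ℕ) :
    0 ≤ cvL (List.replicate v r ++ List.replicate e d) k :=
  FunB_nn (fun f hf => (FunB_mem hr hd sr sd v e f hf).1) k

private theorem FunB_ex_one0 (φ : ℕ → ℝ) : ex one0 φ = φ 0 := by
  unfold ex
  rw [tsum_eq_single 0]
  · unfold one0
    simp
  · intro n hn
    unfold one0
    simp [hn]

private theorem FunB_pow (a : ℝ) (n : ℕ) : (n : ℝ) * (a ^ (n - 1) * a) = n * a ^ n := by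
  cases n with
  | zero => simp
  | succ n => rw [Nat.add_sub_cancel, ← pow_succ]

theorem ex_rd_fm (hs : 0 ≤ s) (hr : ∀ k, 0 ≤ r k) (hd : ∀ k, 0 ≤ d k) (sr : Summable r)
    (sd : Summable d) (v e : ℕ) :
    ex (cvL (List.replicate v r ++ List.replicate e d)) (fm s) ≤
      v * (∑' k, r k) ^ (v - 1) * (∑' k, d k) ^ e * ex r (fm s) +
        e * (∑' k, r k) ^ v * (∑' k, d k) ^ (e - 1) * ex d (fm s) := by
  have hR : 0 ≤ ∑' k, r k := tsum_nonneg hr
  have hD : 0 ≤ ∑' k, d k := tsum_nonneg hd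
  induction v with
  | zero =>
    induction e with
    | zero =>
      simp only [List.replicate_zero, List.append_nil, cvL_nil, FunB_ex_one0]
      unfold fm
      simp
    | succ e ih =>
      have h1 := ex_cv_fm hs hd (FunB_L_nn hr hd sr sd 0 e) sd
        (summable_cvL (FunB_mem hr hd sr sd 0 e)).1
      rw [tsum_cvL_rd hr hd sr sd 0 e] at h1
      simp only [List.replicate_zero, List.nil_append, pow_zero, one_mul, mul_one, Nat.cast_zero,
        zero_mul, zero_add] at ih h1 ⊢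
      rw [List.replicate_succ, cvL_cons, Nat.add_sub_cancel]
      refine h1.trans ?_
      have h2 := mul_le_mul_of_nonneg_left ih hD
      have h3 := FunB_pow (∑' k, d k) e
      have h4 : (∑' k, d k) * ((e : ℝ) * (∑' k, d k) ^ (e - 1) * ex d (fm s)) =
          (e : ℝ) * (∑' k, d k) ^ e * ex d (fm s) := by
        rw [← h3]
        ring
      rw [h4] at h2
      push_cast
      nlinarith
  | succ v ih =>
    have h1 := ex_cv_fm hs hr (FunB_L_nn hr hd sr sd v e) sr
      (summable_cvL (FunB_mem hr hd sr sd v e)).1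
    rw [tsum_cvL_rd hr hd sr sd v e] at h1
    rw [List.replicate_succ, List.cons_append, cvL_cons, Nat.add_sub_cancel]
    refine h1.trans ?_
    have h2 := mul_le_mul_of_nonneg_left ih hR
    have h3 := FunB_pow (∑' k, r k) v
    have h4 : (∑' k, r k) * ((v : ℝ) * (∑' k, r k) ^ (v - 1) * (∑' k, d k) ^ e * ex r (fm s) +
        (e : ℝ) * (∑' k, r k) ^ v * (∑' k, d k) ^ (e - 1) * ex d (fm s)) =
        (v : ℝ) * (∑' k, r k) ^ v * (∑' k, d k) ^ e * ex r (fm s) +
        (e : ℝ) * (∑' k, r k) ^ (v + 1) * (∑' k, d k) ^ (e - 1) * ex d (fm s) := by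
      rw [← h3]
      ring
    rw [h4] at h2
    push_cast
    nlinarith

theorem ex_rd_fw (hs : 0 ≤ s) (hr : ∀ k, 0 ≤ r k) (hd : ∀ k, 0 ≤ d k) (sr : Summable r)
    (sd : Summable d) {u : ℝ} (hu : 0 ≤ u) (hur : ex r (fm s) ≤ u * ∑' k, r k)
    (hud : ex d (fm s) ≤ u * ∑' k, d k) (v e : ℕ) :
    ex (cvL (List.replicate v r ++ List.replicate e d)) (fw s) ≤
      v * (∑' k, r k) ^ (v - 1) * (∑' k, d k) ^ e * ex r (fw s) +
        e * (∑' k, r k) ^ v * (∑' k, d k) ^ (e - 1) * ex d (fw s) +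
        ((v : ℝ) + e) ^ 2 * u ^ 2 * ((∑' k, r k) ^ v * (∑' k, d k) ^ e) := by
  have hR : 0 ≤ ∑' k, r k := tsum_nonneg hr
  have hD : 0 ≤ ∑' k, d k := tsum_nonneg hd
  have hfm : ∀ v e : ℕ, ex (cvL (List.replicate v r ++ List.replicate e d)) (fm s) ≤
      ((v : ℝ) + e) * u * ((∑' k, r k) ^ v * (∑' k, d k) ^ e) := by
    intro v e
    refine (ex_rd_fm hs hr hd sr sd v e).trans ?_
    have h1 : (v : ℝ) * (∑' k, r k) ^ (v - 1) * (∑' k, d k) ^ e * ex r (fm s) ≤
        v * (∑' k, r k) ^ (v - 1) * (∑' k, d k) ^ e * (u * ∑' k, r k) :=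
      mul_le_mul_of_nonneg_left hur (by positivity)
    have h2 : (e : ℝ) * (∑' k, r k) ^ v * (∑' k, d k) ^ (e - 1) * ex d (fm s) ≤
        e * (∑' k, r k) ^ v * (∑' k, d k) ^ (e - 1) * (u * ∑' k, d k) :=
      mul_le_mul_of_nonneg_left hud (by positivity)
    refine (add_le_add h1 h2).trans (le_of_eq ?_)
    have h3 := FunB_pow (∑' k, r k) v
    have h4 := FunB_pow (∑' k, d k) e
    linear_combination (u * (∑' k, d k) ^ e) * h3 + (u * (∑' k, r k) ^ v) * h4
  have hfr : 0 ≤ ex r (fm s) := tsum_nonneg fun k => mul_nonneg (hr k) (fm_nonneg hs k)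
  have hfd : 0 ≤ ex d (fm s) := tsum_nonneg fun k => mul_nonneg (hd k) (fm_nonneg hs k)
  have hL : ∀ v e : ℕ, 0 ≤ ex (cvL (List.replicate v r ++ List.replicate e d)) (fm s) :=
    fun v e => tsum_nonneg fun k => mul_nonneg (FunB_L_nn hr hd sr sd v e k) (fm_nonneg hs k)
  induction v with
  | zero =>
    induction e with
    | zero =>
      simp only [List.replicate_zero, List.append_nil, cvL_nil, FunB_ex_one0]
      unfold fw
      simp
    | succ e ih =>
      have h1 := ex_cv_fw hs hd (FunB_L_nn hr hd sr sd 0 e) sd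
        (summable_cvL (FunB_mem hr hd sr sd 0 e)).1
      rw [tsum_cvL_rd hr hd sr sd 0 e] at h1
      have h5 : ex d (fm s) * ex (cvL (List.replicate 0 r ++ List.replicate e d)) (fm s) ≤
          (u * ∑' k, d k) * (((0 : ℕ) + (e : ℝ)) * u * ((∑' k, r k) ^ 0 * (∑' k, d k) ^ e)) :=
        mul_le_mul hud (hfm 0 e) (hL 0 e) (by positivity)
      simp only [List.replicate_zero, List.nil_append, pow_zero, one_mul, mul_one, Nat.cast_zero,
        zero_mul, zero_add] at ih h1 h5 ⊢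
      rw [List.replicate_succ, cvL_cons, Nat.add_sub_cancel]
      refine h1.trans ?_
      have h2 := mul_le_mul_of_nonneg_left ih hD
      have h3 := FunB_pow (∑' k, d k) e
      have h4 : (∑' k, d k) * ((e : ℝ) * (∑' k, d k) ^ (e - 1) * ex d (fw s) +
          (e : ℝ) ^ 2 * u ^ 2 * (∑' k, d k) ^ e) =
          (e : ℝ) * (∑' k, d k) ^ e * ex d (fw s) +
          (e : ℝ) ^ 2 * u ^ 2 * (∑' k, d k) ^ (e + 1) := by
        linear_combination (ex d (fw s)) * h3
      rw [h4] at h2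
      have h6 : (u * ∑' k, d k) * ((e : ℝ) * u * (∑' k, d k) ^ e) =
          (e : ℝ) * u ^ 2 * (∑' k, d k) ^ (e + 1) := by ring
      rw [h6] at h5
      have h7 : 0 ≤ u ^ 2 * (∑' k, d k) ^ (e + 1) := by positivity
      push_cast
      nlinarith
  | succ v ih =>
    have h1 := ex_cv_fw hs hr (FunB_L_nn hr hd sr sd v e) sr
      (summable_cvL (FunB_mem hr hd sr sd v e)).1
    rw [tsum_cvL_rd hr hd sr sd v e] at h1
    have h5 : ex r (fm s) * ex (cvL (List.replicate v r ++ List.replicate e d)) (fm s) ≤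
        (u * ∑' k, r k) * (((v : ℝ) + e) * u * ((∑' k, r k) ^ v * (∑' k, d k) ^ e)) :=
      mul_le_mul hur (hfm v e) (hL v e) (by positivity)
    rw [List.replicate_succ, List.cons_append, cvL_cons, Nat.add_sub_cancel]
    refine h1.trans ?_
    have h2 := mul_le_mul_of_nonneg_left ih hR
    have h3 := FunB_pow (∑' k, r k) v
    have h4 : (∑' k, r k) * ((v : ℝ) * (∑' k, r k) ^ (v - 1) * (∑' k, d k) ^ e * ex r (fw s) +
        (e : ℝ) * (∑' k, r k) ^ v * (∑' k, d k) ^ (e - 1) * ex d (fw s) +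
        ((v : ℝ) + e) ^ 2 * u ^ 2 * ((∑' k, r k) ^ v * (∑' k, d k) ^ e)) =
        (v : ℝ) * (∑' k, r k) ^ v * (∑' k, d k) ^ e * ex r (fw s) +
        (e : ℝ) * (∑' k, r k) ^ (v + 1) * (∑' k, d k) ^ (e - 1) * ex d (fw s) +
        ((v : ℝ) + e) ^ 2 * u ^ 2 * ((∑' k, r k) ^ (v + 1) * (∑' k, d k) ^ e) := by
      linear_combination ((∑' k, d k) ^ e * ex r (fw s)) * h3
    rw [h4] at h2
    have h6 : (u * ∑' k, r k) * (((v : ℝ) + e) * u * ((∑' k, r k) ^ v * (∑' k, d k) ^ e)) =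
        ((v : ℝ) + e) * u ^ 2 * ((∑' k, r k) ^ (v + 1) * (∑' k, d k) ^ e) := by ring
    rw [h6] at h5
    have h7 : 0 ≤ u ^ 2 * ((∑' k, r k) ^ (v + 1) * (∑' k, d k) ^ e) := by positivity
    push_cast
    nlinarith

end

end Dia
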