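import Pool.Agent.DiaA.Defs

/-!
# Module Log: truncated logarithmic derivatives

`logder`: let `F t = ∑_{k ≤ n} f_k t^k`, `G t = ∑_{k ≤ n} g_k t^k`.  For `t ≥ 0`:
`t F'(t) = ∑_{k ≤ n} k f_k t^k ≤ ∑_{k ≤ n} ∑_{i + j = k} j g_j f_i t^(i+j) ≤ (∑_{j ≤ n} j g_j t^j) (∑_{i ≤ n} f_i t^i) = t G'(t) F(t)`.
So `F' ≤ G' F` for `t > 0`, `F(t) exp (- G t)` is antitone on `[0, ∞)` (`antitoneOn_of_deriv_nonpos`), and
`F z ≤ F y exp (G z - G y)`.
`logder_inc`: `y := 1`, `z := y`: `T - S ≤ S (exp (inc) - 1)`.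
`logder_zero`: `y := 0`, `z := 1`: `F 0 = f 0`, `G 1 - G 0 = ∑_{1 ≤ k ≤ n} g_k`.
-/

set_option linter.unusedSectionVars false

namespace Dia
open Finset Pool.Agent.DiamP

/-- weighted sums of a convolution as sums over pairs -/
private theorem Log_sum_cv (p q w : ℕ → ℝ) (n : ℕ) :
    ∑ k ∈ range (n + 1), cv p q k * w k =
      ∑ ij ∈ (range (n + 1) ×ˢ range (n + 1)).filter (fun ij => ij.1 + ij.2 ≤ n),
        p ij.1 * q ij.2 * w (ij.1 + ij.2) := by
  rw [← sum_fiberwise_of_maps_to (t := range (n + 1)) (g := fun ij : ℕ × ℕ => ij.1 + ij.2)]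
  · refine sum_congr rfl fun k hk => ?_
    rw [mem_range] at hk
    unfold cv
    rw [sum_mul]
    refine sum_congr ?_ ?_
    · ext ij
      rw [mem_filter, mem_filter, mem_product, mem_range, mem_range, HasAntidiagonal.mem_antidiagonal]
      omega
    · intro ij hij
      rw [mem_filter] at hij
      rw [hij.2]
  · intro ij hij
    rw [mem_filter] at hij
    rw [mem_range]
    omega

private theorem Log_sum_cv_le {p q : ℕ → ℝ} (hp : ∀ k, 0 ≤ p k) (hq : ∀ k, 0 ≤ q k) {t : ℝ} (ht : 0 ≤ t)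
    (n : ℕ) : ∑ k ∈ range (n + 1), cv p q k * t ^ k ≤
      (∑ k ∈ range (n + 1), p k * t ^ k) * ∑ k ∈ range (n + 1), q k * t ^ k := by
  rw [Log_sum_cv p q (fun k => t ^ k), sum_mul_sum, ← sum_product']
  refine (sum_le_sum_of_subset_of_nonneg (filter_subset _ _) fun ij _ _ => ?_).trans (le_of_eq ?_)
  · exact mul_nonneg (mul_nonneg (hp _) (hq _)) (pow_nonneg ht _)
  · refine sum_congr rfl fun ij _ => ?_
    rw [pow_add]
    ring

private theorem Log_deriv (f : ℕ → ℝ) (n : ℕ) (t : ℝ) :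
    HasDerivAt (fun t : ℝ => ∑ k ∈ range (n + 1), f k * t ^ k)
      (∑ k ∈ range (n + 1), f k * ((k : ℝ) * t ^ (k - 1))) t := by
  refine HasDerivAt.fun_sum fun k _ => ?_
  exact (hasDerivAt_pow k t).const_mul (f k)

theorem logder {f g : ℕ → ℝ} (hf : ∀ k, 0 ≤ f k) (hg : ∀ k, 0 ≤ g k)
    (h : ∀ k : ℕ, (k : ℝ) * f k ≤ cv (fun j => (j : ℝ) * g j) f k) (n : ℕ) {y z : ℝ}
    (hy : 0 ≤ y) (hyz : y ≤ z) :
    ∑ k ∈ range (n + 1), f k * z ^ k ≤ (∑ k ∈ range (n + 1), f k * y ^ k) *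
      Real.exp (∑ k ∈ range (n + 1), g k * (z ^ k - y ^ k)) := by
  set F : ℝ → ℝ := fun t => ∑ k ∈ range (n + 1), f k * t ^ k with hF
  set G : ℝ → ℝ := fun t => ∑ k ∈ range (n + 1), g k * t ^ k with hG
  have hFd := Log_deriv f n
  have hGd := Log_deriv g n
  have hHd : ∀ t, HasDerivAt (fun t => F t * Real.exp (-G t))
      ((∑ k ∈ range (n + 1), f k * ((k : ℝ) * t ^ (k - 1))) * Real.exp (-G t) +
        F t * (Real.exp (-G t) * -(∑ k ∈ range (n + 1), g k * ((k : ℝ) * t ^ (k - 1))))) t := by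
    intro t
    exact (hFd t).mul ((hGd t).neg.exp)
  have hcont : ContinuousOn (fun t => F t * Real.exp (-G t)) (Set.Ici 0) := fun t _ =>
    (hHd t).continuousAt.continuousWithinAt
  have hdiff : DifferentiableOn ℝ (fun t => F t * Real.exp (-G t)) (interior (Set.Ici 0)) :=
    fun t _ => (hHd t).differentiableAt.differentiableWithinAt
  have hneg : ∀ t ∈ interior (Set.Ici (0 : ℝ)), deriv (fun t => F t * Real.exp (-G t)) t ≤ 0 := by
    intro t ht
    rw [interior_Ici] at ht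
    have ht0 : 0 < t := ht
    rw [(hHd t).deriv]
    have e1 : ∀ a : ℕ → ℝ, t * (∑ k ∈ range (n + 1), a k * ((k : ℝ) * t ^ (k - 1))) =
        ∑ k ∈ range (n + 1), ((k : ℝ) * a k) * t ^ k := by
      intro a
      rw [mul_sum]
      refine sum_congr rfl fun k _ => ?_
      rcases k with _ | k
      · simp
      · rw [Nat.add_sub_cancel, pow_succ]
        ring
    have h1 : t * (∑ k ∈ range (n + 1), f k * ((k : ℝ) * t ^ (k - 1))) ≤
        t * (∑ k ∈ range (n + 1), g k * ((k : ℝ) * t ^ (k - 1))) * F t := by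
      rw [e1, e1]
      refine le_trans (sum_le_sum fun k _ => mul_le_mul_of_nonneg_right (h k) (pow_nonneg ht0.le _)) ?_
      exact Log_sum_cv_le (fun k => mul_nonneg (Nat.cast_nonneg _) (hg k)) hf ht0.le n
    have h2 : (∑ k ∈ range (n + 1), f k * ((k : ℝ) * t ^ (k - 1))) ≤
        (∑ k ∈ range (n + 1), g k * ((k : ℝ) * t ^ (k - 1))) * F t := by
      rw [mul_assoc] at h1
      exact le_of_mul_le_mul_left h1 ht0
    have h3 := Real.exp_pos (-G t)
    have h4 := mul_le_mul_of_nonneg_right h2 h3.le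
    linarith
  have hanti := antitoneOn_of_deriv_nonpos (convex_Ici 0) hcont hdiff hneg
  have h5 : F z * Real.exp (-G z) ≤ F y * Real.exp (-G y) :=
    hanti (show y ∈ Set.Ici (0 : ℝ) from hy) (show z ∈ Set.Ici (0 : ℝ) from hy.trans hyz) hyz
  have h6 : ∑ k ∈ range (n + 1), g k * (z ^ k - y ^ k) = G z - G y := by
    simp only [hG, mul_sub, sum_sub_distrib]
  rw [h6]
  have h7 := mul_le_mul_of_nonneg_right h5 (Real.exp_pos (G z)).le
  have h8 : F z * Real.exp (-G z) * Real.exp (G z) = F z := by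
    rw [mul_assoc, ← Real.exp_add, neg_add_cancel, Real.exp_zero, mul_one]
  have h9 : F y * Real.exp (-G y) * Real.exp (G z) = F y * Real.exp (G z - G y) := by
    rw [mul_assoc, ← Real.exp_add]
    congr 2
    ring
  rw [h8, h9] at h7
  exact h7

theorem logder_inc {f g : ℕ → ℝ} (hf : ∀ k, 0 ≤ f k) (hg : ∀ k, 0 ≤ g k)
    (h : ∀ k : ℕ, (k : ℝ) * f k ≤ cv (fun j => (j : ℝ) * g j) f k) (n : ℕ) {y : ℝ} (hy : 1 ≤ y) :
    inc y f n ≤ ts f n * (Real.exp (inc y g n) - 1) := by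
  have h1 := logder hf hg h n (y := 1) (z := y) (by norm_num) hy
  simp only [one_pow, mul_one] at h1
  have h2 : inc y f n = ∑ k ∈ range (n + 1), f k * y ^ k - ts f n := by
    simp only [inc, ts, mul_sub, sum_sub_distrib, mul_one]
  rw [h2]
  have h3 : ts f n = ∑ k ∈ range (n + 1), f k := rfl
  have h4 : inc y g n = ∑ k ∈ range (n + 1), g k * (y ^ k - 1) := rfl
  rw [← h3, ← h4] at h1
  linarith

theorem logder_zero {f g : ℕ → ℝ} (hf : ∀ k, 0 ≤ f k) (hg : ∀ k, 0 ≤ g k)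
    (h : ∀ k : ℕ, (k : ℝ) * f k ≤ cv (fun j => (j : ℝ) * g j) f k) (n : ℕ) :
    ts f n ≤ f 0 * Real.exp (∑ k ∈ range n, g (k + 1)) := by
  have h1 := logder hf hg h n (y := 0) (z := 1) le_rfl (by norm_num)
  simp only [one_pow, mul_one] at h1
  have h2 : ∑ k ∈ range (n + 1), f k * (0 : ℝ) ^ k = f 0 := by
    rw [sum_range_succ']
    simp
  have h3 : ∑ k ∈ range (n + 1), g k * (1 - (0 : ℝ) ^ k) = ∑ k ∈ range n, g (k + 1) := by
    rw [sum_range_succ']
    simp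
  rw [h2, h3] at h1
  exact h1

end Dia
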