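import Pool.Agent.DiaA.Small

/-!
# Weights of rigid maps in a window, with a typical number of vertices
-/

set_option linter.unusedSectionVars false

namespace Dia
open Finset PGr Pool.Agent.DiamP
open scoped ENNReal

theorem exp_smallA : ∃ j1 : ℕ, ∀ j : ℕ, j1 ≤ j →
    Real.exp (-(j : ℝ) ^ (1 / 10 : ℝ)) ≤ 1 / (j : ℝ) ^ 3 := by
  have h1 := Real.tendsto_pow_mul_exp_neg_atTop_nhds_zero 30
  have h2 : Filter.Tendsto (fun j : ℕ => (j : ℝ) ^ (1 / 10 : ℝ)) Filter.atTop Filter.atTop :=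
    (tendsto_rpow_atTop (by norm_num)).comp tendsto_natCast_atTop_atTop
  have h3 := (h1.comp h2).eventually (ge_mem_nhds one_pos)
  obtain ⟨j1, hj1⟩ := Filter.eventually_atTop.1 (h3.and (Filter.eventually_ge_atTop 1))
  refine ⟨j1, fun j hj => ?_⟩
  obtain ⟨h4, h5⟩ := hj1 j hj
  have hj0 : (0 : ℝ) < j := by exact_mod_cast h5
  simp only [Function.comp] at h4
  have h6 : ((j : ℝ) ^ (1 / 10 : ℝ)) ^ 30 = (j : ℝ) ^ 3 := by
    rw [← Real.rpow_natCast, ← Real.rpow_mul hj0.le, ← Real.rpow_natCast]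
    norm_num
  rw [h6] at h4
  rw [le_div_iff₀ (by positivity), mul_comm]
  exact h4

theorem half_sq {x : ℝ} (hx : 0 < x) : x ^ (1 / 2 : ℝ) * (1 / x ^ 2) = x ^ (-(3 / 2) : ℝ) := by
  have h : (1 : ℝ) / x ^ 2 = x ^ (-2 : ℝ) := by
    rw [Real.rpow_neg hx.le, one_div]
    congr 1
    exact_mod_cast (Real.rpow_natCast x 2).symm
  rw [h, ← Real.rpow_add hx]
  norm_num

theorem near_ge {j : ℕ} (hfar : ∑ v ∈ (range (j + 1)).filter (fun v : ℕ => (j : ℝ) ^ (3 / 5 : ℝ) ≤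
        |((v : ℝ) + 2) - alpha (vc R0) * j|), gP PGT v j * (R0 ^ v * ecr (vc R0) ^ j) ≤
      Real.exp (-(j : ℝ) ^ (1 / 10 : ℝ))) :
    (tauG PGT j - Real.exp (-(j : ℝ) ^ (1 / 10 : ℝ))) / 2 ≤
      ∑ v ∈ (range (j + 1)).filter (fun v : ℕ => |((v : ℝ) + 2) - alpha (vc R0) * j| <
        (j : ℝ) ^ (3 / 5 : ℝ)), hN v j * (R0 ^ v * D0 ^ j) := by
  have hR := R0_posA
  have hD := D0_pos
  rw [crit_eq] at hfar
  have h1 : tauG PGT j = ∑ v ∈ (range (j + 1)).filter (fun v : ℕ => (j : ℝ) ^ (3 / 5 : ℝ) ≤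
        |((v : ℝ) + 2) - alpha (vc R0) * j|), gP PGT v j * (R0 ^ v * D0 ^ j) +
      ∑ v ∈ (range (j + 1)).filter (fun v : ℕ => ¬ ((j : ℝ) ^ (3 / 5 : ℝ) ≤
        |((v : ℝ) + 2) - alpha (vc R0) * j|)), gP PGT v j * (R0 ^ v * D0 ^ j) := by
    rw [sum_filter_add_sum_filter_not, tauG]
    exact sum_congr rfl fun v _ => mul_assoc _ _ _
  have h2 : ∑ v ∈ (range (j + 1)).filter (fun v : ℕ => ¬ ((j : ℝ) ^ (3 / 5 : ℝ) ≤
        |((v : ℝ) + 2) - alpha (vc R0) * j|)), gP PGT v j * (R0 ^ v * D0 ^ j) ≤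
      2 * ∑ v ∈ (range (j + 1)).filter (fun v : ℕ => |((v : ℝ) + 2) - alpha (vc R0) * j| <
        (j : ℝ) ^ (3 / 5 : ℝ)), hN v j * (R0 ^ v * D0 ^ j) := by
    rw [mul_sum]
    have h3 : (range (j + 1)).filter (fun v : ℕ => ¬ ((j : ℝ) ^ (3 / 5 : ℝ) ≤
        |((v : ℝ) + 2) - alpha (vc R0) * j|)) =
        (range (j + 1)).filter (fun v : ℕ => |((v : ℝ) + 2) - alpha (vc R0) * j| <
        (j : ℝ) ^ (3 / 5 : ℝ)) := filter_congr fun v _ => not_le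
    rw [h3]
    refine sum_le_sum fun v _ => ?_
    have h4 := mul_le_mul_of_nonneg_right (gP_le_hN v j)
      (by positivity : 0 ≤ R0 ^ v * D0 ^ j)
    linarith
  linarith

theorem core_win {μ' η : ℝ} (hμ' : 0 < μ') (hη : 0 < η) : ∃ c : ℝ, 0 < c ∧ ∃ k0 : ℕ,
    ∀ k : ℕ, k0 ≤ k → ∃ J : Finset ℕ,
      (∀ j ∈ J, |μ' * j - (1 + η / 2) * k| ≤ η / 8 * k) ∧
      c * (k : ℝ) ^ (-(3 / 2) : ℝ) ≤ ∑ j ∈ J, ∑ v ∈ (range (j + 1)).filter (fun v : ℕ =>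
        |((v : ℝ) + 2) - alpha (vc R0) * j| < (j : ℝ) ^ (3 / 5 : ℝ)),
          hN v j * (R0 ^ v * D0 ^ j) := by
  obtain ⟨A, c1, C, hA, hc1, -, ⟨n0, hlow⟩, -⟩ := chap4 R0_range.1 R0_range.2
  have hμ1 : 1 ≤ yMu R0 := yMu_ge R0_posA (by linarith [R0_range.2])
  obtain ⟨μ, hμd⟩ : ∃ μ, μ = yMu R0 := ⟨_, rfl⟩
  rw [← hμd] at hμ1 hlow
  have hμ : 0 < μ := by linarith
  have hη2 : 0 < 1 + η / 2 := by positivity
  obtain ⟨η', hη'd⟩ : ∃ η' : ℝ, η' = min (1 / 2) (η / (8 * (1 + η / 2))) := ⟨_, rfl⟩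
  have hη'0 : 0 < η' := by rw [hη'd]; exact lt_min (by norm_num) (by positivity)
  have hη'1 : η' ≤ 1 / 2 := by rw [hη'd]; exact min_le_left _ _
  have hη'2 : η' * (1 + η / 2) ≤ η / 8 := by
    have h1 : η' ≤ η / (8 * (1 + η / 2)) := by rw [hη'd]; exact min_le_right _ _
    calc η' * (1 + η / 2) ≤ η / (8 * (1 + η / 2)) * (1 + η / 2) :=
          mul_le_mul_of_nonneg_right h1 hη2.le
      _ = η / 8 := by field_simp
  obtain ⟨c', hc', x0, hx0⟩ := dyad_low (τ := tauG PGT) tauG_nn hc1 hA hμ (n0 := n0)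
    (fun n hn => by
      have := hlow n hn
      simp only [tauG_eqA]
      exact this) hη'0
  obtain ⟨j0, hj0⟩ := tau_far R0_range.1 R0_range.2
  obtain ⟨j1, hj1⟩ := exp_smallA
  obtain ⟨κ, hκd⟩ : ∃ κ : ℝ, κ = μ * (1 + η / 2) / μ' := ⟨_, rfl⟩
  have hκ : 0 < κ := by rw [hκd]; positivity
  obtain ⟨a1, ha1d⟩ : ∃ a1 : ℝ, a1 = 1 / 2 / μ := ⟨_, rfl⟩
  obtain ⟨b1, hb1d⟩ : ∃ b1 : ℝ, b1 = 3 / 2 / μ := ⟨_, rfl⟩
  have ha1 : 0 < a1 := by rw [ha1d]; positivity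
  have hb1 : 0 < b1 := by rw [hb1d]; positivity
  refine ⟨c' / 4 * κ ^ (-(3 / 2) : ℝ), by positivity, ?_⟩
  have T1 : Filter.Tendsto (fun k : ℕ => κ * (k : ℝ)) Filter.atTop Filter.atTop :=
    Filter.Tendsto.const_mul_atTop hκ tendsto_natCast_atTop_atTop
  have T2 : Filter.Tendsto (fun k : ℕ => (κ * (k : ℝ)) ^ (1 / 2 : ℝ)) Filter.atTop Filter.atTop :=
    (tendsto_rpow_atTop (by norm_num)).comp T1
  obtain ⟨k0, hk0⟩ := Filter.eventually_atTop.1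
    (((T1.eventually_ge_atTop x0).and (T1.eventually_ge_atTop ((max j0 j1 : ℕ) / a1))).and
      (((T1.eventually_ge_atTop (1 / b1)).and (T1.eventually_ge_atTop 1)).and
        (T2.eventually_ge_atTop (2 * b1 / a1 ^ 3 / (c' / 2)))))
  refine ⟨k0, fun k hk => ?_⟩
  obtain ⟨⟨e1, e2⟩, ⟨e3, e4⟩, e5⟩ := hk0 k hk
  obtain ⟨x, hxd⟩ : ∃ x : ℝ, x = κ * k := ⟨_, rfl⟩
  rw [← hxd] at e1 e2 e3 e4 e5
  have hx : 0 < x := by linarith
  obtain ⟨J, hJ1, hJ2⟩ := hx0 x e1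
  have hJlow : ∀ j ∈ J, a1 * x ≤ j := by
    intro j hj
    have h1 := (abs_le.1 (hJ1 j hj)).1
    have h2 : x / 2 ≤ μ * j := by nlinarith
    rw [ha1d, div_mul_eq_mul_div, div_le_iff₀ hμ]
    linarith
  have hJup : ∀ j ∈ J, (j : ℝ) ≤ b1 * x := by
    intro j hj
    have h1 := (abs_le.1 (hJ1 j hj)).2
    have h2 : μ * j ≤ 3 / 2 * x := by nlinarith
    rw [hb1d, div_mul_eq_mul_div, le_div_iff₀ hμ]
    linarith
  have hJbig : ∀ j ∈ J, max j0 j1 ≤ j := by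
    intro j hj
    have h1 := hJlow j hj
    rw [div_le_iff₀ ha1] at e2
    have h2 : ((max j0 j1 : ℕ) : ℝ) ≤ j := by linarith
    exact_mod_cast h2
  refine ⟨J, fun j hj => ?_, ?_⟩
  · have h1 := hJ1 j hj
    have h2 : μ' * j - (1 + η / 2) * k = μ' / μ * (μ * j - x) := by
      rw [hxd, hκd]; field_simp
    rw [h2, abs_mul, abs_of_pos (by positivity : 0 < μ' / μ)]
    calc μ' / μ * |μ * j - x| ≤ μ' / μ * (η' * x) := mul_le_mul_of_nonneg_left h1 (by positivity)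
      _ = η' * (1 + η / 2) * k := by rw [hxd, hκd]; field_simp
      _ ≤ η / 8 * k := mul_le_mul_of_nonneg_right hη'2 (Nat.cast_nonneg k)
  · have h1 : ∑ j ∈ J, (tauG PGT j - Real.exp (-(j : ℝ) ^ (1 / 10 : ℝ))) / 2 ≤
        ∑ j ∈ J, ∑ v ∈ (range (j + 1)).filter (fun v : ℕ =>
        |((v : ℝ) + 2) - alpha (vc R0) * j| < (j : ℝ) ^ (3 / 5 : ℝ)),
          hN v j * (R0 ^ v * D0 ^ j) :=
      sum_le_sum fun j hj => near_ge (hj0 j ((le_max_left _ _).trans (hJbig j hj)))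
    refine le_trans ?_ h1
    have h2 : ∑ j ∈ J, Real.exp (-(j : ℝ) ^ (1 / 10 : ℝ)) ≤ c' / 2 * x ^ (-(3 / 2) : ℝ) := by
      have h3 : ∀ j ∈ J, Real.exp (-(j : ℝ) ^ (1 / 10 : ℝ)) ≤ 1 / (a1 * x) ^ 3 := by
        intro j hj
        refine (hj1 j ((le_max_right _ _).trans (hJbig j hj))).trans ?_
        exact one_div_le_one_div_of_le (by positivity)
          (pow_le_pow_left₀ (by positivity) (hJlow j hj) 3)
      have h4 : (J.card : ℝ) ≤ 2 * b1 * x := by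
        have h5 : J ⊆ range (⌊b1 * x⌋₊ + 1) := by
          intro j hj
          rw [mem_range]
          have := Nat.le_floor (hJup j hj)
          omega
        have h6 := card_le_card h5
        rw [card_range] at h6
        have h7 : ((⌊b1 * x⌋₊ + 1 : ℕ) : ℝ) ≤ b1 * x + 1 := by
          push_cast
          linarith [Nat.floor_le (by positivity : 0 ≤ b1 * x)]
        have h8 : (J.card : ℝ) ≤ ((⌊b1 * x⌋₊ + 1 : ℕ) : ℝ) := by exact_mod_cast h6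
        rw [div_le_iff₀ hb1] at e3
        linarith
      calc ∑ j ∈ J, Real.exp (-(j : ℝ) ^ (1 / 10 : ℝ)) ≤ ∑ j ∈ J, 1 / (a1 * x) ^ 3 :=
            sum_le_sum h3
        _ = J.card * (1 / (a1 * x) ^ 3) := by rw [sum_const, nsmul_eq_mul]
        _ ≤ 2 * b1 * x * (1 / (a1 * x) ^ 3) := mul_le_mul_of_nonneg_right h4 (by positivity)
        _ = 2 * b1 / a1 ^ 3 * (1 / x ^ 2) := by field_simp
        _ ≤ c' / 2 * x ^ (1 / 2 : ℝ) * (1 / x ^ 2) := by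
            refine mul_le_mul_of_nonneg_right ?_ (by positivity)
            rw [div_le_iff₀ (by positivity)] at e5
            linarith
        _ = c' / 2 * x ^ (-(3 / 2) : ℝ) := by
            rw [mul_assoc, half_sq hx]
    have h3 : c' / 4 * κ ^ (-(3 / 2) : ℝ) * (k : ℝ) ^ (-(3 / 2) : ℝ) = c' / 4 * x ^ (-(3 / 2) : ℝ) := by
      rw [hxd, Real.mul_rpow hκ.le (Nat.cast_nonneg k), mul_assoc]
    rw [h3, ← sum_div, sum_sub_distrib]
    linarith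

end Dia
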