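import Pool.Agent.DiaA.TailsB
import Pool.Agent.DiaA.LowA

/-!
# The windows of the law `dL`
-/

set_option linter.unusedSectionVars false

namespace Dia
open Finset PGr Pool.Agent.DiamP
open scoped ENNReal

theorem cv_scale (f g : ℕ → ℝ) (a b : ℝ) (k : ℕ) :
    cv (fun k => a * f k) (fun k => b * g k) k = a * b * cv f g k := by
  unfold cv
  rw [mul_sum]
  exact sum_congr rfl fun _ _ => by ring

theorem cvL_scale_d (d : ℕ → ℝ) (b : ℝ) (e : ℕ) :
    cvL (List.replicate e (fun k => b * d k)) = fun k => b ^ e * cvL (List.replicate e d) k := by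
  induction e with
  | zero => funext k; simp
  | succ e ih =>
    funext k
    rw [List.replicate_succ, List.replicate_succ, cvL_cons, cvL_cons, ih, cv_scale, pow_succ]
    ring

theorem cvL_scale (r d : ℕ → ℝ) (a b : ℝ) (v e : ℕ) :
    cvL (List.replicate v (fun k => a * r k) ++ List.replicate e (fun k => b * d k)) =
      fun k => a ^ v * b ^ e * cvL (List.replicate v r ++ List.replicate e d) k := by
  induction v with
  | zero =>
    rw [List.replicate_zero, List.replicate_zero, List.nil_append, List.nil_append, cvL_scale_d]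
    funext k
    ring
  | succ v ih =>
    funext k
    rw [List.replicate_succ, List.replicate_succ, List.cons_append, List.cons_append, cvL_cons,
      cvL_cons, ih, cv_scale, pow_succ]
    ring

theorem wt_r_eq : wt (rN ⊤) rho = fun k => R0 * rL k := by
  funext k
  unfold rL
  rw [mul_div_cancel₀ _ R0_posA.ne']

theorem wt_d_eq : wt (dN ⊤) rho = fun k => D0 * dL k := by
  funext k
  unfold dL
  rw [mul_div_cancel₀ _ D0_pos.ne']

/-- a finite part of the rigid part -/
theorem Hc_ge {r d : ℕ → ℝ} {h : ℕ → ℕ → ℝ} (hr : ∀ k, 0 ≤ r k) (hd : ∀ k, 0 ≤ d k)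
    (hh : ∀ v e, 0 ≤ h v e) (r0 : r 0 = 0) (hsupp : ∀ v e, h v e ≠ 0 → e + 7 ≤ 3 * (v + 2))
    (F : Finset (ℕ × ℕ)) (k : ℕ) :
    ∑ t ∈ F, h t.1 t.2 * cvL (List.replicate t.1 r ++ List.replicate t.2 d) k ≤ Hc h ⊤ r d k := by
  have hcv0 : ∀ (t : ℕ × ℕ), 0 ≤ cvL (List.replicate t.1 r ++ List.replicate t.2 d) k := by
    intro t
    refine Hv.cvL_nonneg ?_ k
    intro f hf
    rcases List.mem_append.1 hf with h' | h'
    · rw [List.eq_of_mem_replicate h']; exact hr
    · rw [List.eq_of_mem_replicate h']; exact hd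
  have h6 : Hc h ⊤ r d k = ∑ t ∈ range (k + 1) ×ˢ range ((k + 2) ^ 2), h t.1 t.2 *
      cvL (List.replicate t.1 r ++ List.replicate t.2 d) k := by
    unfold Hc
    have hpr := Finset.sum_product' (range (k + 1)) (range ((k + 2) ^ 2)) (fun v e => h v e *
      cvL (List.replicate v r ++ List.replicate e d) k)
    refine Eq.trans ?_ hpr.symm
    refine sum_congr rfl fun v _ => sum_congr rfl fun e _ => ?_
    rw [if_pos (ENat.natCast_lt_top _)]
  rw [h6]
  have h3 : ∑ t ∈ F, h t.1 t.2 * cvL (List.replicate t.1 r ++ List.replicate t.2 d) k =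
      ∑ t ∈ F.filter (fun t => t ∈ range (k + 1) ×ˢ range ((k + 2) ^ 2)),
        h t.1 t.2 * cvL (List.replicate t.1 r ++ List.replicate t.2 d) k := by
    rw [sum_filter]
    refine sum_congr rfl fun t _ => ?_
    split_ifs with h4
    · rfl
    · rw [mem_product, mem_range, mem_range, not_and_or] at h4
      by_cases h5 : k < t.1
      · rw [cvL_small r0 _ _ _ h5, mul_zero]
      · have h6 : ¬ t.2 < (k + 2) ^ 2 := by
          rcases h4 with h4 | h4
          · omega
          · exact h4
        have h7 : h t.1 t.2 = 0 := by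
          by_contra h8
          have h9 := hsupp _ _ h8
          nlinarith
        rw [h7, zero_mul]
  rw [h3]
  exact sum_le_sum_of_subset_of_nonneg (fun t ht => (mem_filter.1 ht).2) fun t _ _ =>
    mul_nonneg (hh _ _) (hcv0 _)

/-- a law gives mass `≥ 1/2` to the complement of a set of mass `≤ 1/2` -/
theorem half_mass {p : ℕ → ℝ} (hp : IsLaw p) {A : Set ℕ} {I : Finset ℕ} (hA : ∀ n, n ∉ I → n ∈ A)
    (h : pr p A ≤ 1 / 2) : 1 / 2 ≤ ∑ n ∈ I, p n := by
  have h1 : (∑' n, p n) ≤ pr p A + ∑ n ∈ I, p n := by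
    have s1 := hp.summable_indicator A
    have h2 : ∀ n, p n ≤ A.indicator p n + (if n ∈ I then p n else 0) := by
      intro n
      by_cases hn : n ∈ I
      · rw [if_pos hn]
        have := Set.indicator_nonneg (s := A) (fun n _ => hp.nonneg n) n
        linarith
      · rw [if_neg hn, Set.indicator_of_mem (hA n hn), add_zero]
    have s2 : HasSum (fun n => if n ∈ I then p n else 0) (∑ n ∈ I, p n) := by
      have : HasSum (fun n => if n ∈ I then p n else 0) (∑ n ∈ I, (if n ∈ I then p n else 0)) :=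
        hasSum_sum_of_ne_finset_zero fun n hn => if_neg hn
      have h3 : ∑ n ∈ I, (if n ∈ I then p n else 0) = ∑ n ∈ I, p n :=
        sum_congr rfl fun n hn => if_pos hn
      rwa [h3] at this
    have h4 := hp.summable.tsum_le_tsum h2 (s1.add s2.summable)
    rw [s1.tsum_add s2.summable, s2.tsum_eq] at h4
    exact h4
  rw [hp.tsum] at h1
  linarith

theorem mean_dL_posA {K : ℝ} (h : HT K dL) : 0 < mean dL := by
  have h1 : dL 1 * ((1 : ℕ) : ℝ) ≤ mean dL :=
    h.summable_mean.le_tsum 1 fun n _ => mul_nonneg (h.law.nonneg n) (Nat.cast_nonneg n)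
  have h2 : 0 < dL 1 := by
    unfold dL wt
    have := dN_pos 1
    have := rho_pos
    have := D0_pos
    positivity
  rw [Nat.cast_one, mul_one] at h1
  linarith

end Dia
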