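import Pool.Agent.DiaA.LowB

/-!
# The windows of the law `dL`: end
-/

set_option linter.unusedSectionVars false

namespace Dia
open Finset PGr Pool.Agent.DiamP
open scoped ENNReal

theorem large_k (mR b D η : ℝ) (hb : 0 < b) (hη : 0 < η) : ∃ k1 : ℕ, ∀ k : ℕ, k1 ≤ k → 1 ≤ k ∧
    mR * ((b * k) ^ (3 / 5 : ℝ) + 2) ≤ η / 8 * k ∧
    D * (2 * b * k) * (η / 8 * k) ^ (-(3 / 2) : ℝ) ≤ 1 / 2 := by
  have T1 : Filter.Tendsto (fun k : ℕ => mR * (b ^ (3 / 5 : ℝ) * (k : ℝ) ^ (-(2 / 5) : ℝ) +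
      2 * (k : ℝ) ^ (-1 : ℝ))) Filter.atTop (nhds 0) := by
    have h1 := (tendsto_rpow_neg_atTop (y := 2 / 5) (by norm_num)).comp
      (tendsto_natCast_atTop_atTop (R := ℝ))
    have h2 := (tendsto_rpow_neg_atTop (y := 1) (by norm_num)).comp
      (tendsto_natCast_atTop_atTop (R := ℝ))
    have h3 := ((h1.const_mul (b ^ (3 / 5 : ℝ))).add (h2.const_mul 2)).const_mul mR
    simpa using h3
  have T2 : Filter.Tendsto (fun k : ℕ => D * (2 * b) * (η / 8) ^ (-(3 / 2) : ℝ) *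
      (k : ℝ) ^ (-(1 / 2) : ℝ)) Filter.atTop (nhds 0) := by
    have h1 := (tendsto_rpow_neg_atTop (y := 1 / 2) (by norm_num)).comp
      (tendsto_natCast_atTop_atTop (R := ℝ))
    have h3 := h1.const_mul (D * (2 * b) * (η / 8) ^ (-(3 / 2) : ℝ))
    rw [mul_zero] at h3
    exact h3
  obtain ⟨k1, hk1⟩ := Filter.eventually_atTop.1
    ((T1.eventually (ge_mem_nhds (by positivity : (0 : ℝ) < η / 8))).and
      ((T2.eventually (ge_mem_nhds (by norm_num : (0 : ℝ) < 1 / 2))).and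
        (Filter.eventually_ge_atTop 1)))
  refine ⟨k1, fun k hk => ?_⟩
  obtain ⟨e1, e2, e3⟩ := hk1 k hk
  have hk0 : (0 : ℝ) < k := by exact_mod_cast e3
  refine ⟨e3, ?_, ?_⟩
  · have h1 : (b * k) ^ (3 / 5 : ℝ) = b ^ (3 / 5 : ℝ) * (k : ℝ) ^ (-(2 / 5) : ℝ) * k := by
      rw [Real.mul_rpow hb.le hk0.le, mul_assoc]
      congr 1
      nth_rewrite 3 [← Real.rpow_one (k : ℝ)]
      rw [← Real.rpow_add hk0]
      norm_num
    have h2 : (k : ℝ) ^ (-1 : ℝ) * k = 1 := by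
      rw [Real.rpow_neg_one, inv_mul_cancel₀ hk0.ne']
    calc mR * ((b * k) ^ (3 / 5 : ℝ) + 2) =
          mR * (b ^ (3 / 5 : ℝ) * (k : ℝ) ^ (-(2 / 5) : ℝ) + 2 * (k : ℝ) ^ (-1 : ℝ)) * k := by
          rw [h1]
          linear_combination (-2 * mR) * h2
      _ ≤ η / 8 * k := mul_le_mul_of_nonneg_right e1 hk0.le
  · have h1 : (η / 8 * k) ^ (-(3 / 2) : ℝ) = (η / 8) ^ (-(3 / 2) : ℝ) * (k : ℝ) ^ (-(3 / 2) : ℝ) :=
      Real.mul_rpow (by positivity) hk0.le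
    have h2 : (k : ℝ) * (k : ℝ) ^ (-(3 / 2) : ℝ) = (k : ℝ) ^ (-(1 / 2) : ℝ) := by
      nth_rewrite 1 [← Real.rpow_one (k : ℝ)]
      rw [← Real.rpow_add hk0]
      norm_num
    refine le_trans (le_of_eq ?_) e2
    rw [h1, ← h2]
    ring

/-- the sum of the parts is in the window with probability at least `1/2` -/
theorem part_win {K η μ' : ℝ} (hr : HT K rL) (hd : HT K dL)
    (hμd : μ' = alpha (vc R0) * mean rL + mean dL) (hμ' : 0 < μ') (hη : 0 < η) :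
    ∃ k1 : ℕ, ∀ k : ℕ, k1 ≤ k → 1 ≤ k ∧ ∀ v e : ℕ, v ≤ e → |μ' * e - (1 + η / 2) * k| ≤ η / 8 * k →
      |((v : ℝ) + 2) - alpha (vc R0) * e| < (e : ℝ) ^ (3 / 5 : ℝ) →
      1 / 2 ≤ ∑ n ∈ Icc k ⌊(1 + η) * (k : ℝ)⌋₊,
        cvL (List.replicate v rL ++ List.replicate e dL) n := by
  have hK := hr.K_nonneg
  have hdK := dK_nonneg hK
  obtain ⟨b, hbd⟩ : ∃ b : ℝ, b = (1 + η) / μ' := ⟨_, rfl⟩
  have hb : 0 < b := by rw [hbd]; positivity
  have hmR : 0 ≤ mean rL := hr.law.mean_nonneg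
  obtain ⟨k1, hk1⟩ := large_k (mean rL) b (4 * dK K + 1) η hb hη
  refine ⟨k1, fun k hk => ?_⟩
  obtain ⟨h1, h2, h3⟩ := hk1 k hk
  refine ⟨h1, fun v e hve hwin hnear => ?_⟩
  have hk0 : (0 : ℝ) < k := by exact_mod_cast h1
  have hve' : (v : ℝ) ≤ e := by exact_mod_cast hve
  have he0 : (0 : ℝ) ≤ e := Nat.cast_nonneg e
  obtain ⟨l, hl⟩ : ∃ l, l = List.replicate v rL ++ List.replicate e dL := ⟨_, rfl⟩
  rw [← hl]
  have hlHT : ∀ p ∈ l, HT K p := by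
    intro p hp
    rw [hl] at hp
    rcases List.mem_append.1 hp with h | h
    · rw [List.eq_of_mem_replicate h]; exact hr
    · rw [List.eq_of_mem_replicate h]; exact hd
  have hmean : meanL l = v * mean rL + e * mean dL := by
    rw [hl, meanL_append]
    simp [meanL]
  have hlen : (l.length : ℝ) = v + e := by
    rw [hl]; simp
  have heb : (e : ℝ) ≤ b * k := by
    have h4 := (abs_le.1 hwin).2
    rw [hbd, div_mul_eq_mul_div, le_div_iff₀ hμ']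
    have h5 : 0 ≤ η * k := by positivity
    linarith
  have hdev := heavy_dev hK hlHT (t := η / 8 * k) (by positivity)
  have hdev2 : pr (cvL l) {n | η / 8 * k ≤ |(n : ℝ) - meanL l|} ≤ 1 / 2 := by
    refine hdev.trans (le_trans ?_ h3)
    refine mul_le_mul_of_nonneg_right (mul_le_mul_of_nonneg_left ?_ (by positivity)) (by positivity)
    rw [hlen]; linarith
  refine half_mass (isLaw_cvL fun p hp => (hlHT p hp).law) (fun n hn => ?_) hdev2
  rw [Set.mem_ofPred_eq]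
  by_contra hcon
  push Not at hcon
  apply hn
  have hmd : |meanL l - μ' * e| ≤ η / 8 * k := by
    have h4 : meanL l - μ' * e = mean rL * (v - alpha (vc R0) * e) := by
      rw [hmean, hμd]; ring
    rw [h4, abs_mul, abs_of_nonneg hmR]
    refine le_trans (mul_le_mul_of_nonneg_left ?_ hmR) h2
    have h5 : |(v : ℝ) - alpha (vc R0) * e| ≤ |((v : ℝ) + 2) - alpha (vc R0) * e| + 2 := by
      have h6 : (v : ℝ) - alpha (vc R0) * e = (((v : ℝ) + 2) - alpha (vc R0) * e) + (-2) := by ring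
      rw [h6]
      refine (abs_add_le _ _).trans ?_
      rw [abs_neg, abs_of_pos (by norm_num : (0 : ℝ) < 2)]
    have h6 : (e : ℝ) ^ (3 / 5 : ℝ) ≤ (b * k) ^ (3 / 5 : ℝ) :=
      Real.rpow_le_rpow he0 heb (by norm_num)
    linarith
  have a1 := abs_lt.1 hcon
  have a2 := abs_le.1 hmd
  have a3 := abs_le.1 hwin
  have h5 : 0 < η * k := by positivity
  rw [mem_Icc]
  constructor
  · have : (k : ℝ) ≤ n := by linarith
    exact_mod_cast this
  · apply Nat.le_floor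
    linarith

theorem sigma_sum (J : Finset ℕ) (S : ℕ → Finset ℕ) (f : ℕ × ℕ → ℝ) :
    ∑ t ∈ (J.sigma S).image (fun s => (s.2, s.1)), f t = ∑ e ∈ J, ∑ v ∈ S e, f (v, e) := by
  classical
  rw [sum_image, sum_sigma]
  rintro ⟨a, b⟩ _ ⟨c, d⟩ _ h
  simp only [Prod.mk.injEq] at h
  obtain ⟨rfl, rfl⟩ := h
  rfl

theorem dL_DL : Hv.DL dL := by
  classical
  obtain ⟨K, hr, hd, -⟩ := tails
  refine ⟨hd.law, fun n => ?_, fun η hη => ?_⟩
  · unfold dL wt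
    have := dN_pos n
    have := rho_pos
    have := D0_pos
    positivity
  have hα : 0 < alpha (vc R0) := (tau_V R0_range.1 R0_range.2).1
  obtain ⟨μ', hμd⟩ : ∃ μ', μ' = alpha (vc R0) * mean rL + mean dL := ⟨_, rfl⟩
  have hμ' : 0 < μ' := by
    rw [hμd]
    have h1 := mean_dL_posA hd
    have h2 := mul_nonneg hα.le hr.law.mean_nonneg
    linarith
  obtain ⟨c, hc, k0, hk0⟩ := core_win hμ' hη
  obtain ⟨k1, hk1⟩ := part_win hr hd hμd hμ' hη
  have hR := R0_posA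
  have hD := D0_pos
  refine ⟨c / D0, by positivity, max k0 k1, fun k hk => ?_⟩
  obtain ⟨J, hJ1, hJ2⟩ := hk0 k ((le_max_left _ _).trans hk)
  obtain ⟨hk2, hk3⟩ := hk1 k ((le_max_right _ _).trans hk)
  obtain ⟨S, hS⟩ : ∃ S : ℕ → Finset ℕ, S = fun j => (range (j + 1)).filter (fun v : ℕ =>
      |((v : ℝ) + 2) - alpha (vc R0) * j| < (j : ℝ) ^ (3 / 5 : ℝ)) := ⟨_, rfl⟩
  obtain ⟨T, hT⟩ : ∃ T : Finset (ℕ × ℕ), T = (J.sigma S).image (fun s => (s.2, s.1)) := ⟨_, rfl⟩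
  have hJ2' : c * (k : ℝ) ^ (-(3 / 2) : ℝ) ≤ ∑ t ∈ T, hN t.1 t.2 * (R0 ^ t.1 * D0 ^ t.2) := by
    rw [hT, sigma_sum J S (fun t => hN t.1 t.2 * (R0 ^ t.1 * D0 ^ t.2)), hS]
    exact hJ2
  obtain ⟨I, hI⟩ : ∃ I : Finset ℕ, I = Icc k ⌊(1 + η) * (k : ℝ)⌋₊ := ⟨_, rfl⟩
  rw [← hI] at hk3 ⊢
  have hnn := fun n => wt_nonneg (rN_nonneg ⊤) rho_pos.le n
  have hnd := fun n => wt_nonneg (dN_nonneg ⊤) rho_pos.le n
  -- lower bound of `b`
  have hb : ∀ n, ∑ t ∈ T, hN t.1 t.2 * (R0 ^ t.1 * D0 ^ t.2) *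
      cvL (List.replicate t.1 rL ++ List.replicate t.2 dL) n ≤ wt (bN ⊤) rho n := by
    intro n
    have h1 := (Hc_ge hnn hnd hN_nonneg (by unfold wt; rw [rN_zero, zero_mul])
      (fun v e hh => (hN_supp hh).2.2) T n).trans (planar_low rho_pos.le n)
    refine le_trans (le_of_eq ?_) h1
    refine sum_congr rfl fun t _ => ?_
    have h2 : cvL (List.replicate t.1 (wt (rN ⊤) rho) ++ List.replicate t.2 (wt (dN ⊤) rho)) n =
        R0 ^ t.1 * D0 ^ t.2 * cvL (List.replicate t.1 rL ++ List.replicate t.2 dL) n := by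
      rw [wt_r_eq, wt_d_eq, cvL_scale]
    rw [h2]; ring
  have h1 : ∑ n ∈ I, wt (bN ⊤) rho n ≥ c / 2 * (k : ℝ) ^ (-(3 / 2) : ℝ) := by
    calc ∑ n ∈ I, wt (bN ⊤) rho n ≥ ∑ n ∈ I, ∑ t ∈ T, hN t.1 t.2 * (R0 ^ t.1 * D0 ^ t.2) *
          cvL (List.replicate t.1 rL ++ List.replicate t.2 dL) n := sum_le_sum fun n _ => hb n
      _ = ∑ t ∈ T, hN t.1 t.2 * (R0 ^ t.1 * D0 ^ t.2) *
          ∑ n ∈ I, cvL (List.replicate t.1 rL ++ List.replicate t.2 dL) n := by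
          rw [sum_comm]
          exact sum_congr rfl fun t _ => (mul_sum _ _ _).symm
      _ ≥ ∑ t ∈ T, hN t.1 t.2 * (R0 ^ t.1 * D0 ^ t.2) * (1 / 2) := by
          refine sum_le_sum fun t ht => mul_le_mul_of_nonneg_left ?_
            (mul_nonneg (hN_nonneg _ _) (by positivity))
          rw [hT] at ht
          obtain ⟨s, hs, rfl⟩ := mem_image.1 ht
          rw [mem_sigma, hS] at hs
          have h2 := mem_filter.1 hs.2
          exact hk3 s.2 s.1 (by have := mem_range.1 h2.1; omega) (hJ1 s.1 hs.1) h2.2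
      _ = (∑ t ∈ T, hN t.1 t.2 * (R0 ^ t.1 * D0 ^ t.2)) / 2 := by
          rw [← sum_mul]; ring
      _ ≥ c / 2 * (k : ℝ) ^ (-(3 / 2) : ℝ) := by linarith
  have h2 : ∑ n ∈ I, dL n = (∑ n ∈ I, wt (dN ⊤) rho n) / D0 := by
    rw [sum_div]; rfl
  have h3 : 2 * ∑ n ∈ I, wt (bN ⊤) rho n ≤ ∑ n ∈ I, wt (dN ⊤) rho n := by
    rw [mul_sum]
    refine sum_le_sum fun n hn => ?_
    rw [hI, mem_Icc] at hn
    unfold wt
    rw [dN_eq ⊤ (by omega)]
    have h4 := mul_le_mul_of_nonneg_right (bN_le_qN ⊤ n) (pow_nonneg rho_pos.le n)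
    linarith
  rw [h2, div_mul_eq_mul_div]
  exact div_le_div_of_nonneg_right (by linarith) hD.le

end Dia
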