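import Pool.Agent.DiaA.Defs

/-!
# Module Trunc: increments of convolutions

`inc_cv`: the sum over `k ≤ n` of `(cv f g) k (y^k - 1)` is a sum over pairs `i + j ≤ n` of
`f i g j (y^(i+j) - 1)`, all terms are nonnegative, so it is at most the sum over `i, j ≤ n`, which is
`(ts f n + inc y f n) (ts g n + inc y g n) - ts f n * ts g n`.
`inc_cv_zero`: the same with `f 0 = 0`: for `i + j ≤ n + 1` either `i = 0` (no contribution) or `j ≤ n`.
`ts_cv`, `ts_cvL`: the same without the factor.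
`inc_cvL`: by induction on the list, with
`T_f T_L - S_f S_L = (T_f - S_f) T_L + S_f (T_L - S_L)`, where `T_L = ts (cvL l) n + inc y (cvL l) n ≤ ∏ T`
(this is also proved by induction) and `T_L - S_L = inc y (cvL l) n ≤ ∏ T - ∏ S`.
`cvL_congrA`: `cvL l k` for `k ≤ n` depends only on the values up to `n` of the members (induction).
`inc_rd`: apply `inc_cvL` to `replicate v r ++ replicate e d'`, `d' j = if j ≤ n then d j else 0`; for `k ≤ n + 1`
`cvL (replicate v r ++ replicate e d) k = cvL (replicate v r ++ replicate e d') k`, because `v ≥ 1` and `r 0 = 0`: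
`cvL (r :: l) k = ∑_{1 ≤ i ≤ k} r i cvL l (k - i)`, and `k - i ≤ n`: `cvL_congrA`.  `ts d' (n+1) = ts d n`,
`inc y d' (n+1) = inc y d n`.
`inc_mono`: monotonicity: if `S ≤ R`, `S' ≤ D` and `0 ≤ a`, `0 ≤ b` then
`(S + a)^v (S' + b)^e - S^v S'^e ≤ (R + a)^v (D + b)^e - R^v D^e` (expand, or: the map is a polynomial with
nonnegative coefficients in `S, S'`: induction on `v` and `e`).
-/

set_option linter.unusedSectionVars false

namespace Dia
open Finset Pool.Agent.DiamP

private theorem Trunc_sum_cv (p q w : ℕ → ℝ) (n : ℕ) :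
    ∑ k ∈ range (n + 1), cv p q k * w k =
      ∑ ij ∈ (range (n + 1) ×ˢ range (n + 1)).filter (fun ij => ij.1 + ij.2 ≤ n),
        p ij.1 * q ij.2 * w (ij.1 + ij.2) := by
  rw [← sum_fiberwise_of_maps_to (t := range (n + 1)) (g := fun ij : ℕ × ℕ => ij.1 + ij.2)]
  · refine sum_congr rfl fun k hk => ?_
    rw [mem_range] at hk
    unfold cv
    rw [sum_mul]
    refine sum_congr ?_ ?_
    · ext ij
      rw [mem_filter, mem_filter, mem_product, mem_range, mem_range, HasAntidiagonal.mem_antidiagonal]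
      omega
    · intro ij hij
      rw [mem_filter] at hij
      rw [hij.2]
  · intro ij hij
    rw [mem_filter] at hij
    rw [mem_range]
    omega

/-- truncated generating function -/
private noncomputable def TrT (y : ℝ) (f : ℕ → ℝ) (n : ℕ) : ℝ := ∑ k ∈ range (n + 1), f k * y ^ k

private theorem Trunc_T (y : ℝ) (f : ℕ → ℝ) (n : ℕ) : ts f n + inc y f n = TrT y f n := by
  unfold ts inc TrT
  rw [← sum_add_distrib]
  exact sum_congr rfl fun k _ => by ring

private theorem Trunc_ts_nonneg {f : ℕ → ℝ} (hf : ∀ k, 0 ≤ f k) (n : ℕ) : 0 ≤ ts f n :=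
  sum_nonneg fun k _ => hf k

private theorem Trunc_T_nonneg {f : ℕ → ℝ} (hf : ∀ k, 0 ≤ f k) {y : ℝ} (hy : 1 ≤ y) (n : ℕ) :
    0 ≤ TrT y f n :=
  sum_nonneg fun k _ => mul_nonneg (hf k) (by positivity)

theorem inc_nonneg {f : ℕ → ℝ} (hf : ∀ k, 0 ≤ f k) {y : ℝ} (hy : 1 ≤ y) (n : ℕ) :
    0 ≤ inc y f n := by
  exact sum_nonneg fun k _ => mul_nonneg (hf k) (sub_nonneg.2 (one_le_pow₀ hy))

/-- the product of the truncated sums, as a sum over a rectangle -/
private theorem Trunc_prod (f g : ℕ → ℝ) (y : ℝ) (m n : ℕ) :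
    TrT y f m * TrT y g n - ts f m * ts g n =
      ∑ ij ∈ range (m + 1) ×ˢ range (n + 1), f ij.1 * g ij.2 * (y ^ (ij.1 + ij.2) - 1) := by
  unfold TrT ts
  rw [sum_mul_sum, sum_mul_sum, ← sum_product', ← sum_product', ← sum_sub_distrib]
  refine sum_congr rfl fun ij _ => ?_
  rw [pow_add]
  ring

private theorem Trunc_term {f g : ℕ → ℝ} (hf : ∀ k, 0 ≤ f k) (hg : ∀ k, 0 ≤ g k) {y : ℝ}
    (hy : 1 ≤ y) (ij : ℕ × ℕ) : 0 ≤ f ij.1 * g ij.2 * (y ^ (ij.1 + ij.2) - 1) :=
  mul_nonneg (mul_nonneg (hf _) (hg _)) (sub_nonneg.2 (one_le_pow₀ hy))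

theorem inc_cv {f g : ℕ → ℝ} (hf : ∀ k, 0 ≤ f k) (hg : ∀ k, 0 ≤ g k) {y : ℝ} (hy : 1 ≤ y)
    (n : ℕ) :
    inc y (cv f g) n ≤ (ts f n + inc y f n) * (ts g n + inc y g n) - ts f n * ts g n := by
  rw [Trunc_T, Trunc_T, Trunc_prod]
  unfold inc
  rw [Trunc_sum_cv f g (fun k => y ^ k - 1)]
  exact sum_le_sum_of_subset_of_nonneg (filter_subset _ _) fun ij _ _ => Trunc_term hf hg hy ij

theorem inc_cv_zero {f g : ℕ → ℝ} (hf : ∀ k, 0 ≤ f k) (hg : ∀ k, 0 ≤ g k) (h0 : f 0 = 0) {y : ℝ}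
    (hy : 1 ≤ y) (n : ℕ) :
    inc y (cv f g) (n + 1) ≤
      (ts f (n + 1) + inc y f (n + 1)) * (ts g n + inc y g n) - ts f (n + 1) * ts g n := by
  rw [Trunc_T, Trunc_T, Trunc_prod]
  unfold inc
  rw [Trunc_sum_cv f g (fun k => y ^ k - 1), ← sum_filter_add_sum_filter_not _ (fun ij : ℕ × ℕ => ij.1 = 0)]
  have h1 : ∑ ij ∈ (((range (n + 1 + 1) ×ˢ range (n + 1 + 1)).filter
      (fun ij => ij.1 + ij.2 ≤ n + 1)).filter (fun ij : ℕ × ℕ => ij.1 = 0)),
      f ij.1 * g ij.2 * (y ^ (ij.1 + ij.2) - 1) = 0 := by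
    refine sum_eq_zero fun ij hij => ?_
    rw [(mem_filter.1 hij).2, h0]
    ring
  rw [h1, zero_add]
  refine sum_le_sum_of_subset_of_nonneg ?_ fun ij _ _ => Trunc_term hf hg hy ij
  intro ij hij
  simp only [mem_filter, mem_product, mem_range] at hij ⊢
  omega

private theorem Trunc_cvL_nonneg {l : List (ℕ → ℝ)} (hl : ∀ f ∈ l, ∀ k, 0 ≤ f k) :
    ∀ k, 0 ≤ cvL l k := by
  induction l with
  | nil =>
    intro k
    rw [cvL_nil]
    unfold one0
    split_ifs <;> norm_num
  | cons f l ih =>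
    intro k
    rw [cvL_cons]
    exact cv_nonneg (hl f (by simp)) (ih fun g hg => hl g (by simp [hg])) k

private theorem Trunc_prodT_nonneg {l : List (ℕ → ℝ)} (hl : ∀ f ∈ l, ∀ k, 0 ≤ f k) {y : ℝ}
    (hy : 1 ≤ y) (n : ℕ) : 0 ≤ (l.map fun f => ts f n + inc y f n).prod := by
  refine List.prod_nonneg fun x hx => ?_
  obtain ⟨f, hf, rfl⟩ := List.mem_map.1 hx
  show 0 ≤ ts f n + inc y f n
  rw [Trunc_T]
  exact Trunc_T_nonneg (hl f hf) hy n

private theorem Trunc_T_cvL {l : List (ℕ → ℝ)} (hl : ∀ f ∈ l, ∀ k, 0 ≤ f k) {y : ℝ} (hy : 1 ≤ y)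
    (n : ℕ) : TrT y (cvL l) n ≤ (l.map fun f => ts f n + inc y f n).prod := by
  induction l with
  | nil =>
    rw [cvL_nil, List.map_nil, List.prod_nil]
    unfold TrT one0
    rw [sum_range_succ']
    simp
  | cons f l ih =>
    have hf := hl f (by simp)
    have hl' : ∀ g ∈ l, ∀ k, 0 ≤ g k := fun g hg => hl g (by simp [hg])
    rw [cvL_cons, List.map_cons, List.prod_cons]
    refine le_trans ?_ (mul_le_mul_of_nonneg_left (ih hl') (by
      rw [Trunc_T]; exact Trunc_T_nonneg hf hy n))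
    rw [Trunc_T]
    unfold TrT
    rw [Trunc_sum_cv f (cvL l) (fun k => y ^ k), sum_mul_sum, ← sum_product']
    refine (sum_le_sum_of_subset_of_nonneg (filter_subset _ _) fun ij _ _ => ?_).trans (le_of_eq ?_)
    · exact mul_nonneg (mul_nonneg (hf _) (Trunc_cvL_nonneg hl' _)) (by positivity)
    · refine sum_congr rfl fun ij _ => ?_
      rw [pow_add]
      ring

theorem inc_cvL {l : List (ℕ → ℝ)} (hl : ∀ f ∈ l, ∀ k, 0 ≤ f k) {y : ℝ} (hy : 1 ≤ y) (n : ℕ) :
    inc y (cvL l) n ≤ (l.map fun f => ts f n + inc y f n).prod - (l.map fun f => ts f n).prod := by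
  induction l with
  | nil =>
    rw [cvL_nil, List.map_nil, List.map_nil, List.prod_nil]
    unfold inc one0
    rw [sum_range_succ']
    simp
  | cons f l ih =>
    have hf := hl f (by simp)
    have hl' : ∀ g ∈ l, ∀ k, 0 ≤ g k := fun g hg => hl g (by simp [hg])
    have hL := Trunc_cvL_nonneg hl'
    have h1 := inc_cv hf hL hy n
    have h2 := ih hl'
    have h3 := Trunc_T_cvL hl' hy n
    rw [cvL_cons, List.map_cons, List.map_cons, List.prod_cons, List.prod_cons]
    have h4 : 0 ≤ inc y f n := inc_nonneg hf hy n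
    have h5 : 0 ≤ ts f n := Trunc_ts_nonneg hf n
    rw [← Trunc_T] at h3
    have h6 := mul_le_mul_of_nonneg_left h3 h4
    have h7 := mul_le_mul_of_nonneg_left h2 h5
    nlinarith

theorem cvL_congrA {l : List (ℕ → ℝ)} {F : (ℕ → ℝ) → ℕ → ℝ} {n : ℕ}
    (h : ∀ f ∈ l, ∀ k ≤ n, F f k = f k) {k : ℕ} (hk : k ≤ n) : cvL (l.map F) k = cvL l k := by
  induction l generalizing k with
  | nil => rfl
  | cons f l ih =>
    rw [List.map_cons, cvL_cons, cvL_cons]
    unfold cv
    refine sum_congr rfl fun ij hij => ?_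
    rw [HasAntidiagonal.mem_antidiagonal] at hij
    rw [h f (by simp) ij.1 (by omega), ih (fun g hg => h g (by simp [hg])) (by omega)]

private theorem Trunc_mapr (F : (ℕ → ℝ) → ℕ → ℝ) (r d : ℕ → ℝ) (v e : ℕ) :
    (List.replicate v r ++ List.replicate e d).map F =
      List.replicate v (F r) ++ List.replicate e (F d) := by
  rw [List.map_append, List.map_replicate, List.map_replicate]

theorem inc_rd {r d : ℕ → ℝ} (hr : ∀ k, 0 ≤ r k) (hd : ∀ k, 0 ≤ d k) (h0 : r 0 = 0) {y : ℝ}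
    (hy : 1 ≤ y) (n : ℕ) {v : ℕ} (hv : 1 ≤ v) (e : ℕ) :
    inc y (cvL (List.replicate v r ++ List.replicate e d)) (n + 1) ≤
      (ts r (n + 1) + inc y r (n + 1)) ^ v * (ts d n + inc y d n) ^ e -
        ts r (n + 1) ^ v * ts d n ^ e := by
  classical
  set F : (ℕ → ℝ) → ℕ → ℝ := fun g j => if j ≤ n then g j else 0 with hF
  have hFF : ∀ g, F (F g) = F g := by
    intro g
    funext j
    simp only [hF]
    split_ifs <;> rfl
  have hFe : ∀ g : ℕ → ℝ, ∀ k ≤ n, F g k = g k := by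
    intro g k hk
    simp only [hF]
    rw [if_pos hk]
  have hd' : ∀ k, 0 ≤ F d k := by
    intro k
    simp only [hF]
    split_ifs
    · exact hd k
    · exact le_rfl
  obtain ⟨w, rfl⟩ : ∃ w, v = w + 1 := ⟨v - 1, by omega⟩
  have h1 : ∀ j ≤ n, cvL (List.replicate w r ++ List.replicate e d) j =
      cvL (List.replicate w r ++ List.replicate e (F d)) j := by
    intro j hj
    rw [← cvL_congrA (l := List.replicate w r ++ List.replicate e d) (F := F) (n := n)
      (fun f _ => hFe f) hj, ← cvL_congrA (l := List.replicate w r ++ List.replicate e (F d))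
      (F := F) (n := n) (fun f _ => hFe f) hj, Trunc_mapr, Trunc_mapr, hFF]
  have h2 : ∀ k ≤ n + 1, cvL (List.replicate (w + 1) r ++ List.replicate e d) k =
      cvL (List.replicate (w + 1) r ++ List.replicate e (F d)) k := by
    intro k hk
    rw [List.replicate_succ, List.cons_append, List.cons_append, cvL_cons, cvL_cons]
    unfold cv
    refine sum_congr rfl fun ij hij => ?_
    rw [HasAntidiagonal.mem_antidiagonal] at hij
    rcases Nat.eq_zero_or_pos ij.1 with hi | hi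
    · rw [hi, h0, zero_mul, zero_mul]
    · rw [h1 ij.2 (by omega)]
  have h3 : inc y (cvL (List.replicate (w + 1) r ++ List.replicate e d)) (n + 1) =
      inc y (cvL (List.replicate (w + 1) r ++ List.replicate e (F d))) (n + 1) := by
    unfold inc
    refine sum_congr rfl fun k hk => ?_
    rw [mem_range] at hk
    rw [h2 k (by omega)]
  have h4 : ∀ f ∈ List.replicate (w + 1) r ++ List.replicate e (F d), ∀ k, 0 ≤ f k := by
    intro f hf
    rcases List.mem_append.1 hf with hf | hf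
    · rw [List.eq_of_mem_replicate hf]; exact hr
    · rw [List.eq_of_mem_replicate hf]; exact hd'
  have h5 := inc_cvL h4 hy (n + 1)
  rw [List.map_append, List.map_append, List.map_replicate, List.map_replicate, List.map_replicate,
    List.map_replicate, List.prod_append, List.prod_append, List.prod_replicate, List.prod_replicate,
    List.prod_replicate, List.prod_replicate] at h5
  have h6 : ts (F d) (n + 1) = ts d n := by
    unfold ts
    rw [sum_range_succ]
    have : F d (n + 1) = 0 := by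
      simp only [hF]
      rw [if_neg (by omega)]
    rw [this, add_zero]
    refine sum_congr rfl fun k hk => hFe d k ?_
    rw [mem_range] at hk
    omega
  have h7 : inc y (F d) (n + 1) = inc y d n := by
    unfold inc
    rw [sum_range_succ]
    have : F d (n + 1) = 0 := by
      simp only [hF]
      rw [if_neg (by omega)]
    rw [this, zero_mul, add_zero]
    refine sum_congr rfl fun k hk => ?_
    rw [mem_range] at hk
    rw [hFe d k (by omega)]
  rw [h6, h7] at h5
  rw [h3]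
  exact h5

private theorem Trunc_pow_nonneg {S a : ℝ} (hS : 0 ≤ S) (ha : 0 ≤ a) (v : ℕ) :
    0 ≤ (S + a) ^ v - S ^ v :=
  sub_nonneg.2 (pow_le_pow_left₀ hS (by linarith) v)

private theorem Trunc_pow_mono {S R a : ℝ} (hS : 0 ≤ S) (hR : S ≤ R) (ha : 0 ≤ a) (v : ℕ) :
    (S + a) ^ v - S ^ v ≤ (R + a) ^ v - R ^ v := by
  induction v with
  | zero => simp
  | succ v ih =>
    have e : ∀ X : ℝ, (X + a) ^ (v + 1) - X ^ (v + 1) =
        a * (X + a) ^ v + X * ((X + a) ^ v - X ^ v) := fun X => by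
      rw [pow_succ, pow_succ]
      ring
    rw [e, e]
    refine add_le_add (mul_le_mul_of_nonneg_left (pow_le_pow_left₀ (by linarith) (by linarith) v) ha)
      (mul_le_mul hR ih (Trunc_pow_nonneg hS ha v) (hS.trans hR))

private theorem Trunc_pow_taylor {R a R1 : ℝ} (hR : 0 ≤ R) (ha : 0 ≤ a) (h1 : R + a ≤ R1) (v : ℕ) :
    (R + a) ^ v - R ^ v ≤ v * R1 ^ (v - 1) * a := by
  have hR1 : 0 ≤ R1 := by linarith
  induction v with
  | zero => simp
  | succ v ih =>
    have e : (R + a) ^ (v + 1) - R ^ (v + 1) =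
        a * (R + a) ^ v + R * ((R + a) ^ v - R ^ v) := by
      rw [pow_succ, pow_succ]
      ring
    rw [e, Nat.add_sub_cancel]
    have h2 : a * (R + a) ^ v ≤ a * R1 ^ v :=
      mul_le_mul_of_nonneg_left (pow_le_pow_left₀ (by linarith) h1 v) ha
    have h3 : R * ((R + a) ^ v - R ^ v) ≤ R1 * (v * R1 ^ (v - 1) * a) :=
      mul_le_mul (by linarith) ih (Trunc_pow_nonneg hR ha v) hR1
    have h4 : R1 * (v * R1 ^ (v - 1) * a) = v * R1 ^ v * a := by
      rcases v with _ | v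
      · simp
      · rw [Nat.add_sub_cancel, pow_succ]
        ring
    push_cast
    rw [h4] at h3
    linarith

private theorem Trunc_split (S S' a b : ℝ) (v e : ℕ) :
    (S + a) ^ v * (S' + b) ^ e - S ^ v * S' ^ e =
      ((S + a) ^ v - S ^ v) * (S' + b) ^ e + S ^ v * ((S' + b) ^ e - S' ^ e) := by
  ring

theorem inc_mono {S S' R D a b : ℝ} (hS : 0 ≤ S) (hS' : 0 ≤ S') (hR : S ≤ R) (hD : S' ≤ D)
    (ha : 0 ≤ a) (hb : 0 ≤ b) (v e : ℕ) :
    (S + a) ^ v * (S' + b) ^ e - S ^ v * S' ^ e ≤ (R + a) ^ v * (D + b) ^ e - R ^ v * D ^ e := by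
  rw [Trunc_split, Trunc_split]
  refine add_le_add ?_ ?_
  · exact mul_le_mul (Trunc_pow_mono hS hR ha v) (pow_le_pow_left₀ (by linarith) (by linarith) e)
      (by positivity) (Trunc_pow_nonneg (hS.trans hR) ha v)
  · exact mul_le_mul (pow_le_pow_left₀ hS hR v) (Trunc_pow_mono hS' hD hb e)
      (Trunc_pow_nonneg hS' hb e) (pow_nonneg (hS.trans hR) v)

/-- Taylor bound, first order -/
theorem taylor1 {R D a b R1 D1 : ℝ} (hR : 0 ≤ R) (hD : 0 ≤ D) (ha : 0 ≤ a) (hb : 0 ≤ b)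
    (h1 : R + a ≤ R1) (h2 : D + b ≤ D1) (v e : ℕ) :
    (R + a) ^ v * (D + b) ^ e - R ^ v * D ^ e ≤
      v * R1 ^ (v - 1) * D1 ^ e * a + e * R1 ^ v * D1 ^ (e - 1) * b := by
  have hR1 : 0 ≤ R1 := by linarith
  have hD1 : 0 ≤ D1 := by linarith
  rw [Trunc_split]
  have h3 := Trunc_pow_taylor hR ha h1 v
  have h4 := Trunc_pow_taylor hD hb h2 e
  have h5 : ((R + a) ^ v - R ^ v) * (D + b) ^ e ≤ (v * R1 ^ (v - 1) * a) * D1 ^ e :=
    mul_le_mul h3 (pow_le_pow_left₀ (by linarith) h2 e) (by positivity) (by positivity)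
  have h6 : R ^ v * ((D + b) ^ e - D ^ e) ≤ R1 ^ v * (e * D1 ^ (e - 1) * b) :=
    mul_le_mul (pow_le_pow_left₀ hR (by linarith) v) h4 (Trunc_pow_nonneg hD hb e) (by positivity)
  calc _ ≤ (v * R1 ^ (v - 1) * a) * D1 ^ e + R1 ^ v * (e * D1 ^ (e - 1) * b) := add_le_add h5 h6
    _ = _ := by ring

private theorem Trunc_exp {X : ℝ} (hX : 0 ≤ X) : Real.exp X - 1 ≤ X + X ^ 2 * Real.exp X := by
  have h1 : Real.exp X - 1 ≤ X * Real.exp X := by
    have h2 : 1 - X ≤ Real.exp (-X) := by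
      have := Real.add_one_le_exp (-X)
      linarith
    have h3 := mul_le_mul_of_nonneg_right h2 (Real.exp_pos X).le
    rw [← Real.exp_add, neg_add_cancel, Real.exp_zero] at h3
    linarith
  have h4 := mul_le_mul_of_nonneg_left h1 hX
  nlinarith

theorem taylor2 {R D a b y : ℝ} (hR : 0 < R) (hD : 0 < D) (ha : 0 ≤ a) (hb : 0 ≤ b)
    (hy : a / R + b / D ≤ y) {v e : ℕ} (hve : v ≤ e) {m : ℕ} (hem : e ≤ m) :
    (R + a) ^ v * (D + b) ^ e - R ^ v * D ^ e ≤
      v * R ^ (v - 1) * D ^ e * a + e * R ^ v * D ^ (e - 1) * b +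
        R ^ v * D ^ e * ((e : ℝ) ^ 2 * y ^ 2 * Real.exp (m * y)) := by
  set X : ℝ := v * (a / R) + e * (b / D) with hX
  have haR : 0 ≤ a / R := by positivity
  have hbD : 0 ≤ b / D := by positivity
  have hX0 : 0 ≤ X := by positivity
  have hy0 : 0 ≤ y := by linarith
  have hve' : (v : ℝ) ≤ e := by exact_mod_cast hve
  have hem' : (e : ℝ) ≤ m := by exact_mod_cast hem
  have he0 : (0 : ℝ) ≤ e := Nat.cast_nonneg _
  have hXe : X ≤ e * y := by
    have h1 : (v : ℝ) * (a / R) ≤ e * (a / R) := mul_le_mul_of_nonneg_right hve' haR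
    calc X ≤ e * (a / R) + e * (b / D) := by rw [hX]; linarith
      _ = e * (a / R + b / D) := by ring
      _ ≤ e * y := mul_le_mul_of_nonneg_left hy he0
  have hXm : X ≤ m * y := hXe.trans (mul_le_mul_of_nonneg_right hem' hy0)
  have hpow : ∀ {z : ℝ} (_ : 0 ≤ z) (k : ℕ), (1 + z) ^ k ≤ Real.exp (k * z) := by
    intro z hz k
    rw [Real.exp_nat_mul]
    refine pow_le_pow_left₀ (by linarith) ?_ k
    have := Real.add_one_le_exp z
    linarith
  have h1 : (R + a) ^ v = R ^ v * (1 + a / R) ^ v := by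
    rw [← mul_pow]
    congr 1
    field_simp
  have h2 : (D + b) ^ e = D ^ e * (1 + b / D) ^ e := by
    rw [← mul_pow]
    congr 1
    field_simp
  have h3 : (1 + a / R) ^ v * (1 + b / D) ^ e ≤ Real.exp X := by
    rw [hX, Real.exp_add]
    exact mul_le_mul (hpow haR v) (hpow hbD e) (by positivity) (Real.exp_pos _).le
  have h4 := Trunc_exp hX0
  have h5 : X ^ 2 * Real.exp X ≤ (e : ℝ) ^ 2 * y ^ 2 * Real.exp (m * y) := by
    have h6 : X ^ 2 ≤ (e : ℝ) ^ 2 * y ^ 2 := by
      rw [← mul_pow]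
      exact pow_le_pow_left₀ hX0 hXe 2
    exact mul_le_mul h6 (Real.exp_le_exp.2 hXm) (Real.exp_pos _).le (by positivity)
  have hRD : 0 ≤ R ^ v * D ^ e := by positivity
  have h6 : R ^ v * D ^ e * X = v * R ^ (v - 1) * D ^ e * a + e * R ^ v * D ^ (e - 1) * b := by
    have e1 : R ^ v * (v * (a / R)) = v * R ^ (v - 1) * a := by
      rcases v with _ | v
      · simp
      · rw [Nat.add_sub_cancel, pow_succ]
        field_simp
    have e2 : D ^ e * (e * (b / D)) = e * D ^ (e - 1) * b := by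
      rcases e with _ | e
      · simp
      · rw [Nat.add_sub_cancel, pow_succ]
        field_simp
    calc R ^ v * D ^ e * X = R ^ v * (v * (a / R)) * D ^ e + R ^ v * (D ^ e * (e * (b / D))) := by
          rw [hX]; ring
      _ = _ := by rw [e1, e2]; ring
  calc (R + a) ^ v * (D + b) ^ e - R ^ v * D ^ e
      = R ^ v * D ^ e * ((1 + a / R) ^ v * (1 + b / D) ^ e - 1) := by rw [h1, h2]; ring
    _ ≤ R ^ v * D ^ e * (X + (e : ℝ) ^ 2 * y ^ 2 * Real.exp (m * y)) :=
        mul_le_mul_of_nonneg_left (by linarith) hRD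
    _ = _ := by rw [mul_add, h6]

end Dia
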