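import Pool.Agent.DiaA.Log
import Pool.Agent.DiaA.Trunc
import Pool.Agent.Dia.ADefs

/-!
# Module PInc: inequalities between the increments for a system `PSys`

`PInc_r`: `r (k+1) = x e k`, so `ts r (n+1) = x ts e n` and
`inc y r (n+1) = x ∑_{k ≤ n} e k (y^(k+1) - 1) = x (y T - ts e n)`, `T = ts e n + inc y e n ≤ ts e n * exp (inc y p n)`
by `logder_inc` (`he`).
`PInc_q`: `logder_inc` with `hq`.
`PInc_p`: `p ≤ cv r q` termwise, `inc` is monotone, `inc_cv_zero` (`r 0 = 0`).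
`PInc_d`: `d k = 2 q k` for `k ≥ 1`, and `y^0 - 1 = 0`.
`PInc_b`: `b ≤ cv r (cv d d) + Hc`; `cv r (cv d d) = cvL (replicate 1 r ++ replicate 2 d)`: `inc_rd`.  For `Hc`:
`∑_{k ≤ n+1} Hc k (y^k - 1) ≤ ∑_{t ∈ F} h t.1 t.2 inc y (cvL (replicate t.1 r ++ replicate t.2 d)) (n+1)` with
`F` = the pairs `(v, e)`, `v ≤ n + 1`, `e < (n + 3)^2`, `((e + 1 : ℕ) : ℕ∞) < M` (the ranges in `Hc` grow with `k`,
all terms are nonnegative), then `inc_rd` for `v ≥ 1`, and `h 0 e = 0`.
-/

set_option linter.unusedSectionVars false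

namespace Dia
open Finset PGr Pool.Agent.DiamP

variable {x : ℝ} {h : ℕ → ℕ → ℝ} {M : ℕ∞} {r e p q d b : ℕ → ℝ}

private theorem PInc_ts_add_inc (y : ℝ) (f : ℕ → ℝ) (n : ℕ) :
    ts f n + inc y f n = ∑ k ∈ range (n + 1), f k * y ^ k := by
  unfold ts inc
  rw [← Finset.sum_add_distrib]
  refine Finset.sum_congr rfl fun k _ => ?_
  ring

private theorem PInc_pow_nn {y : ℝ} (hy : 1 ≤ y) (k : ℕ) : 0 ≤ y ^ k - 1 :=
  sub_nonneg.2 (one_le_pow₀ hy)

private theorem PInc_inc_le {f g : ℕ → ℝ} {y : ℝ} (hy : 1 ≤ y) (n : ℕ)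
    (h : ∀ k, k ≤ n → f k ≤ g k) : inc y f n ≤ inc y g n := by
  unfold inc
  refine Finset.sum_le_sum fun k hk => ?_
  exact mul_le_mul_of_nonneg_right (h k (Nat.lt_succ_iff.1 (Finset.mem_range.1 hk)))
    (PInc_pow_nn hy k)

private theorem PInc_cvL_nn {l : List (ℕ → ℝ)} (hl : ∀ f ∈ l, ∀ k, 0 ≤ f k) (k : ℕ) :
    0 ≤ cvL l k := by
  induction l generalizing k with
  | nil =>
    simp only [cvL_nil, one0]
    split_ifs <;> norm_num
  | cons a l ih =>
    rw [cvL_cons]
    exact cv_nonneg (hl a (by simp)) (fun j => ih (fun f hf => hl f (by simp [hf])) j) k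

private theorem PInc_rep_nn {r d : ℕ → ℝ} (hr : ∀ k, 0 ≤ r k) (hd : ∀ k, 0 ≤ d k) (v e k : ℕ) :
    0 ≤ cvL (List.replicate v r ++ List.replicate e d) k := by
  refine PInc_cvL_nn (fun f hf => ?_) k
  rw [List.mem_append] at hf
  rcases hf with hf | hf
  · rw [List.eq_of_mem_replicate hf]; exact hr
  · rw [List.eq_of_mem_replicate hf]; exact hd

theorem PInc_r (H : PSys x h M r e p q d b) (hx : 0 ≤ x) {y : ℝ} (hy : 1 ≤ y) (n : ℕ) :
    inc y r (n + 1) ≤ ts r (n + 1) * (y * Real.exp (inc y p n) - 1) := by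
  have h1 : ts r (n + 1) = x * ts e n := by
    unfold ts
    rw [Finset.sum_range_succ' (fun k => r k) (n + 1), H.r_zero, add_zero, Finset.mul_sum]
    exact Finset.sum_congr rfl fun k _ => H.hr k
  have h2 : inc y r (n + 1) = x * (y * (ts e n + inc y e n) - ts e n) := by
    rw [PInc_ts_add_inc]
    unfold inc ts
    rw [Finset.sum_range_succ' (fun k => r k * (y ^ k - 1)) (n + 1), H.r_zero, zero_mul, add_zero,
      Finset.mul_sum, ← Finset.sum_sub_distrib, Finset.mul_sum]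
    refine Finset.sum_congr rfl fun k _ => ?_
    rw [H.hr k, pow_succ]
    ring
  have h3 := logder_inc H.e_nn H.p_nn H.he n hy
  have h4 : ts e n + inc y e n ≤ ts e n * Real.exp (inc y p n) := by linarith
  rw [h1, h2]
  have h5 : y * (ts e n + inc y e n) ≤ y * (ts e n * Real.exp (inc y p n)) :=
    mul_le_mul_of_nonneg_left h4 (by linarith)
  calc x * (y * (ts e n + inc y e n) - ts e n)
      ≤ x * (y * (ts e n * Real.exp (inc y p n)) - ts e n) :=
        mul_le_mul_of_nonneg_left (by linarith) hx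
    _ = x * ts e n * (y * Real.exp (inc y p n) - 1) := by ring

theorem PInc_q (H : PSys x h M r e p q d b) {y : ℝ} (hy : 1 ≤ y) (n : ℕ) :
    inc y q n ≤ ts q n * (Real.exp (inc y b n) - 1) :=
  logder_inc H.q_nn H.b_nn H.hq n hy

theorem PInc_p (H : PSys x h M r e p q d b) {y : ℝ} (hy : 1 ≤ y) (n : ℕ) :
    inc y p (n + 1) ≤
      (ts r (n + 1) + inc y r (n + 1)) * (ts q n + inc y q n) - ts r (n + 1) * ts q n :=
  (PInc_inc_le hy (n + 1) (fun k _ => H.hp k)).trans
    (inc_cv_zero H.r_nn H.q_nn H.r_zero hy n)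

theorem PInc_d (H : PSys x h M r e p q d b) (y : ℝ) (n : ℕ) : inc y d n = 2 * inc y q n := by
  unfold inc
  rw [Finset.mul_sum]
  refine Finset.sum_congr rfl fun k _ => ?_
  rcases Nat.eq_zero_or_pos k with hk | hk
  · subst hk; simp
  · rw [H.hd k hk]; ring

theorem PInc_b (H : PSys x h M r e p q d b) (hh : ∀ v e, 0 ≤ h v e) (h0 : ∀ e, h 0 e = 0) {y : ℝ}
    (hy : 1 ≤ y) (n : ℕ) :
    ∃ F : Finset (ℕ × ℕ), (∀ t ∈ F, ((t.2 + 1 : ℕ) : ℕ∞) < M) ∧
      inc y b (n + 1) ≤
        ((ts r (n + 1) + inc y r (n + 1)) * (ts d n + inc y d n) ^ 2 - ts r (n + 1) * ts d n ^ 2) +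
        ∑ t ∈ F, h t.1 t.2 * ((ts r (n + 1) + inc y r (n + 1)) ^ t.1 *
          (ts d n + inc y d n) ^ t.2 - ts r (n + 1) ^ t.1 * ts d n ^ t.2) := by
  classical
  refine ⟨(range (n + 2) ×ˢ range ((n + 3) ^ 2)).filter
    (fun t => ((t.2 + 1 : ℕ) : ℕ∞) < M), fun t ht => (Finset.mem_filter.1 ht).2, ?_⟩
  set F := (range (n + 2) ×ˢ range ((n + 3) ^ 2)).filter
    (fun t => ((t.2 + 1 : ℕ) : ℕ∞) < M) with hF
  have hHc : ∀ k, k ≤ n + 1 → Hc h M r d k ≤
      ∑ t ∈ F, h t.1 t.2 * cvL (List.replicate t.1 r ++ List.replicate t.2 d) k := by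
    intro k hk
    have hnn : ∀ v e : ℕ, 0 ≤ (if ((e + 1 : ℕ) : ℕ∞) < M then
        h v e * cvL (List.replicate v r ++ List.replicate e d) k else 0) := by
      intro v e
      split_ifs
      · exact mul_nonneg (hh v e) (PInc_rep_nn H.r_nn H.d_nn v e k)
      · exact le_refl 0
    have e1 : ∑ t ∈ F, h t.1 t.2 * cvL (List.replicate t.1 r ++ List.replicate t.2 d) k =
        ∑ v ∈ range (n + 2), ∑ e ∈ range ((n + 3) ^ 2), if ((e + 1 : ℕ) : ℕ∞) < M then
          h v e * cvL (List.replicate v r ++ List.replicate e d) k else 0 := by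
      rw [hF, Finset.sum_filter, Finset.sum_product]
    rw [e1]
    unfold Hc
    calc ∑ v ∈ range (k + 1), ∑ e ∈ range ((k + 2) ^ 2), (if ((e + 1 : ℕ) : ℕ∞) < M then
          h v e * cvL (List.replicate v r ++ List.replicate e d) k else 0)
        ≤ ∑ v ∈ range (k + 1), ∑ e ∈ range ((n + 3) ^ 2), (if ((e + 1 : ℕ) : ℕ∞) < M then
          h v e * cvL (List.replicate v r ++ List.replicate e d) k else 0) := by
          refine Finset.sum_le_sum fun v _ => ?_
          refine Finset.sum_le_sum_of_subset_of_nonneg ?_ (fun e _ _ => hnn v e)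
          intro e he
          rw [Finset.mem_range] at he ⊢
          exact lt_of_lt_of_le he (Nat.pow_le_pow_left (by omega) 2)
      _ ≤ _ := by
          refine Finset.sum_le_sum_of_subset_of_nonneg ?_
            (fun v _ _ => Finset.sum_nonneg fun e _ => hnn v e)
          intro v hv
          rw [Finset.mem_range] at hv ⊢
          omega
  have hb : ∀ k, k ≤ n + 1 → b k ≤ cvL (List.replicate 1 r ++ List.replicate 2 d) k +
      ∑ t ∈ F, h t.1 t.2 * cvL (List.replicate t.1 r ++ List.replicate t.2 d) k := by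
    intro k hk
    have h1 := H.hb k
    have h2 : cvL (List.replicate 1 r ++ List.replicate 2 d) = cv r (cv d d) := by
      simp [List.replicate]
    rw [h2]
    linarith [hHc k hk]
  have h3 := PInc_inc_le hy (n + 1) hb
  have h4 : inc y (fun k => cvL (List.replicate 1 r ++ List.replicate 2 d) k +
      ∑ t ∈ F, h t.1 t.2 * cvL (List.replicate t.1 r ++ List.replicate t.2 d) k) (n + 1) =
      inc y (cvL (List.replicate 1 r ++ List.replicate 2 d)) (n + 1) +
      ∑ t ∈ F, h t.1 t.2 * inc y (cvL (List.replicate t.1 r ++ List.replicate t.2 d)) (n + 1) := by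
    unfold inc
    simp only [Finset.mul_sum]
    rw [Finset.sum_comm (s := F), ← Finset.sum_add_distrib]
    refine Finset.sum_congr rfl fun k _ => ?_
    rw [add_mul, Finset.sum_mul]
    congr 1
    refine Finset.sum_congr rfl fun t _ => ?_
    ring
  rw [h4] at h3
  have h5 := inc_rd H.r_nn H.d_nn H.r_zero hy n (le_refl 1) 2
  rw [pow_one, pow_one] at h5
  refine h3.trans (add_le_add h5 (Finset.sum_le_sum fun t _ => ?_))
  rcases Nat.eq_zero_or_pos t.1 with ht | ht
  · rw [ht, h0, zero_mul, zero_mul]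
  · exact mul_le_mul_of_nonneg_left (inc_rd H.r_nn H.d_nn H.r_zero hy n ht t.2) (hh _ _)

end Dia
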