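import Pool.Agent.Dia.RotF
import Pool.Agent.DiaC.Bridge

/-!
# Module Tau: weights of rigid maps near and at the critical point

`fin_RgE`, `fin_RgS`, `fin_Rg`: finite parts of the series `RgE_gP`, `RgS_gP`, `Rg_gP` (RotF): `ENNReal.ofReal` of the finite
sum is at most `∑' v, ∑' e` (`ENNReal.sum_le_tsum` on `ℕ × ℕ`, `ENNReal.tsum_prod`), all terms nonnegative (`gP_nonneg`).
`rg_crit`: put `t = vc x` (`vc_range`, `scr_vc`), `E = ecr t`, `1 ≤ E` (numerically for `t ≥ 607/1000`: `ecr (607/1000) ≥ 99/100` is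
not enough: use `x ≤ 476/10000`... only `E ≥ 99/100` is needed: `1/(1.99)^2 + 1/(1 + .037 * .99)^2 - 1 ≤ .19`).  `RgE` at the
critical point: `RgE_series`, `sum_rc_crit` (DiamP/RgCrit) bounds all partial sums by
`1/(1+E)^2 + 1/(1+xE)^2 - 1 - (..)^2 (..)^2 ≤ .19`; `rc_ne_top`.  `RgS` by `RgS_le`: `3 x RgS ≤ 2 E RgE`, `E ≤ 1.111`:
`RgS ≤ 2 * 1.111 * .19 / (3 * .037) ≤ 4`.
-/

set_option linter.unusedSectionVars false

namespace Dia
open Finset PGr Pool.Agent.DiamP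
open scoped ENNReal

private theorem ATau_fin (g : ℕ → ℕ → ℝ≥0∞) (F : Finset (ℕ × ℕ)) :
    ∑ t ∈ F, g t.1 t.2 ≤ ∑' v : ℕ, ∑' e : ℕ, g v e := by
  have h1 : ∑' v : ℕ, ∑' e : ℕ, g v e = ∑' t : ℕ × ℕ, g t.1 t.2 := (ENNReal.tsum_prod (f := g)).symm
  rw [h1]
  exact ENNReal.sum_le_tsum F

private theorem ATau_gen (f : ℕ → ℕ → ℝ) (hf : ∀ v e, 0 ≤ f v e) {B : ℝ} (hB : 0 ≤ B)
    (G : ℕ → ℕ → ℝ≥0∞) (hG : ∀ v e, ENNReal.ofReal (f v e) = G v e)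
    (h : ∑' v : ℕ, ∑' e : ℕ, G v e ≤ ENNReal.ofReal B) (F : Finset (ℕ × ℕ)) :
    ∑ t ∈ F, f t.1 t.2 ≤ B := by
  have h1 := (ATau_fin G F).trans h
  rw [← ENNReal.ofReal_le_ofReal_iff hB, ENNReal.ofReal_sum_of_nonneg (fun t _ => hf _ _)]
  refine le_trans (le_of_eq ?_) h1
  exact Finset.sum_congr rfl fun t _ => hG _ _

theorem fin_Rg {s E B : ℝ} (hs : 0 ≤ s) (hE : 0 ≤ E) (hB : 0 ≤ B)
    (h : Rg (ENNReal.ofReal s) (ENNReal.ofReal E) ≤ ENNReal.ofReal B) (F : Finset (ℕ × ℕ)) :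
    ∑ t ∈ F, gP PGT t.1 t.2 * (s ^ t.1 * E ^ t.2) ≤ B := by
  rw [Rg_gP] at h
  refine ATau_gen (fun v e => gP PGT v e * (s ^ v * E ^ e)) (fun v e => ?_) hB _ (fun v e => ?_) h F
  · exact mul_nonneg (gP_nonneg _ _ _) (mul_nonneg (pow_nonneg hs _) (pow_nonneg hE _))
  · rw [ENNReal.ofReal_mul (gP_nonneg _ _ _), ENNReal.ofReal_mul (pow_nonneg hs _),
      ENNReal.ofReal_pow hs, ENNReal.ofReal_pow hE]

theorem fin_RgE {s E B : ℝ} (hs : 0 ≤ s) (hE : 0 ≤ E) (hB : 0 ≤ B)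
    (h : RgE (ENNReal.ofReal s) (ENNReal.ofReal E) ≤ ENNReal.ofReal B) (F : Finset (ℕ × ℕ)) :
    ∑ t ∈ F, gP PGT t.1 t.2 * (s ^ t.1 * (t.2 * E ^ (t.2 - 1))) ≤ B := by
  rw [RgE_gP] at h
  refine ATau_gen (fun v e => gP PGT v e * (s ^ v * ((e : ℝ) * E ^ (e - 1)))) (fun v e => ?_) hB _
    (fun v e => ?_) h F
  · exact mul_nonneg (gP_nonneg _ _ _) (mul_nonneg (pow_nonneg hs _)
      (mul_nonneg (Nat.cast_nonneg _) (pow_nonneg hE _)))
  · rw [ENNReal.ofReal_mul (gP_nonneg _ _ _), ENNReal.ofReal_mul (pow_nonneg hs _),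
      ENNReal.ofReal_mul (Nat.cast_nonneg _), ENNReal.ofReal_natCast,
      ENNReal.ofReal_pow hs, ENNReal.ofReal_pow hE]

theorem fin_RgS {s E B : ℝ} (hs : 0 ≤ s) (hE : 0 ≤ E) (hB : 0 ≤ B)
    (h : RgS (ENNReal.ofReal s) (ENNReal.ofReal E) ≤ ENNReal.ofReal B) (F : Finset (ℕ × ℕ)) :
    ∑ t ∈ F, gP PGT t.1 t.2 * (t.1 * s ^ (t.1 - 1) * E ^ t.2) ≤ B := by
  rw [RgS_gP] at h
  refine ATau_gen (fun v e => gP PGT v e * ((v : ℝ) * s ^ (v - 1) * E ^ e)) (fun v e => ?_) hB _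
    (fun v e => ?_) h F
  · exact mul_nonneg (gP_nonneg _ _ _) (mul_nonneg (mul_nonneg (Nat.cast_nonneg _)
      (pow_nonneg hs _)) (pow_nonneg hE _))
  · rw [ENNReal.ofReal_mul (gP_nonneg _ _ _),
      ENNReal.ofReal_mul (mul_nonneg (Nat.cast_nonneg _) (pow_nonneg hs _)),
      ENNReal.ofReal_mul (Nat.cast_nonneg _), ENNReal.ofReal_natCast,
      ENNReal.ofReal_pow hs, ENNReal.ofReal_pow hE]

theorem ecr_vc_range {x : ℝ} (h0 : 37 / 1000 ≤ x) (h1 : x ≤ 476 / 10000) :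
    99 / 100 ≤ ecr (vc x) ∧ ecr (vc x) ≤ 1111 / 1000 := by
  obtain ⟨h2, h3⟩ := vc_range h0 h1
  have h4 : 0 < (1 - vc x) * (1 + 3 * vc x) := mul_pos (by linarith) (by linarith)
  unfold ecr
  constructor
  · rw [le_div_iff₀ h4]
    nlinarith
  · rw [div_le_iff₀ h4]
    nlinarith

private theorem ATau_E {x : ℝ} (h0 : 37 / 1000 ≤ x) (h1 : x ≤ 476 / 10000) :
    RgE (ENNReal.ofReal x) (ENNReal.ofReal (ecr (vc x))) ≤ ENNReal.ofReal (19 / 100) := by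
  obtain ⟨h2, h3⟩ := vc_range h0 h1
  obtain ⟨hE1, hE2⟩ := ecr_vc_range h0 h1
  have hs : scr (vc x) = x := scr_vc (by linarith) (by linarith)
  have ht0 : 0 < vc x := by linarith
  have ht1 : vc x < 1 := by linarith
  have hs' : scr (vc x) ≤ 1 / 10 := by rw [hs]; linarith
  have hrc := Pool.Agent.DiamP.rc_ne_top ht0 ht1 hs'
  have hsum := sum_rc_crit ht0 ht1 hs'
  rw [hs] at hrc hsum
  have hEpos : 0 ≤ ecr (vc x) := by linarith
  have hnum : 1 / (1 + ecr (vc x)) ^ 2 + 1 / (1 + x * ecr (vc x)) ^ 2 - 1 -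
        (1 - uf x (vc x)) ^ 2 * (1 - vc x) ^ 2 ≤ 19 / 100 := by
    have a0 : 0 ≤ (1 - uf x (vc x)) ^ 2 * (1 - vc x) ^ 2 := by positivity
    have a1 : 1 / (1 + ecr (vc x)) ^ 2 ≤ 1 / (199 / 100 : ℝ) ^ 2 := by
      apply one_div_le_one_div_of_le (by norm_num)
      exact pow_le_pow_left₀ (by norm_num) (by linarith) 2
    have a2 : 1 / (1 + x * ecr (vc x)) ^ 2 ≤ 1 / (10366 / 10000 : ℝ) ^ 2 := by
      apply one_div_le_one_div_of_le (by norm_num)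
      apply pow_le_pow_left₀ (by norm_num)
      nlinarith
    have a3 : (1 : ℝ) / (199 / 100) ^ 2 + 1 / (10366 / 10000 : ℝ) ^ 2 - 1 ≤ 19 / 100 := by norm_num
    linarith
  rw [RgE_series]
  refine ENNReal.summable.tsum_le_of_sum_le fun J => ?_
  have h5 := (hsum J).trans hnum
  refine le_trans (le_of_eq ?_) (ENNReal.ofReal_le_ofReal h5)
  rw [ENNReal.ofReal_sum_of_nonneg fun j _ => mul_nonneg (mul_nonneg (Nat.cast_nonneg _)
    ENNReal.toReal_nonneg) (pow_nonneg hEpos _)]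
  refine Finset.sum_congr rfl fun j _ => ?_
  rw [ENNReal.ofReal_mul (mul_nonneg (Nat.cast_nonneg _) ENNReal.toReal_nonneg),
    ENNReal.ofReal_mul (Nat.cast_nonneg _), ENNReal.ofReal_natCast, ENNReal.ofReal_toReal (hrc j),
    ENNReal.ofReal_pow hEpos, mul_assoc]

theorem rg_crit {x : ℝ} (h0 : 37 / 1000 ≤ x) (h1 : x ≤ 476 / 10000) :
    RgE (ENNReal.ofReal x) (ENNReal.ofReal (ecr (vc x))) ≤ ENNReal.ofReal (19 / 100) ∧
      RgS (ENNReal.ofReal x) (ENNReal.ofReal (ecr (vc x))) ≤ ENNReal.ofReal 4 := by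
  have hR := ATau_E h0 h1
  refine ⟨hR, ?_⟩
  obtain ⟨hE1, hE2⟩ := ecr_vc_range h0 h1
  obtain ⟨E, hE⟩ : ∃ E, E = ecr (vc x) := ⟨_, rfl⟩
  rw [← hE] at hR hE1 hE2 ⊢
  have hx : 0 < x := by linarith
  have h := RgS_le (ENNReal.ofReal x) (ENNReal.ofReal E)
  set X := RgS (ENNReal.ofReal x) (ENNReal.ofReal E) with hX
  have h2 : 3 * (ENNReal.ofReal x * X) ≤ ENNReal.ofReal (2 * (E * (19 / 100))) := by
    refine h.trans ?_
    rw [ENNReal.ofReal_mul (by norm_num), ENNReal.ofReal_mul (by linarith)]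
    have e2 : ENNReal.ofReal (2 : ℝ) = 2 := by simp
    rw [e2]
    gcongr
  have hXtop : X ≠ ⊤ := by
    intro htop
    rw [htop, ENNReal.mul_top (by simpa using hx), ENNReal.mul_top (by norm_num)] at h2
    exact absurd (top_le_iff.1 h2) ENNReal.ofReal_ne_top
  have h3 : 3 * (x * X.toReal) ≤ 2 * (E * (19 / 100)) := by
    have e : 3 * (ENNReal.ofReal x * X) = ENNReal.ofReal (3 * (x * X.toReal)) := by
      rw [ENNReal.ofReal_mul (by norm_num), ENNReal.ofReal_mul hx.le, ENNReal.ofReal_toReal hXtop]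
      simp
    rw [e] at h2
    have hE0 : 0 ≤ 2 * (E * (19 / 100)) := by linarith
    exact (ENNReal.ofReal_le_ofReal_iff hE0).1 h2
  rw [← ENNReal.ofReal_toReal hXtop]
  apply ENNReal.ofReal_le_ofReal
  by_contra hcon
  push Not at hcon
  have h4 : 37 / 1000 * 4 < x * X.toReal := by
    calc 37 / 1000 * 4 ≤ x * 4 := mul_le_mul_of_nonneg_right h0 (by norm_num)
      _ < x * X.toReal := mul_lt_mul_of_pos_left hcon hx
  linarith

end Dia
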