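import Pool.Agent.Dia.PSysP
import Pool.Agent.Dia.CntU
import Pool.Agent.DiaA.Tau
import Pool.Agent.DiaA.Log
import Pool.Agent.DiaA.FunB

/-!
# The radius of convergence, finiteness of all sums at the radius ((6.5), first part)
-/

set_option linter.unusedSectionVars false

namespace Dia
open Finset PGr Pool.Agent.DiamP
open scoped ENNReal

/-! ## nonnegativity and monotonicity -/

theorem es1_nonneg (P : ∀ A : Type, SimpleGraph (Option A) → Prop) (k : ℕ) : 0 ≤ es1 P k := by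
  unfold es1; positivity

theorem es2_nonneg (P : ∀ A : Type, SimpleGraph (A ⊕ Bool) → Prop) (k : ℕ) : 0 ≤ es2 P k := by
  unfold es2; positivity

theorem rE_nonneg (M : ℕ∞) (k : ℕ) : 0 ≤ rE M k := es1_nonneg _ k

theorem rN_nonneg (M : ℕ∞) (k : ℕ) : 0 ≤ rN M k := by
  unfold rN sh
  split_ifs
  · exact le_rfl
  · exact es1_nonneg _ _

theorem pN_nonneg (M : ℕ∞) (k : ℕ) : 0 ≤ pN M k := es1_nonneg _ k
theorem qN_nonneg (M : ℕ∞) (k : ℕ) : 0 ≤ qN M k := es2_nonneg _ k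
theorem dN_nonneg (M : ℕ∞) (k : ℕ) : 0 ≤ dN M k := es2_nonneg _ k
theorem bN_nonneg (M : ℕ∞) (k : ℕ) : 0 ≤ bN M k := es2_nonneg _ k
theorem gN_nonneg (M : ℕ∞) (k : ℕ) : 0 ≤ gN M k := by unfold gN; positivity

theorem rE_mono {M M' : ℕ∞} (h : M ≤ M') (k : ℕ) : rE M k ≤ rE M' k :=
  DecD_es1_mono (P := fun _ G => RR G ∧ CoreLt M G) (Q := fun _ G => RR G ∧ CoreLt M' G) k
    fun _ h' => ⟨h'.1, DecD_core_mono h h'.2⟩

theorem gN_mono {M M' : ℕ∞} (hM : M ≤ M') (k : ℕ) : gN M k ≤ gN M' k := by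
  classical
  unfold gN
  gcongr
  exact Nat.card_le_card_of_injective
    (fun x : {G : SimpleGraph (Fin k) // IsPlanar G ∧ CoreLt M G} =>
      (⟨x.1, x.2.1, DecD_core_mono hM x.2.2⟩ : {G : SimpleGraph (Fin k) // IsPlanar G ∧ CoreLt M' G}))
    fun x y h => Subtype.ext (by simpa using h)

theorem wt_nonneg {f : ℕ → ℝ} (hf : ∀ k, 0 ≤ f k) {x : ℝ} (hx : 0 ≤ x) (k : ℕ) : 0 ≤ wt f x k :=
  mul_nonneg (hf k) (pow_nonneg hx k)

theorem wt_one (f : ℕ → ℝ) : wt f 1 = f := by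
  funext k; unfold wt; rw [one_pow, mul_one]

theorem wt_mono {f : ℕ → ℝ} (hf : ∀ k, 0 ≤ f k) {x y : ℝ} (hx : 0 ≤ x) (hxy : x ≤ y) (k : ℕ) :
    wt f x k ≤ wt f y k :=
  mul_le_mul_of_nonneg_left (pow_le_pow_left₀ hx hxy k) (hf k)

theorem wt_summable_mono {f : ℕ → ℝ} (hf : ∀ k, 0 ≤ f k) {x y : ℝ} (hx : 0 ≤ x) (hxy : x ≤ y)
    (h : Summable (wt f y)) : Summable (wt f x) :=
  Summable.of_nonneg_of_le (wt_nonneg hf hx) (wt_mono hf hx hxy) h

theorem rN_succ (M : ℕ∞) (k : ℕ) : rN M (k + 1) = rE M k := by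
  have := (planar_sys zero_le_one M).hr k
  rwa [wt_one, wt_one, one_mul] at this

/-! ## the rigid sums -/

theorem cvL_small {r : ℕ → ℝ} (h0 : r 0 = 0) (l : List (ℕ → ℝ)) :
    ∀ v k, k < v → cvL (List.replicate v r ++ l) k = 0 := by
  intro v
  induction v with
  | zero => intro k hk; omega
  | succ v ih =>
    intro k hk
    rw [List.replicate_succ, List.cons_append, cvL_cons]
    unfold cv
    refine sum_eq_zero fun ij hij => ?_
    have h1 := mem_antidiagonal.1 hij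
    rcases Nat.eq_zero_or_pos ij.1 with h2 | h2
    · rw [h2, h0, zero_mul]
    · rw [ih ij.2 (by omega), mul_zero]

theorem hN_nonneg (v e : ℕ) : 0 ≤ hN v e := by
  unfold hN; positivity

theorem invP_PGT : InvP PGT := fun _ _ _ _ _ _ _ _ => trivial

theorem hN_supp {v e : ℕ} (h : hN v e ≠ 0) : 2 ≤ v ∧ 3 * (v + 2) ≤ 2 * (e + 1) ∧ e + 7 ≤ 3 * (v + 2) := by
  rw [hN_eq] at h
  exact hP_zero invP_PGT h

theorem hN_zero_left (e : ℕ) : hN 0 e = 0 := by
  by_contra h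
  have := (hN_supp h).1
  omega

theorem hN_le_gP (v e : ℕ) : hN v e ≤ gP PGT v e := by
  rw [hN_eq]
  exact h_le_g invP_PGT v e

theorem gP_le_hN (v e : ℕ) : gP PGT v e ≤ 2 * hN v e := by
  rw [hN_eq]
  exact g_le_h invP_PGT v e

theorem tsum_fin {ι : Type*} (F : Finset ι) (c : ι → ℝ) (f : ι → ℕ → ℝ)
    (hs : ∀ t, Summable (f t)) :
    ∑' k, ∑ t ∈ F, c t * f t k = ∑ t ∈ F, c t * ∑' k, f t k := by
  rw [Summable.tsum_finsetSum fun t _ => (hs t).mul_left (c t)]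
  exact sum_congr rfl fun t _ => tsum_mul_left

/-- the rigid part at a point where all sums converge, abstract form -/
theorem h_sum_abs {r d b : ℕ → ℝ} {h : ℕ → ℕ → ℝ} (hr : ∀ k, 0 ≤ r k) (hd : ∀ k, 0 ≤ d k)
    (hh : ∀ v e, 0 ≤ h v e) (r0 : r 0 = 0) (hsupp : ∀ v e, h v e ≠ 0 → e + 7 ≤ 3 * (v + 2))
    (sr : Summable r) (sd : Summable d) (sb : Summable b)
    (hb : ∀ k, ∑ v ∈ range (k + 1), ∑ e ∈ range ((k + 2) ^ 2),
      h v e * cvL (List.replicate v r ++ List.replicate e d) k ≤ b k)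
    (F : Finset (ℕ × ℕ)) :
    ∑ t ∈ F, h t.1 t.2 * ((∑' k, r k) ^ t.1 * (∑' k, d k) ^ t.2) ≤ ∑' k, b k := by
  have hcv : ∀ t : ℕ × ℕ, Summable (cvL (List.replicate t.1 r ++ List.replicate t.2 d)) := by
    intro t
    refine (summable_cvL ?_).1
    intro f hf
    rcases List.mem_append.1 hf with h' | h'
    · rw [List.eq_of_mem_replicate h']; exact ⟨hr, sr⟩
    · rw [List.eq_of_mem_replicate h']; exact ⟨hd, sd⟩
  have hcv0 : ∀ (t : ℕ × ℕ) k, 0 ≤ cvL (List.replicate t.1 r ++ List.replicate t.2 d) k := by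
    intro t k
    refine Hv.cvL_nonneg ?_ k
    intro f hf
    rcases List.mem_append.1 hf with h' | h'
    · rw [List.eq_of_mem_replicate h']; exact hr
    · rw [List.eq_of_mem_replicate h']; exact hd
  have h1 : ∑ t ∈ F, h t.1 t.2 * ((∑' k, r k) ^ t.1 * (∑' k, d k) ^ t.2) =
      ∑' k, ∑ t ∈ F, h t.1 t.2 * cvL (List.replicate t.1 r ++ List.replicate t.2 d) k := by
    rw [tsum_fin F (fun t => h t.1 t.2)
      (fun t => cvL (List.replicate t.1 r ++ List.replicate t.2 d)) hcv]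
    refine sum_congr rfl fun t _ => ?_
    rw [tsum_cvL_rd hr hd sr sd]
  rw [h1]
  have hsum : Summable fun k => ∑ t ∈ F, h t.1 t.2 *
      cvL (List.replicate t.1 r ++ List.replicate t.2 d) k :=
    summable_sum fun t _ => (hcv t).mul_left _
  refine Summable.tsum_le_tsum (fun k => ?_) hsum sb
  refine le_trans ?_ (hb k)
  have hpr := Finset.sum_product' (range (k + 1)) (range ((k + 2) ^ 2)) (fun v e => h v e *
    cvL (List.replicate v r ++ List.replicate e d) k)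
  refine le_trans ?_ hpr.le
  have h3 : ∑ t ∈ F, h t.1 t.2 * cvL (List.replicate t.1 r ++ List.replicate t.2 d) k =
      ∑ t ∈ F.filter (fun t => t ∈ range (k + 1) ×ˢ range ((k + 2) ^ 2)),
        h t.1 t.2 * cvL (List.replicate t.1 r ++ List.replicate t.2 d) k := by
    rw [sum_filter]
    refine sum_congr rfl fun t _ => ?_
    split_ifs with h4
    · rfl
    · rw [mem_product, mem_range, mem_range, not_and_or] at h4
      by_cases h5 : k < t.1
      · rw [cvL_small r0 _ _ _ h5, mul_zero]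
      · have h6 : ¬ t.2 < (k + 2) ^ 2 := by
          rcases h4 with h4 | h4
          · omega
          · exact h4
        have h7 : h t.1 t.2 = 0 := by
          by_contra h8
          have h9 := hsupp _ _ h8
          nlinarith
        rw [h7, zero_mul]
  rw [h3]
  exact sum_le_sum_of_subset_of_nonneg (fun t ht => (mem_filter.1 ht).2) fun t _ _ =>
    mul_nonneg (hh _ _) (hcv0 _ _)

/-- the rigid part at a point where all sums converge -/
theorem h_sum_leA {x : ℝ} (hx : 0 ≤ x) (sr : Summable (wt (rN ⊤) x)) (sd : Summable (wt (dN ⊤) x))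
    (sb : Summable (wt (bN ⊤) x)) (F : Finset (ℕ × ℕ)) :
    ∑ t ∈ F, hN t.1 t.2 * ((∑' k, wt (rN ⊤) x k) ^ t.1 * (∑' k, wt (dN ⊤) x k) ^ t.2) ≤
      ∑' k, wt (bN ⊤) x k := by
  refine h_sum_abs (wt_nonneg (rN_nonneg ⊤) hx) (wt_nonneg (dN_nonneg ⊤) hx) hN_nonneg
    (by unfold wt; rw [rN_zero, zero_mul]) (fun v e hh => (hN_supp hh).2.2) sr sd sb ?_ F
  intro k
  have h := planar_low hx k
  unfold Hc at h
  refine le_trans (le_of_eq ?_) h
  refine sum_congr rfl fun v _ => sum_congr rfl fun e _ => ?_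
  rw [if_pos (ENat.natCast_lt_top _)]

theorem Rg_le {s E B : ℝ} (hs : 0 ≤ s) (hE : 0 ≤ E)
    (h : ∀ F : Finset (ℕ × ℕ), ∑ t ∈ F, hN t.1 t.2 * (s ^ t.1 * E ^ t.2) ≤ B) :
    Rg (ENNReal.ofReal s) (ENNReal.ofReal E) ≤ ENNReal.ofReal (2 * B) := by
  rw [Rg_gP, ← ENNReal.tsum_prod (f := fun v e => ENNReal.ofReal (gP PGT v e) *
    (ENNReal.ofReal s ^ v * ENNReal.ofReal E ^ e)), ENNReal.tsum_eq_iSup_sum]
  refine iSup_le fun F => ?_
  have h1 : ∑ t ∈ F, ENNReal.ofReal (gP PGT t.1 t.2) * (ENNReal.ofReal s ^ t.1 *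
      ENNReal.ofReal E ^ t.2) = ENNReal.ofReal (∑ t ∈ F, gP PGT t.1 t.2 * (s ^ t.1 * E ^ t.2)) := by
    rw [ENNReal.ofReal_sum_of_nonneg fun t _ => mul_nonneg (gP_nonneg _ _ _) (by positivity)]
    refine sum_congr rfl fun t _ => ?_
    rw [ENNReal.ofReal_mul (gP_nonneg _ _ _), ENNReal.ofReal_mul (by positivity),
      ENNReal.ofReal_pow hs, ENNReal.ofReal_pow hE]
  rw [h1]
  apply ENNReal.ofReal_le_ofReal
  calc ∑ t ∈ F, gP PGT t.1 t.2 * (s ^ t.1 * E ^ t.2) ≤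
        ∑ t ∈ F, 2 * (hN t.1 t.2 * (s ^ t.1 * E ^ t.2)) := by
        refine sum_le_sum fun t _ => ?_
        have := gP_le_hN t.1 t.2
        have h2 : 0 ≤ s ^ t.1 * E ^ t.2 := by positivity
        calc gP PGT t.1 t.2 * (s ^ t.1 * E ^ t.2) ≤ (2 * hN t.1 t.2) * (s ^ t.1 * E ^ t.2) :=
              mul_le_mul_of_nonneg_right this h2
          _ = _ := by ring
    _ = 2 * ∑ t ∈ F, hN t.1 t.2 * (s ^ t.1 * E ^ t.2) := by rw [mul_sum]
    _ ≤ 2 * B := by have := h F; linarith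

/-- the position of the point `(R, D)` -/
theorem point {x : ℝ} (hx : 0 < x) (sr : Summable (wt (rN ⊤) x)) (sd : Summable (wt (dN ⊤) x))
    (sb : Summable (wt (bN ⊤) x)) :
    0 < ∑' k, wt (rN ⊤) x k ∧ ∑' k, wt (rN ⊤) x k ≤ 476 / 10000 ∧ 1 ≤ ∑' k, wt (dN ⊤) x k ∧
      ∑' k, wt (dN ⊤) x k ≤ ecr (vc (∑' k, wt (rN ⊤) x k)) := by
  have hr := wt_nonneg (rN_nonneg ⊤) hx.le
  have hd := wt_nonneg (dN_nonneg ⊤) hx.le
  have hb := wt_nonneg (bN_nonneg ⊤) hx.le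
  have hF := h_sum_leA hx.le sr sd sb
  set R := ∑' k, wt (rN ⊤) x k with hR
  set D := ∑' k, wt (dN ⊤) x k with hD
  set B := ∑' k, wt (bN ⊤) x k with hBd
  have hR0 : 0 < R := by
    have h1 : wt (rN ⊤) x 1 ≤ R := sr.le_tsum 1 fun k _ => hr k
    have h2 : 0 < wt (rN ⊤) x 1 := by
      unfold wt
      rw [rN_succ, rE_zero, one_mul, pow_one]
      exact hx
    linarith
  have hD1 : 1 ≤ D := by
    have h1 : wt (dN ⊤) x 0 ≤ D := sd.le_tsum 0 fun k _ => hd k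
    have h2 : wt (dN ⊤) x 0 = 1 := by
      unfold wt
      rw [dN_zero, one_mul, pow_zero]
    linarith
  have hRg : Rg (ENNReal.ofReal R) (ENNReal.ofReal D) ≠ ⊤ :=
    ne_top_of_le_ne_top ENNReal.ofReal_ne_top (Rg_le hR0.le (by linarith) hF)
  have hR1 : R ≤ 476 / 10000 := by
    by_contra hcon
    push Not at hcon
    have hs0 : 0 < min R (1 / 10) := lt_min hR0 (by norm_num)
    obtain ⟨t, ht0, ht1, hts⟩ := scr_surj hs0
    have h1 : 476 / 10000 < scr t := by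
      rw [hts]; exact lt_min hcon (by norm_num)
    have h2 : t < 6076 / 10000 := by
      by_contra h3
      push Not at h3
      have h4 := scr_strictAntiOn.antitoneOn (⟨by norm_num, by norm_num⟩ :
        (6076 / 10000 : ℝ) ∈ Set.Ioo (0 : ℝ) 1) ⟨ht0, ht1⟩ h3
      have h5 : scr (6076 / 10000) ≤ 476 / 10000 := by unfold scr; norm_num
      linarith
    have h3 : ecr t < 1 := by
      have h4 := ecr_strictMonoOn ⟨ht0, ht1⟩ (⟨by norm_num, by norm_num⟩ :
        (6076 / 10000 : ℝ) ∈ Set.Ioo (0 : ℝ) 1) h2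
      have h5 : ecr (6076 / 10000) ≤ 1 := by unfold ecr; norm_num
      linarith
    have h4 := Rg_top ht0 ht1 (by rw [hts]; exact min_le_right _ _) (h3.trans_le hD1)
    have h5 : Rg (ENNReal.ofReal (scr t)) (ENNReal.ofReal D) ≤
        Rg (ENNReal.ofReal R) (ENNReal.ofReal D) := by
      refine Rg_mono (ENNReal.ofReal_le_ofReal ?_) le_rfl
      rw [hts]; exact min_le_left _ _
    rw [h4] at h5
    exact hRg (top_le_iff.1 h5)
  refine ⟨hR0, hR1, hD1, ?_⟩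
  by_contra hcon
  push Not at hcon
  have hR2 : R < 1 := by linarith
  have h1 := Rg_top (vc_pos hR0 hR2) (vc_lt_one hR0 hR2) (by rw [scr_vc hR0 hR2]; linarith) hcon
  rw [scr_vc hR0 hR2] at h1
  exact hRg h1

end Dia
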