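import Pool.Agent.DiaA.Pt

/-!
# The radius of convergence: range, sums at the radius
-/

set_option linter.unusedSectionVars false

namespace Dia
open Finset PGr Pool.Agent.DiamP

theorem dN_le_q (M : ℕ∞) (k : ℕ) : dN M k ≤ 2 * qN M k := by
  rcases Nat.eq_zero_or_pos k with hk | hk
  · subst hk; rw [dN_zero, qN_zero]; norm_num
  · rw [dN_eq M hk]

theorem qN_le_dN (M : ℕ∞) (k : ℕ) : qN M k ≤ dN M k := by
  rcases Nat.eq_zero_or_pos k with hk | hk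
  · subst hk; rw [dN_zero, qN_zero]
  · rw [dN_eq M hk]; linarith [qN_nonneg M k]

theorem summable_geo1 {θ : ℝ} (h0 : 0 ≤ θ) (h1 : θ < 1) :
    Summable fun k : ℕ => ((k : ℝ) + 1) * θ ^ k := by
  have h2 : Summable fun k : ℕ => (k : ℝ) ^ 1 * θ ^ k :=
    summable_pow_mul_geometric_of_norm_lt_one 1 (by rwa [Real.norm_of_nonneg h0])
  have h3 := h2.add (summable_geometric_of_lt_one h0 h1)
  refine h3.congr fun k => ?_
  rw [pow_one]; ring

theorem sum_q_of {x x' : ℝ} (h0 : 0 ≤ x') (h1 : x' < x) (sr : Summable (wt (rN ⊤) x)) :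
    Summable (wt (qN ⊤) x') := by
  have hx : 0 < x := h0.trans_lt h1
  set C := ∑' k, wt (rN ⊤) x k with hC
  have hθ0 : 0 ≤ x' / x := div_nonneg h0 hx.le
  have hθ1 : x' / x < 1 := (div_lt_one hx).2 h1
  refine Summable.of_nonneg_of_le (wt_nonneg (qN_nonneg ⊤) h0) (fun k => ?_)
    ((summable_geo1 hθ0 hθ1).mul_left (C / x ^ 2))
  have h2 : wt (rN ⊤) x (k + 2) ≤ C := sr.le_tsum _ fun j _ => wt_nonneg (rN_nonneg ⊤) hx.le j
  have h3 : rN ⊤ (k + 2) * x ^ k ≤ C / x ^ 2 := by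
    rw [le_div_iff₀ (by positivity)]
    refine le_trans (le_of_eq ?_) h2
    unfold wt
    rw [pow_add, mul_assoc]
  have h4 : x' ^ k = x ^ k * (x' / x) ^ k := by
    rw [← mul_pow, mul_div_cancel₀ _ hx.ne']
  calc wt (qN ⊤) x' k ≤ ((k + 1) * rN ⊤ (k + 2)) * x' ^ k :=
        mul_le_mul_of_nonneg_right (qN_le_r k) (pow_nonneg h0 k)
    _ = (rN ⊤ (k + 2) * x ^ k) * (((k : ℝ) + 1) * (x' / x) ^ k) := by rw [h4]; ring
    _ ≤ C / x ^ 2 * (((k : ℝ) + 1) * (x' / x) ^ k) :=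
        mul_le_mul_of_nonneg_right h3 (by positivity)

theorem sum_d_of_q {x : ℝ} (h0 : 0 ≤ x) (h : Summable (wt (qN ⊤) x)) : Summable (wt (dN ⊤) x) :=
  Summable.of_nonneg_of_le (wt_nonneg (dN_nonneg ⊤) h0)
    (fun k => (mul_le_mul_of_nonneg_right (dN_le_q ⊤ k) (pow_nonneg h0 k)).trans
      (le_of_eq (mul_assoc _ _ _))) (h.mul_left 2)

theorem sum_b_of_q {x : ℝ} (h0 : 0 ≤ x) (h : Summable (wt (qN ⊤) x)) : Summable (wt (bN ⊤) x) :=
  Summable.of_nonneg_of_le (wt_nonneg (bN_nonneg ⊤) h0)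
    (fun k => mul_le_mul_of_nonneg_right (bN_le_qN ⊤ k) (pow_nonneg h0 k)) h

theorem rN_two_ge : 1 ≤ rN ⊤ 2 := by
  have h := rN_pos 2 (by norm_num)
  unfold rN sh es1 at h ⊢
  rw [if_neg (by norm_num)] at h ⊢
  rw [show (2 - 1 : ℕ).factorial = 1 from rfl, Nat.cast_one, div_one] at h ⊢
  exact_mod_cast Nat.one_le_iff_ne_zero.2 (by
    intro h1
    rw [h1] at h
    exact lt_irrefl _ (by exact_mod_cast h))

/-- lower bound of the sum -/
theorem R_ge {x : ℝ} (h0 : 0 ≤ x) (sr : Summable (wt (rN ⊤) x)) :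
    x + x ^ 2 ≤ ∑' k, wt (rN ⊤) x k := by
  have h1 : ∑ k ∈ range 3, wt (rN ⊤) x k ≤ ∑' k, wt (rN ⊤) x k :=
    sr.sum_le_tsum _ fun k _ => wt_nonneg (rN_nonneg ⊤) h0 k
  refine le_trans ?_ h1
  rw [sum_range_succ, sum_range_succ, sum_range_succ, sum_range_zero]
  unfold wt
  rw [rN_zero, rN_one]
  have h2 : 1 * x ^ 2 ≤ rN ⊤ 2 * x ^ 2 := mul_le_mul_of_nonneg_right rN_two_ge (sq_nonneg x)
  linarith

theorem S_le {x : ℝ} (h0 : 0 ≤ x) (sr : Summable (wt (rN ⊤) x)) : x ≤ 476 / 10000 := by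
  by_contra hcon
  push Not at hcon
  obtain ⟨x', h1, h2⟩ := exists_between hcon
  have h3 : 0 < x' := lt_trans (by norm_num) h1
  have sq := sum_q_of h3.le h2 sr
  have sr' := wt_summable_mono (rN_nonneg ⊤) h3.le h2.le sr
  have h4 := point h3 sr' (sum_d_of_q h3.le sq) (sum_b_of_q h3.le sq)
  have h5 := R_ge h3.le sr'
  nlinarith [h4.2.1]

theorem S_bdd : BddAbove {x : ℝ | 0 ≤ x ∧ Summable (wt (rN ⊤) x)} :=
  ⟨476 / 10000, fun _ hx => S_le hx.1 hx.2⟩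

theorem sum_r_small {x : ℝ} (h0 : 0 ≤ x) (h1 : x < 10 / 277) : Summable (wt (rN ⊤) x) := by
  have hθ0 : 0 ≤ 277 / 10 * x := by positivity
  have hθ1 : 277 / 10 * x < 1 := by linarith
  rw [← summable_nat_add_iff 1]
  refine Summable.of_nonneg_of_le (fun k => wt_nonneg (rN_nonneg ⊤) h0 _) (fun k => ?_)
    ((summable_geo1 hθ0 hθ1).mul_left (47 / 1250 * (277 / 10) ^ 2 * x))
  have h2 : rN ⊤ (k + 1) ≤ ((k : ℝ) + 1) * (47 / 1250 * (277 / 10) ^ (k + 1 + 1)) := by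
    refine (rN_le_g k).trans ?_
    refine mul_le_mul_of_nonneg_left ((gN_le_u (k + 1)).trans (u_bound (k + 1))) (by positivity)
  calc wt (rN ⊤) x (k + 1) = rN ⊤ (k + 1) * x ^ (k + 1) := rfl
    _ ≤ (((k : ℝ) + 1) * (47 / 1250 * (277 / 10) ^ (k + 1 + 1))) * x ^ (k + 1) :=
        mul_le_mul_of_nonneg_right h2 (by positivity)
    _ = 47 / 1250 * (277 / 10) ^ 2 * x * (((k : ℝ) + 1) * (277 / 10 * x) ^ k) := by
        rw [mul_pow]; ring

theorem rho_ge : 10 / 277 ≤ rho := by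
  by_contra hcon
  push Not at hcon
  obtain ⟨x, h1, h2⟩ := exists_between (max_lt hcon (by norm_num : (0 : ℝ) < 10 / 277))
  have h0 : 0 ≤ x := (le_max_right _ _).trans h1.le
  have h3 : x ≤ rho := le_csSup S_bdd ⟨h0, sum_r_small h0 h2⟩
  have h4 := (le_max_left rho 0).trans_lt h1
  linarith

theorem rho_pos : 0 < rho := lt_of_lt_of_le (by norm_num) rho_ge

/-- below the radius -/
theorem below {x : ℝ} (h0 : 0 ≤ x) (h1 : x < rho) : Summable (wt (rN ⊤) x) ∧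
    Summable (wt (dN ⊤) x) ∧ Summable (wt (bN ⊤) x) := by
  have hne : {x : ℝ | 0 ≤ x ∧ Summable (wt (rN ⊤) x)}.Nonempty :=
    ⟨0, le_rfl, sum_r_small le_rfl (by norm_num)⟩
  obtain ⟨z, hz, hxz⟩ := exists_lt_of_lt_csSup hne h1
  have sq := sum_q_of h0 hxz hz.2
  exact ⟨wt_summable_mono (rN_nonneg ⊤) h0 hxz.le hz.2, sum_d_of_q h0 sq, sum_b_of_q h0 sq⟩

theorem above {x : ℝ} (h1 : rho < x) : ¬ Summable (wt (rN ⊤) x) := by
  intro h
  have h2 : x ≤ rho := le_csSup S_bdd ⟨rho_pos.le.trans h1.le, h⟩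
  linarith

theorem lim_le {f : ℕ → ℝ} (hf : ∀ k, 0 ≤ f k) {B x1 : ℝ} (hx1 : 0 ≤ x1) (hx2 : x1 < rho)
    (h : ∀ x', x1 < x' → x' < rho → Summable (wt f x') ∧ ∑' k, wt f x' k ≤ B) :
    Summable (wt f rho) ∧ ∑' k, wt f rho k ≤ B := by
  have key : ∀ n, ∑ k ∈ range n, wt f rho k ≤ B := by
    intro n
    have hcont : Filter.Tendsto (fun x : ℝ => ∑ k ∈ range n, wt f x k) (nhdsWithin rho (Set.Iio rho))
        (nhds (∑ k ∈ range n, wt f rho k)) := by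
      refine (Continuous.tendsto ?_ rho).mono_left nhdsWithin_le_nhds
      unfold wt
      fun_prop
    refine le_of_tendsto hcont ?_
    filter_upwards [Ioo_mem_nhdsLT hx2] with x' hx'
    obtain ⟨h3, h4⟩ := h x' hx'.1 hx'.2
    exact (h3.sum_le_tsum _ fun k _ => wt_nonneg hf (hx1.trans hx'.1.le) k).trans h4
  exact ⟨summable_of_sum_range_le (wt_nonneg hf rho_pos.le) key,
    Real.tsum_le_of_sum_range_le (wt_nonneg hf rho_pos.le) key⟩

theorem R_below : ∀ x', (0 : ℝ) < x' → x' < rho → Summable (wt (rN ⊤) x') ∧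
    ∑' k, wt (rN ⊤) x' k ≤ 476 / 10000 := by
  intro x' h0 h1
  obtain ⟨s1, s2, s3⟩ := below h0.le h1
  exact ⟨s1, (point h0 s1 s2 s3).2.1⟩

theorem D_below : ∀ x', (358 / 10000 : ℝ) < x' → x' < rho → Summable (wt (dN ⊤) x') ∧
    ∑' k, wt (dN ⊤) x' k ≤ 1111 / 1000 := by
  intro x' h0 h1
  have h0' : 0 < x' := lt_trans (by norm_num) h0
  obtain ⟨s1, s2, s3⟩ := below h0'.le h1
  have h2 := point h0' s1 s2 s3
  have h3 := R_ge h0'.le s1
  have h4 : 37 / 1000 ≤ ∑' k, wt (rN ⊤) x' k := by nlinarith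
  exact ⟨s2, h2.2.2.2.trans (ecr_vc_range h4 h2.2.1).2⟩

theorem sum_r : Summable (wt (rN ⊤) rho) := (lim_le (rN_nonneg ⊤) le_rfl rho_pos R_below).1

theorem sum_d : Summable (wt (dN ⊤) rho) :=
  (lim_le (dN_nonneg ⊤) (by norm_num) (lt_of_lt_of_le (by norm_num) rho_ge) D_below).1

theorem sum_qA : Summable (wt (qN ⊤) rho) :=
  Summable.of_nonneg_of_le (wt_nonneg (qN_nonneg ⊤) rho_pos.le)
    (fun k => mul_le_mul_of_nonneg_right (qN_le_dN ⊤ k) (pow_nonneg rho_pos.le k)) sum_d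

theorem sum_b : Summable (wt (bN ⊤) rho) := sum_b_of_q rho_pos.le sum_qA

theorem R0_range : 37 / 1000 ≤ R0 ∧ R0 ≤ 476 / 10000 := by
  refine ⟨?_, (lim_le (rN_nonneg ⊤) le_rfl rho_pos R_below).2⟩
  have h1 := R_ge rho_pos.le sum_r
  have h2 := rho_ge
  unfold R0
  nlinarith

theorem R0_posA : 0 < R0 := lt_of_lt_of_le (by norm_num) R0_range.1

theorem D0_range : 1 ≤ D0 ∧ D0 ≤ 1111 / 1000 := by
  refine ⟨(point rho_pos sum_r sum_d sum_b).2.2.1,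
    (lim_le (dN_nonneg ⊤) (by norm_num) (lt_of_lt_of_le (by norm_num) rho_ge) D_below).2⟩

theorem D0_pos : 0 < D0 := lt_of_lt_of_le (by norm_num) D0_range.1

theorem D0_le : D0 ≤ ecr (vc R0) := (point rho_pos sum_r sum_d sum_b).2.2.2

theorem g_log {x : ℝ} (hx : 0 ≤ x) (M : ℕ∞) (k : ℕ) :
    (k : ℝ) * wt (gN M) x k ≤ cv (fun j : ℕ => (j : ℝ) * (wt (rN M) x j / j)) (wt (gN M) x) k := by
  refine (planar_g hx M k).trans (le_of_eq ?_)
  unfold cv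
  refine sum_congr rfl fun ij _ => ?_
  congr 1
  rcases Nat.eq_zero_or_pos ij.1 with h | h
  · rw [h]; unfold wt; rw [rN_zero]; simp
  · have : (ij.1 : ℝ) ≠ 0 := by exact_mod_cast h.ne'
    field_simp

theorem div_self_le {a : ℝ} (ha : 0 ≤ a) (k : ℕ) : a / (k : ℝ) ≤ a := by
  rcases Nat.eq_zero_or_pos k with h | h
  · rw [h]; simpa using ha
  · exact div_le_self ha (by exact_mod_cast h)

theorem sum_g : Summable (wt (gN ⊤) rho) := by
  have hr := wt_nonneg (rN_nonneg ⊤) rho_pos.le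
  refine summable_of_sum_range_le (c := Real.exp R0) (wt_nonneg (gN_nonneg ⊤) rho_pos.le) fun n => ?_
  have h1 := logder_zero (f := wt (gN ⊤) rho) (g := fun j : ℕ => wt (rN ⊤) rho j / j)
    (wt_nonneg (gN_nonneg ⊤) rho_pos.le) (fun k => div_nonneg (hr k) (Nat.cast_nonneg _))
    (g_log rho_pos.le ⊤) n
  have h2 : ∑ k ∈ range n, wt (gN ⊤) rho k ≤ ts (wt (gN ⊤) rho) n := by
    unfold ts
    rw [sum_range_succ]
    linarith [wt_nonneg (gN_nonneg ⊤) rho_pos.le n]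
  refine h2.trans (h1.trans ?_)
  have h3 : wt (gN ⊤) rho 0 = 1 := by unfold wt; rw [gN_zero, pow_zero, mul_one]
  rw [h3, one_mul, Real.exp_le_exp]
  calc ∑ k ∈ range n, wt (rN ⊤) rho (k + 1) / ((k + 1 : ℕ) : ℝ) ≤
        ∑ k ∈ range n, wt (rN ⊤) rho (k + 1) := sum_le_sum fun k _ => div_self_le (hr _) _
    _ ≤ ∑ k ∈ range (n + 1), wt (rN ⊤) rho k := by
        rw [sum_range_succ' (fun k => wt (rN ⊤) rho k)]
        linarith [hr 0]
    _ ≤ R0 := sum_r.sum_le_tsum _ fun k _ => hr k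

end Dia
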