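import Pool.Agent.DiaA.Tau

/-!
# Module TauB: weights by the number of edges

`tq_eq`: `rc_gP` (RotF) and `rhoS_ofReal`.
`tau_far`: `tau_V` (DiaC/Bridge) and `g_sum` (RotF) with
`F v e = if e = j ∧ j^(3/5) ≤ |v + 2 - alpha j| then ofReal (x^v ecr^e) else 0` (rigid maps have `nV ≥ 2`).
-/

set_option linter.unusedSectionVars false

namespace Dia
open Finset PGr Pool.Agent.DiamP
open scoped ENNReal

private theorem TauB_rho {x : ℝ} (h0 : 0 < x) (h1 : x < 1) (e : ℕ) :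
    rhoS x e = ∑ v ∈ range (e + 1), gP PGT v e * x ^ v := by
  have h := rhoS_ofReal h0 h1 e
  rw [rc_gP] at h
  have h2 : ∑ v ∈ range (e + 1), ENNReal.ofReal (gP PGT v e) * ENNReal.ofReal x ^ v =
      ENNReal.ofReal (∑ v ∈ range (e + 1), gP PGT v e * x ^ v) := by
    rw [ENNReal.ofReal_sum_of_nonneg (fun v _ => mul_nonneg (gP_nonneg _ _ _) (by positivity))]
    refine Finset.sum_congr rfl fun v _ => ?_
    rw [ENNReal.ofReal_mul (gP_nonneg _ _ _), ENNReal.ofReal_pow h0.le]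
  rw [h2] at h
  have h3 : (0 : ℝ) ≤ ∑ v ∈ range (e + 1), gP PGT v e * x ^ v :=
    Finset.sum_nonneg fun v _ => mul_nonneg (gP_nonneg _ _ _) (by positivity)
  have h4 := congrArg ENNReal.toReal h
  rwa [ENNReal.toReal_ofReal (rhoS_nonneg x e), ENNReal.toReal_ofReal h3] at h4

/-- the weight of the rigid maps with `e` nonroot edges -/
theorem tq_eq {x : ℝ} (h0 : 0 < x) (h1 : x < 1) (e : ℕ) :
    ∑ v ∈ range (e + 1), gP PGT v e * (x ^ v * ecr (vc x) ^ e) = rhoS x e * ecr (vc x) ^ e := by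
  rw [TauB_rho h0 h1, Finset.sum_mul]
  exact Finset.sum_congr rfl fun v _ => by ring

/-- few rigid maps with an exceptional number of vertices -/
theorem tau_far {x : ℝ} (h0 : 37 / 1000 ≤ x) (h1 : x ≤ 476 / 10000) :
    ∃ j0 : ℕ, ∀ j : ℕ, j0 ≤ j →
      ∑ v ∈ (range (j + 1)).filter (fun v : ℕ => (j : ℝ) ^ (3 / 5 : ℝ) ≤
        |((v : ℝ) + 2) - alpha (vc x) * j|), gP PGT v j * (x ^ v * ecr (vc x) ^ j) ≤
      Real.exp (-(j : ℝ) ^ (1 / 10 : ℝ)) := by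
  classical
  have hx0 : 0 < x := by linarith
  have hx1 : x < 1 := by linarith
  have hD : 0 < ecr (vc x) := ecr_vc_pos hx0 hx1
  obtain ⟨_, j0, hj0⟩ := tau_V h0 h1
  refine ⟨j0, fun j hj => ?_⟩
  have hV := hj0 j hj
  set p : ℕ → Prop := fun v => (j : ℝ) ^ (3 / 5 : ℝ) ≤ |((v : ℝ) + 2) - alpha (vc x) * j| with hp
  set F : ℕ → ℕ → ℝ≥0∞ := fun v e => if e = j ∧ p v then
    ENNReal.ofReal (x ^ v * ecr (vc x) ^ e) else 0 with hF
  have key : tauS x (fun c => gE c = j ∧ (j : ℝ) ^ (3 / 5 : ℝ) ≤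
      |(nV c.rep.1.s : ℝ) - alpha (vc x) * j|) =
      ∑' v : ℕ, ∑' e : ℕ, ENNReal.ofReal (gP PGT v e) * F v e := by
    rw [← g_sum PGT F, tauS]
    refine tsum_congr fun c => ?_
    by_cases hR : Rigid c.rep.1
    · have h2 : 2 ≤ nV c.rep.1.s := Good.two_le_nV c.rep.2
      have h3 : ((nV c.rep.1.s - 2 : ℕ) : ℝ) + 2 = (nV c.rep.1.s : ℝ) := by
        rw [Nat.cast_sub h2]
        push_cast
        ring
      rw [if_pos (show Rigid c.rep.1 ∧ PGT _ (vG c.rep.1.aa c.rep.1.s)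
        (vx c.rep.1.s (Sum.inr false)) (vx c.rep.1.s (Sum.inr true)) from ⟨hR, trivial⟩)]
      simp only [hF, hp, h3]
      unfold gE
      by_cases h4 : Fintype.card c.rep.1.D / 2 = j ∧ (j : ℝ) ^ (3 / 5 : ℝ) ≤
        |(nV c.rep.1.s : ℝ) - alpha (vc x) * j|
      · rw [if_pos ⟨hR, h4⟩, if_pos h4]
      · rw [if_neg (fun h => h4 h.2), if_neg h4]
    · rw [if_neg (fun h => hR h.1), if_neg (fun h => hR h.1)]
  have h5 : ENNReal.ofReal (∑ v ∈ (range (j + 1)).filter p,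
      gP PGT v j * (x ^ v * ecr (vc x) ^ j)) ≤ ∑' v : ℕ, ∑' e : ℕ, ENNReal.ofReal (gP PGT v e) * F v e := by
    rw [ENNReal.ofReal_sum_of_nonneg
      (fun v _ => mul_nonneg (gP_nonneg _ _ _) (by positivity))]
    refine le_trans (Finset.sum_le_sum (g := fun v => ∑' e : ℕ, ENNReal.ofReal (gP PGT v e) * F v e)
      fun v hv => ?_) (ENNReal.sum_le_tsum _)
    refine le_trans (le_of_eq ?_) (ENNReal.le_tsum j)
    have hpv : p v := (Finset.mem_filter.mp hv).2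
    simp only [hF]
    rw [if_pos ⟨trivial, hpv⟩, ENNReal.ofReal_mul (gP_nonneg _ _ _)]
  have h6 := h5.trans (key ▸ hV)
  exact (ENNReal.ofReal_le_ofReal_iff (Real.exp_pos _).le).mp h6

end Dia
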