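import Pool.Agent.DiaA.Sub
import Pool.Agent.DiaA.TauB
import Pool.Agent.DiaA.Dyad

/-!
# Few graphs without a core of linear size
-/

set_option linter.unusedSectionVars false

namespace Dia
open Finset PGr Pool.Agent.DiamP
open scoped ENNReal

theorem tauG_eqA (e : ℕ) : tauG PGT e = rhoS R0 e * ecr (vc R0) ^ e := by
  rw [← tq_eq R0_posA (by linarith [R0_range.2]) e, crit_eq, tauG]
  exact sum_congr rfl fun v _ => mul_assoc _ _ _

theorem tauG_nn (e : ℕ) : 0 ≤ tauG PGT e := by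
  rw [tauG_eqA]
  exact mul_nonneg (rhoS_nonneg _ _) (pow_nonneg (by rw [crit_eq]; exact D0_pos.le) _)

theorem tauK : ∃ K : ℝ, 0 < K ∧
    (∀ N : ℕ, 1 ≤ N → ∀ J : Finset ℕ, (∀ j ∈ J, N ≤ j) →
      ∑ j ∈ J, tauG PGT j ≤ K * (N : ℝ) ^ (-(3 / 2) : ℝ)) ∧
    (∀ M : ℕ, 1 ≤ M → ∀ J : Finset ℕ, (∀ j ∈ J, j ≤ M) →
      ∑ j ∈ J, (j : ℝ) ^ 2 * tauG PGT j ≤ K * (M : ℝ) ^ (1 / 2 : ℝ)) := by
  obtain ⟨A, c', C, -, -, hC, -, hup⟩ := chap4 R0_range.1 R0_range.2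
  refine dyad_up tauG_nn hC fun n hn J hJ => ?_
  simp only [tauG_eqA]
  exact hup n hn J hJ

theorem fiber_le {f : ℕ × ℕ → ℝ} (hf : ∀ t, 0 ≤ f t) (hs : ∀ t, f t ≠ 0 → t.1 ≤ t.2)
    (F : Finset (ℕ × ℕ)) :
    ∑ t ∈ F, f t ≤ ∑ e ∈ F.image Prod.snd, ∑ v ∈ range (e + 1), f (v, e) := by
  classical
  rw [← sum_fiberwise_of_maps_to (g := Prod.snd) (t := F.image Prod.snd)
    (fun t ht => mem_image_of_mem _ ht) f]
  refine sum_le_sum fun e _ => ?_
  have h1 : ∑ t ∈ F.filter (fun t => t.2 = e), f t =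
      ∑ t ∈ (F.filter (fun t => t.2 = e)).filter (fun t => f t ≠ 0), f t :=
    (sum_filter_ne_zero _).symm
  rw [h1]
  have h2 : ∑ t ∈ (F.filter (fun t => t.2 = e)).filter (fun t => f t ≠ 0), f t =
      ∑ v ∈ ((F.filter (fun t => t.2 = e)).filter (fun t => f t ≠ 0)).image Prod.fst, f (v, e) := by
    rw [sum_image]
    · refine sum_congr rfl fun t ht => ?_
      have h3 : t.2 = e := (mem_filter.1 (mem_filter.1 ht).1).2
      rw [← h3]
    · intro a ha b hb hab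
      have h3 : a.2 = e := (mem_filter.1 (mem_filter.1 (mem_coe.1 ha)).1).2
      have h4 : b.2 = e := (mem_filter.1 (mem_filter.1 (mem_coe.1 hb)).1).2
      exact Prod.ext hab (h3.trans h4.symm)
  rw [h2]
  refine sum_le_sum_of_subset_of_nonneg (fun v hv => ?_) fun v _ _ => hf _
  obtain ⟨t, ht, rfl⟩ := mem_image.1 hv
  have h3 : t.2 = e := (mem_filter.1 (mem_filter.1 ht).1).2
  have h4 := hs t (mem_filter.1 ht).2
  rw [mem_range]; omega

theorem hN_le_e {v e : ℕ} (h : hN v e ≠ 0) : v ≤ e := by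
  have := (hN_supp h).2.1
  omega

theorem h_le_tau {w : ℕ → ℝ} (hw : ∀ e, 0 ≤ w e) (F : Finset (ℕ × ℕ)) :
    ∑ t ∈ F, hN t.1 t.2 * (R0 ^ t.1 * D0 ^ t.2) * w t.2 ≤
      ∑ e ∈ F.image Prod.snd, w e * tauG PGT e := by
  have hR := R0_posA.le
  have hD := D0_pos.le
  refine (fiber_le (f := fun t => hN t.1 t.2 * (R0 ^ t.1 * D0 ^ t.2) * w t.2)
    (fun t => mul_nonneg (mul_nonneg (hN_nonneg _ _) (by positivity)) (hw _))
    (fun t ht => hN_le_e fun h => ht (by simp only [h, zero_mul])) F).trans ?_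
  refine sum_le_sum fun e _ => ?_
  rw [tauG, mul_sum]
  refine sum_le_sum fun v _ => ?_
  have h1 : hN v e * (R0 ^ v * D0 ^ e) * w e ≤ gP PGT v e * (R0 ^ v * D0 ^ e) * w e :=
    mul_le_mul_of_nonneg_right (mul_le_mul_of_nonneg_right (hN_le_gP v e) (by positivity)) (hw e)
  exact h1.trans (le_of_eq (by ring))

/-- second order bound at the critical point -/
theorem hH_second {α β y : ℝ} (hα : 0 ≤ α) (hβ : 0 ≤ β) (hy : α / R0 + β / D0 ≤ y) {m N : ℕ}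
    {K : ℝ} (hK : ∀ M : ℕ, 1 ≤ M → ∀ J : Finset ℕ, (∀ j ∈ J, j ≤ M) →
      ∑ j ∈ J, (j : ℝ) ^ 2 * tauG PGT j ≤ K * (M : ℝ) ^ (1 / 2 : ℝ)) (hN1 : 1 ≤ N)
    (hmN : m ≤ N) (F : Finset (ℕ × ℕ)) (hF : ∀ t ∈ F, t.2 ≤ m) :
    ∑ t ∈ F, hN t.1 t.2 * ((R0 + α) ^ t.1 * (D0 + β) ^ t.2 - R0 ^ t.1 * D0 ^ t.2) ≤
      4 * α + 19 / 100 * β + y ^ 2 * Real.exp (m * y) * (K * (N : ℝ) ^ (1 / 2 : ℝ)) := by
  have hR := R0_posA
  have hD := D0_pos
  have e1 := h_RgE hR.le hD.le (by norm_num) RgE0 F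
  have e2 := h_RgS hR.le hD.le (by norm_num) RgS0 F
  have e3 := h_le_tau (w := fun e => (e : ℝ) ^ 2) (fun e => sq_nonneg _) F
  have e4 : ∑ e ∈ F.image Prod.snd, (e : ℝ) ^ 2 * tauG PGT e ≤ K * (N : ℝ) ^ (1 / 2 : ℝ) := by
    refine hK N hN1 _ fun j hj => ?_
    obtain ⟨t, ht, rfl⟩ := mem_image.1 hj
    exact (hF t ht).trans hmN
  have e5 : 0 ≤ y ^ 2 * Real.exp (m * y) := mul_nonneg (sq_nonneg _) (Real.exp_pos _).le
  calc ∑ t ∈ F, hN t.1 t.2 * ((R0 + α) ^ t.1 * (D0 + β) ^ t.2 - R0 ^ t.1 * D0 ^ t.2) ≤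
        ∑ t ∈ F, (α * (hN t.1 t.2 * (t.1 * R0 ^ (t.1 - 1) * D0 ^ t.2)) +
          β * (hN t.1 t.2 * (R0 ^ t.1 * (t.2 * D0 ^ (t.2 - 1)))) +
          y ^ 2 * Real.exp (m * y) * (hN t.1 t.2 * (R0 ^ t.1 * D0 ^ t.2) * (t.2 : ℝ) ^ 2)) := by
        refine sum_le_sum fun t ht => ?_
        by_cases h0 : hN t.1 t.2 = 0
        · rw [h0]; simp
        refine (mul_le_mul_of_nonneg_left (taylor2 hR hD hα hβ hy (hN_le_e h0) (hF t ht))
          (hN_nonneg t.1 t.2)).trans (le_of_eq ?_)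
        ring
    _ = α * ∑ t ∈ F, hN t.1 t.2 * (t.1 * R0 ^ (t.1 - 1) * D0 ^ t.2) +
          β * ∑ t ∈ F, hN t.1 t.2 * (R0 ^ t.1 * (t.2 * D0 ^ (t.2 - 1))) +
          y ^ 2 * Real.exp (m * y) *
            ∑ t ∈ F, hN t.1 t.2 * (R0 ^ t.1 * D0 ^ t.2) * (t.2 : ℝ) ^ 2 := by
        rw [sum_add_distrib, sum_add_distrib, mul_sum, mul_sum, mul_sum]
    _ ≤ α * 4 + β * (19 / 100) + y ^ 2 * Real.exp (m * y) * (K * (N : ℝ) ^ (1 / 2 : ℝ)) := by
        have e6 := e3.trans e4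
        gcongr
    _ = _ := by ring

/-- from the increments of `r` to the coefficients of `g` -/
theorem g_from_r (M : ℕ∞) {s : ℝ} (hs : 0 ≤ s) {C : ℝ} (n : ℕ)
    (h : inc (Real.exp s) (wt (rN M) rho) n ≤ C) :
    wt (gN M) rho n * Real.exp (s * n) ≤ G0 * Real.exp C := by
  have hy : 1 ≤ Real.exp s := Real.one_le_exp hs
  have hr := wt_nonneg (rN_nonneg M) rho_pos.le
  have hg := wt_nonneg (gN_nonneg M) rho_pos.le
  have h1 := logder_inc (f := wt (gN M) rho) (g := fun j : ℕ => wt (rN M) rho j / j) hg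
    (fun k => div_nonneg (hr k) (Nat.cast_nonneg _)) (g_log rho_pos.le M) n hy
  have h2 : inc (Real.exp s) (fun j : ℕ => wt (rN M) rho j / j) n ≤ C := by
    refine le_trans ?_ h
    exact sum_le_sum fun k _ => mul_le_mul_of_nonneg_right (div_self_le (hr k) k)
      (sub_nonneg.2 (one_le_pow₀ hy))
  have h3 : wt (gN M) rho n * (Real.exp s ^ n - 1) ≤ inc (Real.exp s) (wt (gN M) rho) n :=
    single_le_sum (f := fun k => wt (gN M) rho k * (Real.exp s ^ k - 1))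
      (fun k _ => mul_nonneg (hg k) (sub_nonneg.2 (one_le_pow₀ hy))) (self_mem_range_succ n)
  have h4 : wt (gN M) rho n ≤ ts (wt (gN M) rho) n :=
    single_le_sum (f := wt (gN M) rho) (fun k _ => hg k) (self_mem_range_succ n)
  have h5 : ts (wt (gN M) rho) n ≤ G0 :=
    (ts_mono (wt_mono_f (gN_mono le_top) rho_pos.le) n).trans
      (ts_le_tsum (wt_nonneg (gN_nonneg ⊤) rho_pos.le) sum_g n)
  have h6 : Real.exp s ^ n = Real.exp (s * n) := by
    rw [← Real.exp_nat_mul, mul_comm]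
  have h7 : Real.exp (inc (Real.exp s) (fun j : ℕ => wt (rN M) rho j / j) n) ≤ Real.exp C :=
    Real.exp_le_exp.2 h2
  have h8 : 0 ≤ ts (wt (gN M) rho) n := (hg n).trans h4
  rw [← h6]
  calc wt (gN M) rho n * Real.exp s ^ n =
        wt (gN M) rho n + wt (gN M) rho n * (Real.exp s ^ n - 1) := by ring
    _ ≤ ts (wt (gN M) rho) n + ts (wt (gN M) rho) n *
        (Real.exp (inc (Real.exp s) (fun j : ℕ => wt (rN M) rho j / j) n) - 1) := by linarith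
    _ = ts (wt (gN M) rho) n *
        Real.exp (inc (Real.exp s) (fun j : ℕ => wt (rN M) rho j / j) n) := by ring
    _ ≤ G0 * Real.exp C := mul_le_mul h5 h7 (Real.exp_pos _).le (h8.trans h5)

theorem large_n (K G : ℝ) : ∃ n0 : ℕ, ∀ n : ℕ, n0 ≤ n → 3 ≤ n ∧ 6 * Real.log n / n ≤ 1 / 1000 ∧
    96 * K * (Real.log n * (n : ℝ) ^ (-(26 / 100) : ℝ)) ≤ 1 / 100 ∧ 2 * G ≤ n := by
  have h1 : Filter.Tendsto (fun n : ℕ => 6 * Real.log n / n) Filter.atTop (nhds 0) := by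
    have h2 : Filter.Tendsto (fun x : ℝ => Real.log x / x) Filter.atTop (nhds 0) := by
      have := (isLittleO_log_rpow_atTop (r := 1) one_pos).tendsto_div_nhds_zero
      simpa using this
    have h3 := (h2.comp tendsto_natCast_atTop_atTop).const_mul 6
    rw [mul_zero] at h3
    refine h3.congr fun n => ?_
    simp only [Function.comp]
    ring
  have h2 : Filter.Tendsto (fun n : ℕ => 96 * K * (Real.log n * (n : ℝ) ^ (-(26 / 100) : ℝ)))
      Filter.atTop (nhds 0) := by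
    have h2 := (isLittleO_log_rpow_atTop (r := 26 / 100) (by norm_num)).tendsto_div_nhds_zero
    have h3 := (h2.comp tendsto_natCast_atTop_atTop).const_mul (96 * K)
    rw [mul_zero] at h3
    refine h3.congr fun n => ?_
    simp only [Function.comp]
    rw [Real.rpow_neg (Nat.cast_nonneg n), div_eq_mul_inv]
  have h3 := (h1.eventually (ge_mem_nhds (by norm_num : (0 : ℝ) < 1 / 1000))).and
    ((h2.eventually (ge_mem_nhds (by norm_num : (0 : ℝ) < 1 / 100))).and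
      ((tendsto_natCast_atTop_atTop.eventually_ge_atTop (2 * G)).and
        (Filter.eventually_ge_atTop 3)))
  obtain ⟨n0, hn0⟩ := Filter.eventually_atTop.1 h3
  refine ⟨n0, fun n hn => ?_⟩
  obtain ⟨a, b, c, d⟩ := hn0 n hn
  exact ⟨d, a, b, c⟩

/-- few graphs without big core -/
theorem no_core : ∃ ε : ℝ, 0 < ε ∧ ∃ n0 : ℕ, ∀ n : ℕ, n0 ≤ n → ∀ M : ℕ, (M : ℝ) ≤ ε * n →
    wt (gN M) rho n ≤ (n : ℝ) ^ (-5 : ℝ) := by
  obtain ⟨K, hK, -, hK2⟩ := tauK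
  obtain ⟨n0, hn0⟩ := large_n K G0
  refine ⟨1 / 100, by norm_num, n0, fun n hn M hM => ?_⟩
  obtain ⟨hn3, hs1, hlog, hG⟩ := hn0 n hn
  have hn0' : (0 : ℝ) < n := by exact_mod_cast (by omega : 0 < n)
  have hn1 : (3 : ℝ) ≤ n := by exact_mod_cast hn3
  have hL : 0 < Real.log n := Real.log_pos (by linarith)
  set s : ℝ := 6 * Real.log n / n with hs
  have hs0 : 0 < s := by positivity
  have hsn : s * n = 6 * Real.log n := by rw [hs]; field_simp
  have hMn : M ≤ n := by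
    have : (M : ℝ) ≤ n := by linarith
    exact_mod_cast this
  have hR := R0_range
  have hD := D0_range
  have hRp := R0_posA
  have hDp := D0_pos
  have key : ∀ F : Finset (ℕ × ℕ), (∀ t ∈ F, ((t.2 + 1 : ℕ) : ℕ∞) < (M : ℕ∞)) → ∀ α β : ℝ, 0 ≤ α →
      α ≤ 6 / 100 * s → 0 ≤ β → β ≤ 204 / 100 * s →
      ∑ t ∈ F, hN t.1 t.2 * ((R0 + α) ^ t.1 * (D0 + β) ^ t.2 - R0 ^ t.1 * D0 ^ t.2) ≤
        4 * α + 19 / 100 * β + s / 100 := by
    intro F hF α β hα hα' hβ hβ'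
    have hy : α / R0 + β / D0 ≤ 4 * s := by
      have h1 : α / R0 ≤ (6 / 100 * s) / (37 / 1000) :=
        div_le_div₀ (by positivity) hα' (by norm_num) hR.1
      have h2 : β / D0 ≤ (204 / 100 * s) / 1 := div_le_div₀ (by positivity) hβ' (by norm_num) hD.1
      have h3 : (6 / 100 * s) / (37 / 1000) + (204 / 100 * s) / 1 ≤ 4 * s := by
        rw [div_add_div _ _ (by norm_num) (by norm_num), div_le_iff₀ (by norm_num)]
        linarith
      linarith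
    have h1 := hH_second hα hβ hy hK2 (by omega : 1 ≤ n) hMn F fun t ht => by
      have := hF t ht
      have h2 : t.2 + 1 < M := by exact_mod_cast this
      omega
    refine h1.trans ?_
    have h2 : (4 * s) ^ 2 * Real.exp (M * (4 * s)) * (K * (n : ℝ) ^ (1 / 2 : ℝ)) ≤ s / 100 := by
      have h3 : Real.exp (M * (4 * s)) ≤ (n : ℝ) ^ (24 / 100 : ℝ) := by
        rw [Real.rpow_def_of_pos hn0', Real.exp_le_exp]
        have h4 : (M : ℝ) * (4 * s) ≤ (1 / 100 * n) * (4 * s) :=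
          mul_le_mul_of_nonneg_right hM (by positivity)
        have h5 : (1 / 100 * n) * (4 * s) = 4 / 100 * (s * n) := by ring
        rw [h5, hsn] at h4
        linarith
      have h4 : (n : ℝ) ^ (24 / 100 : ℝ) * (n : ℝ) ^ (1 / 2 : ℝ) =
          n * (n : ℝ) ^ (-(26 / 100) : ℝ) := by
        rw [← Real.rpow_add hn0']
        nth_rewrite 2 [← Real.rpow_one (n : ℝ)]
        rw [← Real.rpow_add hn0']
        norm_num
      calc (4 * s) ^ 2 * Real.exp (M * (4 * s)) * (K * (n : ℝ) ^ (1 / 2 : ℝ)) ≤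
            (4 * s) ^ 2 * (n : ℝ) ^ (24 / 100 : ℝ) * (K * (n : ℝ) ^ (1 / 2 : ℝ)) := by gcongr
        _ = 16 * s * K * s * ((n : ℝ) ^ (24 / 100 : ℝ) * (n : ℝ) ^ (1 / 2 : ℝ)) := by ring
        _ = 16 * s * K * (s * n) * (n : ℝ) ^ (-(26 / 100) : ℝ) := by rw [h4]; ring
        _ = s * (96 * K * (Real.log n * (n : ℝ) ^ (-(26 / 100) : ℝ))) := by rw [hsn]; ring
        _ ≤ s * (1 / 100) := mul_le_mul_of_nonneg_left hlog hs0.le
        _ = s / 100 := by ring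
    linarith
  have h1 := ctr (planar_sys rho_pos.le (M : ℕ∞)) rho_pos.le hN_nonneg hN_zero_left (ts_rN M)
    (ts_dN M) (ts_qN M) hR.2 hD.2 Q0_le hs0 hs1 key n
  have h2 := g_from_r (M : ℕ∞) hs0.le n h1.1
  rw [hsn] at h2
  have h3 : Real.exp (6 * Real.log n) = (n : ℝ) ^ (6 : ℝ) := by
    rw [Real.rpow_def_of_pos hn0', mul_comm]
  rw [h3] at h2
  have h4 : Real.exp (6 / 100 * s) ≤ 2 := by
    have h5 : Real.exp (6 / 100 * s) ≤ Real.exp (1 / 100) := Real.exp_le_exp.2 (by linarith)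
    have h6 := Real.exp_bound_div_one_sub_of_interval (x := 1 / 100) (by norm_num) (by norm_num)
    refine h5.trans (h6.trans ?_)
    norm_num
  have hG0 : 0 ≤ G0 := tsum_nonneg (wt_nonneg (gN_nonneg ⊤) rho_pos.le)
  have h5 : wt (gN M) rho n * (n : ℝ) ^ (6 : ℝ) ≤ n :=
    h2.trans ((mul_le_mul_of_nonneg_left h4 hG0).trans (by linarith))
  have h6 : (0 : ℝ) < (n : ℝ) ^ (6 : ℝ) := Real.rpow_pos_of_pos hn0' _
  rw [← le_div_iff₀ h6] at h5
  refine h5.trans (le_of_eq ?_)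
  nth_rewrite 1 [← Real.rpow_one (n : ℝ)]
  rw [← Real.rpow_sub hn0']
  norm_num

end Dia
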