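import Pool.Agent.DiaA.Rad
import Pool.Agent.DiaA.Ctr

/-!
# Criticality
-/

set_option linter.unusedSectionVars false

namespace Dia
open Finset PGr Pool.Agent.DiamP
open scoped ENNReal

theorem h_Rg {s E B : ℝ} (hs : 0 ≤ s) (hE : 0 ≤ E) (hB : 0 ≤ B)
    (h : Rg (ENNReal.ofReal s) (ENNReal.ofReal E) ≤ ENNReal.ofReal B) (F : Finset (ℕ × ℕ)) :
    ∑ t ∈ F, hN t.1 t.2 * (s ^ t.1 * E ^ t.2) ≤ B :=
  (sum_le_sum fun t _ => mul_le_mul_of_nonneg_right (hN_le_gP t.1 t.2) (by positivity)).trans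
    (fin_Rg hs hE hB h F)

theorem h_RgE {s E B : ℝ} (hs : 0 ≤ s) (hE : 0 ≤ E) (hB : 0 ≤ B)
    (h : RgE (ENNReal.ofReal s) (ENNReal.ofReal E) ≤ ENNReal.ofReal B) (F : Finset (ℕ × ℕ)) :
    ∑ t ∈ F, hN t.1 t.2 * (s ^ t.1 * (t.2 * E ^ (t.2 - 1))) ≤ B :=
  (sum_le_sum fun t _ => mul_le_mul_of_nonneg_right (hN_le_gP t.1 t.2) (by positivity)).trans
    (fin_RgE hs hE hB h F)

theorem h_RgS {s E B : ℝ} (hs : 0 ≤ s) (hE : 0 ≤ E) (hB : 0 ≤ B)
    (h : RgS (ENNReal.ofReal s) (ENNReal.ofReal E) ≤ ENNReal.ofReal B) (F : Finset (ℕ × ℕ)) :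
    ∑ t ∈ F, hN t.1 t.2 * (t.1 * s ^ (t.1 - 1) * E ^ t.2) ≤ B :=
  (sum_le_sum fun t _ => mul_le_mul_of_nonneg_right (hN_le_gP t.1 t.2) (by positivity)).trans
    (fin_RgS hs hE hB h F)

theorem ts_le_tsum {f : ℕ → ℝ} (hf : ∀ k, 0 ≤ f k) (hs : Summable f) (n : ℕ) :
    ts f n ≤ ∑' k, f k := hs.sum_le_tsum _ fun k _ => hf k

theorem ts_mono {f g : ℕ → ℝ} (h : ∀ k, f k ≤ g k) (n : ℕ) : ts f n ≤ ts g n :=
  sum_le_sum fun k _ => h k

theorem wt_mono_f {f g : ℕ → ℝ} (h : ∀ k, f k ≤ g k) {x : ℝ} (hx : 0 ≤ x) (k : ℕ) :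
    wt f x k ≤ wt g x k := mul_le_mul_of_nonneg_right (h k) (pow_nonneg hx k)

theorem ts_rN (M : ℕ∞) (n : ℕ) : ts (wt (rN M) rho) n ≤ R0 :=
  (ts_mono (wt_mono_f (rN_mono le_top) rho_pos.le) n).trans
    (ts_le_tsum (wt_nonneg (rN_nonneg ⊤) rho_pos.le) sum_r n)

theorem ts_dN (M : ℕ∞) (n : ℕ) : ts (wt (dN M) rho) n ≤ D0 :=
  (ts_mono (wt_mono_f (dN_mono le_top) rho_pos.le) n).trans
    (ts_le_tsum (wt_nonneg (dN_nonneg ⊤) rho_pos.le) sum_d n)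

theorem ts_q_eq (M : ℕ∞) (x : ℝ) (n : ℕ) :
    ts (wt (qN M) x) n = (1 + ts (wt (dN M) x) n) / 2 := by
  unfold ts
  rw [sum_range_succ', sum_range_succ' (fun k => wt (dN M) x k)]
  have h1 : ∑ k ∈ range n, wt (dN M) x (k + 1) = 2 * ∑ k ∈ range n, wt (qN M) x (k + 1) := by
    rw [mul_sum]
    refine sum_congr rfl fun k _ => ?_
    unfold wt
    rw [dN_eq M (by omega)]; ring
  rw [h1]
  unfold wt
  rw [dN_zero, qN_zero]
  ring

theorem ts_qN (M : ℕ∞) (n : ℕ) : ts (wt (qN M) rho) n ≤ (1 + D0) / 2 := by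
  rw [ts_q_eq]
  linarith [ts_dN M n]

theorem Q0_le : (1 + D0) / 2 ≤ 10555 / 10000 := by linarith [D0_range.2]

/-- first order bound with the partial derivatives at a larger point -/
theorem hH_first {R D R1 D1 α β : ℝ} (hR : 0 ≤ R) (hD : 0 ≤ D) (hα : 0 ≤ α) (hβ : 0 ≤ β)
    (h1 : R + α ≤ R1) (h2 : D + β ≤ D1)
    (hE : RgE (ENNReal.ofReal R1) (ENNReal.ofReal D1) ≤ ENNReal.ofReal (19 / 100))
    (hS : RgS (ENNReal.ofReal R1) (ENNReal.ofReal D1) ≤ ENNReal.ofReal 4) (F : Finset (ℕ × ℕ)) :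
    ∑ t ∈ F, hN t.1 t.2 * ((R + α) ^ t.1 * (D + β) ^ t.2 - R ^ t.1 * D ^ t.2) ≤
      4 * α + 19 / 100 * β := by
  have hR1 : 0 ≤ R1 := by linarith
  have hD1 : 0 ≤ D1 := by linarith
  have e1 := h_RgE hR1 hD1 (by norm_num) hE F
  have e2 := h_RgS hR1 hD1 (by norm_num) hS F
  calc ∑ t ∈ F, hN t.1 t.2 * ((R + α) ^ t.1 * (D + β) ^ t.2 - R ^ t.1 * D ^ t.2) ≤
        ∑ t ∈ F, (α * (hN t.1 t.2 * (t.1 * R1 ^ (t.1 - 1) * D1 ^ t.2)) +
          β * (hN t.1 t.2 * (R1 ^ t.1 * (t.2 * D1 ^ (t.2 - 1))))) := by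
        refine sum_le_sum fun t _ => ?_
        refine (mul_le_mul_of_nonneg_left (taylor1 hR hD hα hβ h1 h2 t.1 t.2)
          (hN_nonneg t.1 t.2)).trans (le_of_eq ?_)
        ring
    _ = α * ∑ t ∈ F, hN t.1 t.2 * (t.1 * R1 ^ (t.1 - 1) * D1 ^ t.2) +
          β * ∑ t ∈ F, hN t.1 t.2 * (R1 ^ t.1 * (t.2 * D1 ^ (t.2 - 1))) := by
        rw [sum_add_distrib, mul_sum, mul_sum]
    _ ≤ α * 4 + β * (19 / 100) := by gcongr
    _ = _ := by ring

theorem vc_scr {t : ℝ} (h0 : 0 < t) (h1 : t < 1) (h3 : 0 < scr t) (h2 : scr t < 1) :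
    vc (scr t) = t := by
  have h4 := scr_vc h3 h2
  exact scr_strictAntiOn.injOn (⟨vc_pos h3 h2, vc_lt_one h3 h2⟩ : vc (scr t) ∈ Set.Ioo (0 : ℝ) 1)
    ⟨h0, h1⟩ h4

theorem ecr_cont {t : ℝ} (h0 : 0 < t) (h1 : t < 1) : ContinuousAt ecr t := by
  have h2 : (1 - t) * (1 + 3 * t) ≠ 0 := by
    have : 0 < (1 - t) * (1 + 3 * t) := mul_pos (by linarith) (by linarith)
    exact this.ne'
  unfold ecr
  fun_prop (disch := assumption)

theorem crit_eq : ecr (vc R0) = D0 := by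
  have hR := R0_range
  have hRpos := R0_posA
  have hR1 : R0 < 1 := by linarith
  have ht0 := vc_pos hRpos hR1
  have ht1 := vc_lt_one hRpos hR1
  have hst := scr_vc hRpos hR1
  refine le_antisymm ?_ D0_le
  by_contra hcon
  push Not at hcon
  -- the critical parameter is larger than `.6076`
  have h1 : 6076 / 10000 < vc R0 := by
    by_contra h2
    push Not at h2
    have h3 := ecr_strictMonoOn.monotoneOn ⟨ht0, ht1⟩ (⟨by norm_num, by norm_num⟩ :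
      (6076 / 10000 : ℝ) ∈ Set.Ioo (0 : ℝ) 1) h2
    have h4 : ecr (6076 / 10000) ≤ 1 := by unfold ecr; norm_num
    linarith [D0_range.1]
  -- a slightly smaller parameter
  obtain ⟨t', h2, h3, h4⟩ : ∃ t', 6076 / 10000 < t' ∧ t' < vc R0 ∧ D0 < ecr t' := by
    have hc := (ecr_cont ht0 ht1).eventually (lt_mem_nhds hcon)
    have hc' := hc.filter_mono (nhdsWithin_le_nhds (s := Set.Iio (vc R0)))
    obtain ⟨t', h5, h6⟩ := (hc'.and (Ioo_mem_nhdsLT h1)).exists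
    exact ⟨t', h6.1, h6.2, h5⟩
  have ht'0 : 0 < t' := by linarith
  have ht'1 : t' < 1 := by linarith
  have h5 : R0 < scr t' := by
    have := scr_strictAntiOn (⟨ht'0, ht'1⟩ : t' ∈ Set.Ioo (0 : ℝ) 1) ⟨ht0, ht1⟩ h3
    linarith
  have h6 : scr t' ≤ 476 / 10000 := by
    have h7 := scr_strictAntiOn (⟨by norm_num, by norm_num⟩ :
      (6076 / 10000 : ℝ) ∈ Set.Ioo (0 : ℝ) 1) (⟨ht'0, ht'1⟩ : t' ∈ Set.Ioo (0 : ℝ) 1) h2
    have h8 : scr (6076 / 10000) ≤ 476 / 10000 := by unfold scr; norm_num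
    linarith
  have h7 : vc (scr t') = t' := vc_scr ht'0 ht'1 (by linarith) (by linarith)
  have h8 := rg_crit (x := scr t') (by linarith) h6
  rw [h7] at h8
  obtain ⟨h9, h10⟩ := h8
  -- the step
  obtain ⟨s, hs0, hs1, hs2, hs3⟩ : ∃ s : ℝ, 0 < s ∧ s ≤ 1 / 1000 ∧ R0 + 6 / 100 * s ≤ scr t' ∧
      D0 + 204 / 100 * s ≤ ecr t' := by
    refine ⟨min (1 / 1000) (min (scr t' - R0) ((ecr t' - D0) / 3)), ?_, min_le_left _ _, ?_, ?_⟩
    · exact lt_min (by norm_num) (lt_min (by linarith) (by linarith))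
    · have := (min_le_right (1 / 1000 : ℝ) (min (scr t' - R0) ((ecr t' - D0) / 3))).trans
        (min_le_left _ _)
      linarith
    · have := (min_le_right (1 / 1000 : ℝ) (min (scr t' - R0) ((ecr t' - D0) / 3))).trans
        (min_le_right _ _)
      linarith
  have h11 := ctr (planar_sys rho_pos.le ⊤) rho_pos.le hN_nonneg hN_zero_left (ts_rN ⊤) (ts_dN ⊤)
    (ts_qN ⊤) hR.2 D0_range.2 Q0_le hs0 hs1 (fun F _ α β hα hα' hβ hβ' => by
      have := hH_first hRpos.le D0_pos.le hα hβ (by linarith : R0 + α ≤ scr t')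
        (by linarith : D0 + β ≤ ecr t') h9 h10 F
      linarith)
  refine above (x := rho * Real.exp s) ?_ ?_
  · have := Real.add_one_lt_exp hs0.ne'
    nlinarith [rho_pos]
  · refine summable_of_sum_range_le (c := R0 + 6 / 100 * s)
      (wt_nonneg (rN_nonneg ⊤) (by positivity [rho_pos.le])) fun n => ?_
    have h12 := (h11 n).1
    have h13 := ts_rN ⊤ n
    have h14 : ∑ k ∈ range (n + 1), wt (rN ⊤) (rho * Real.exp s) k =
        ts (wt (rN ⊤) rho) n + inc (Real.exp s) (wt (rN ⊤) rho) n := by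
      unfold ts inc
      rw [← sum_add_distrib]
      refine sum_congr rfl fun k _ => ?_
      unfold wt
      rw [mul_pow]; ring
    have h15 : ∑ k ∈ range n, wt (rN ⊤) (rho * Real.exp s) k ≤
        ∑ k ∈ range (n + 1), wt (rN ⊤) (rho * Real.exp s) k := by
      rw [sum_range_succ]
      have := wt_nonneg (rN_nonneg ⊤) (by have := rho_pos; positivity : 0 ≤ rho * Real.exp s) n
      linarith
    linarith

theorem crit_point : 607 / 1000 ≤ vc R0 ∧ vc R0 ≤ 6295 / 10000 ∧ scr (vc R0) = R0 ∧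
    ecr (vc R0) = D0 := by
  obtain ⟨h1, h2⟩ := vc_range R0_range.1 R0_range.2
  exact ⟨h1, h2, scr_vc R0_posA (by linarith [R0_range.2]), crit_eq⟩

theorem RgE0 : RgE (ENNReal.ofReal R0) (ENNReal.ofReal D0) ≤ ENNReal.ofReal (19 / 100) := by
  have := (rg_crit R0_range.1 R0_range.2).1
  rwa [crit_eq] at this

theorem RgS0 : RgS (ENNReal.ofReal R0) (ENNReal.ofReal D0) ≤ ENNReal.ofReal 4 := by
  have := (rg_crit R0_range.1 R0_range.2).2
  rwa [crit_eq] at this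

/-- the contraction -/
theorem contr_num : (1 + D0) * (2 * R0 * D0 + (RgE (ENNReal.ofReal R0) (ENNReal.ofReal D0)).toReal) ≤
      66 / 100 ∧ (RgS (ENNReal.ofReal R0) (ENNReal.ofReal D0)).toReal ≤ 4 ∧
    RgE (ENNReal.ofReal R0) (ENNReal.ofReal D0) ≠ ⊤ ∧
    RgS (ENNReal.ofReal R0) (ENNReal.ofReal D0) ≠ ⊤ := by
  have h1 := ENNReal.toReal_le_of_le_ofReal (by norm_num) RgE0
  have h2 := ENNReal.toReal_le_of_le_ofReal (by norm_num) RgS0
  refine ⟨?_, h2, ne_top_of_le_ne_top ENNReal.ofReal_ne_top RgE0,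
    ne_top_of_le_ne_top ENNReal.ofReal_ne_top RgS0⟩
  have hR := R0_range
  have hD := D0_range
  have h3 : 2 * R0 * D0 ≤ 2 * (476 / 10000) * (1111 / 1000) := by
    have := mul_le_mul hR.2 hD.2 (by linarith) (by norm_num)
    nlinarith
  have h4 : 0 ≤ (RgE (ENNReal.ofReal R0) (ENNReal.ofReal D0)).toReal := ENNReal.toReal_nonneg
  have h5 : 2 * R0 * D0 + (RgE (ENNReal.ofReal R0) (ENNReal.ofReal D0)).toReal ≤ 296 / 1000 := by
    linarith
  calc _ ≤ (1 + 1111 / 1000) * (296 / 1000 : ℝ) := by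
        refine mul_le_mul (by linarith) h5 (by have := R0_posA; have := D0_pos; positivity) (by norm_num)
    _ ≤ _ := by norm_num

end Dia
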