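import Pool.Agent.DiaA.Fun
import Pool.Agent.DiaA.FunB
import Pool.Agent.Dia.ADefs

/-!
# Functionals of the sequences of a system `PSys`
-/

set_option linter.unusedSectionVars false

namespace Dia
open Finset PGr Pool.Agent.DiamP

theorem cv_sum' {p q : ℕ → ℝ} (hp : ∀ k, 0 ≤ p k) (hq : ∀ k, 0 ≤ q k) (sp : Summable p)
    (sq : Summable q) :
    Summable (cv p q) ∧ ∑' k, cv p q k = (∑' k, p k) * ∑' k, q k := by
  have hp' : Summable fun n => ‖p n‖ := by
    simpa [Real.norm_of_nonneg (hp _)] using sp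
  have hq' : Summable fun n => ‖q n‖ := by
    simpa [Real.norm_of_nonneg (hq _)] using sq
  exact ⟨(summable_norm_sum_mul_antidiagonal_of_summable_norm hp' hq').of_norm,
    (tsum_mul_tsum_eq_tsum_sum_antidiagonal_of_summable_norm hp' hq').symm⟩

theorem mul_sum' {p φ : ℕ → ℝ} (hp : ∀ k, 0 ≤ p k) (sp : Summable p) (h0 : ∀ k, 0 ≤ φ k)
    (h1 : ∀ k, φ k ≤ 1) : Summable (fun k => p k * φ k) :=
  Summable.of_nonneg_of_le (fun k => mul_nonneg (hp k) (h0 k))
    (fun k => mul_le_of_le_one_right (hp k) (h1 k)) sp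

theorem ex_nonneg' {p φ : ℕ → ℝ} (hp : ∀ k, 0 ≤ p k) (h0 : ∀ k, 0 ≤ φ k) : 0 ≤ ex p φ :=
  tsum_nonneg fun k => mul_nonneg (hp k) (h0 k)

theorem ex_mono' {f g φ : ℕ → ℝ} (hf : ∀ k, 0 ≤ f k) (hfg : ∀ k, f k ≤ g k) (sg : Summable g)
    (h0 : ∀ k, 0 ≤ φ k) (h1 : ∀ k, φ k ≤ 1) : ex f φ ≤ ex g φ :=
  Summable.tsum_le_tsum (fun k => mul_le_mul_of_nonneg_right (hfg k) (h0 k))
    (mul_sum' hf (Summable.of_nonneg_of_le hf hfg sg) h0 h1)
    (mul_sum' (fun k => (hf k).trans (hfg k)) sg h0 h1)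

theorem fm_zero (s : ℝ) : fm s 0 = 0 := by unfold fm; simp
theorem fw_zero (s : ℝ) : fw s 0 = 0 := by unfold fw; simp

theorem fm_succ {s : ℝ} (hs : 0 ≤ s) (k : ℕ) : fm s (k + 1) ≤ fm s k + s := by
  have h1 := fm_add hs k 1
  have h2 : fm s 1 ≤ s := by unfold fm; simp
  linarith

theorem fw_succ {s : ℝ} (hs : 0 ≤ s) (k : ℕ) : fw s (k + 1) ≤ fw s k + s ^ 2 + 2 * s * fm s k := by
  have h1 := fw_add hs k 1
  have h2 : fm s 1 ≤ s := by unfold fm; simp
  have h3 : fw s 1 ≤ s ^ 2 := by unfold fw; simp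
  have h4 := mul_le_mul_of_nonneg_left h2 (fm_nonneg hs k)
  nlinarith

section
variable {x : ℝ} {h : ℕ → ℕ → ℝ} {M : ℕ∞} {r e p q d b : ℕ → ℝ} {s : ℝ}

theorem ex_shift (H : PSys x h M r e p q d b) (sr : Summable r) {φ : ℕ → ℝ} (h0 : ∀ k, 0 ≤ φ k)
    (h1 : ∀ k, φ k ≤ 1) : ex r φ = x * ∑' k, e k * φ (k + 1) := by
  unfold Pool.Agent.DiamP.ex
  rw [(mul_sum' H.r_nn sr h0 h1).tsum_eq_zero_add, H.r_zero, zero_mul, zero_add, ← tsum_mul_left]
  refine tsum_congr fun k => ?_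
  rw [H.hr k]; ring

theorem sum_shift (H : PSys x h M r e p q d b) (sr : Summable r) : ∑' k, r k = x * ∑' k, e k := by
  rw [sr.tsum_eq_zero_add, H.r_zero, zero_add, ← tsum_mul_left]
  exact tsum_congr fun k => H.hr k

/-- the vertex, first functional -/
theorem X_fm (H : PSys x h M r e p q d b) (hx : 0 ≤ x) (hs : 0 ≤ s) (sr : Summable r)
    (se : Summable e) (sp : Summable p) :
    ex r (fm s) ≤ (∑' k, r k) * (ex p (fm s) + s) := by
  rw [ex_shift H sr (fm_nonneg hs) (fm_le_one s), sum_shift H sr]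
  have h1 := ex_log_fm hs H.e_nn H.p_nn se sp H.he
  have m1 := mul_sum' H.e_nn se (fm_nonneg hs) (fm_le_one s)
  have h2 : ∑' k, e k * fm s (k + 1) ≤ ex e (fm s) + (∑' k, e k) * s := by
    have h3 : ex e (fm s) + (∑' k, e k) * s = ∑' k, (e k * fm s k + e k * s) := by
      rw [m1.tsum_add (se.mul_right s), tsum_mul_right]
      rfl
    rw [h3]
    refine Summable.tsum_le_tsum (fun k => ?_)
      (mul_sum' H.e_nn se (fun k => fm_nonneg hs (k + 1)) fun k => fm_le_one s (k + 1))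
      (m1.add (se.mul_right s))
    rw [← mul_add]
    exact mul_le_mul_of_nonneg_left (fm_succ hs k) (H.e_nn k)
  have h4 : ∑' k, e k * fm s (k + 1) ≤ (∑' k, e k) * (ex p (fm s) + s) := by linarith
  calc x * ∑' k, e k * fm s (k + 1) ≤ x * ((∑' k, e k) * (ex p (fm s) + s)) :=
        mul_le_mul_of_nonneg_left h4 hx
    _ = _ := by ring

/-- the vertex, second functional -/
theorem X_fw (H : PSys x h M r e p q d b) (hx : 0 ≤ x) (hs : 0 ≤ s) (sr : Summable r)
    (se : Summable e) (sp : Summable p) :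
    ex r (fw s) ≤ (∑' k, r k) *
      (ex p (fw s) + (ex p (fm s) ^ 2 + s ^ 2 + 2 * s * ex p (fm s))) := by
  rw [ex_shift H sr (fw_nonneg s) (fw_le_one s), sum_shift H sr]
  have h1 := ex_log_fm hs H.e_nn H.p_nn se sp H.he
  have h1' := ex_log_fw hs H.e_nn H.p_nn se sp H.he
  have hp0 := ex_nonneg' H.p_nn (fm_nonneg hs)
  have hE0 : 0 ≤ ∑' k, e k := tsum_nonneg H.e_nn
  have m1 := mul_sum' H.e_nn se (fm_nonneg hs) (fm_le_one s)
  have m2 := mul_sum' H.e_nn se (fw_nonneg s) (fw_le_one s)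
  have h2 : ∑' k, e k * fw s (k + 1) ≤
      ex e (fw s) + (∑' k, e k) * s ^ 2 + 2 * s * ex e (fm s) := by
    have h3 : ex e (fw s) + (∑' k, e k) * s ^ 2 + 2 * s * ex e (fm s) =
        ∑' k, (e k * fw s k + e k * s ^ 2 + 2 * s * (e k * fm s k)) := by
      rw [(m2.add (se.mul_right _)).tsum_add (m1.mul_left _), m2.tsum_add (se.mul_right _),
        tsum_mul_right, tsum_mul_left]
      rfl
    rw [h3]
    refine Summable.tsum_le_tsum (fun k => ?_)
      (mul_sum' H.e_nn se (fun k => fw_nonneg s (k + 1)) fun k => fw_le_one s (k + 1))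
      ((m2.add (se.mul_right _)).add (m1.mul_left _))
    have h5 := mul_le_mul_of_nonneg_left (fw_succ hs k) (H.e_nn k)
    refine h5.trans (le_of_eq ?_)
    ring
  have h4 : ∑' k, e k * fw s (k + 1) ≤ (∑' k, e k) *
      (ex p (fw s) + (ex p (fm s) ^ 2 + s ^ 2 + 2 * s * ex p (fm s))) := by
    have h5 := mul_le_mul_of_nonneg_right h1 hp0
    have h6 := mul_le_mul_of_nonneg_left h1 (mul_nonneg zero_le_two hs : (0 : ℝ) ≤ 2 * s)
    refine h2.trans ?_
    have h7 : (∑' k, e k) * (ex p (fw s) + (ex p (fm s) ^ 2 + s ^ 2 + 2 * s * ex p (fm s))) =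
        (∑' k, e k) * ex p (fw s) + (∑' k, e k) * ex p (fm s) * ex p (fm s) +
          (∑' k, e k) * s ^ 2 + 2 * s * ((∑' k, e k) * ex p (fm s)) := by ring
    rw [h7]
    linarith
  calc x * ∑' k, e k * fw s (k + 1) ≤ x * ((∑' k, e k) *
        (ex p (fw s) + (ex p (fm s) ^ 2 + s ^ 2 + 2 * s * ex p (fm s)))) :=
        mul_le_mul_of_nonneg_left h4 hx
    _ = _ := by ring

theorem P_fm (H : PSys x h M r e p q d b) (hs : 0 ≤ s) (sr : Summable r) (sq : Summable q) :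
    ex p (fm s) ≤ (∑' k, q k) * ex r (fm s) + (∑' k, r k) * ex q (fm s) :=
  (ex_mono' H.p_nn H.hp (cv_sum' H.r_nn H.q_nn sr sq).1 (fm_nonneg hs) (fm_le_one s)).trans
    (ex_cv_fm hs H.r_nn H.q_nn sr sq)

theorem P_fw (H : PSys x h M r e p q d b) (hs : 0 ≤ s) (sr : Summable r) (sq : Summable q) :
    ex p (fw s) ≤ (∑' k, q k) * ex r (fw s) + (∑' k, r k) * ex q (fw s) +
      2 * (ex r (fm s) * ex q (fm s)) :=
  (ex_mono' H.p_nn H.hp (cv_sum' H.r_nn H.q_nn sr sq).1 (fw_nonneg s) (fw_le_one s)).trans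
    (ex_cv_fw hs H.r_nn H.q_nn sr sq)

theorem d_ex (H : PSys x h M r e p q d b) {φ : ℕ → ℝ} (h0 : φ 0 = 0) : ex d φ = 2 * ex q φ := by
  unfold Pool.Agent.DiamP.ex
  rw [← tsum_mul_left]
  refine tsum_congr fun k => ?_
  rcases Nat.eq_zero_or_pos k with hk | hk
  · subst hk; rw [h0]; ring
  · rw [H.hd k hk]; ring

/-- the rigid part of a functional -/
theorem b_gen (H : PSys x h ⊤ r e p q d b) (hh : ∀ v e, 0 ≤ h v e) (sr : Summable r)
    (sd : Summable d) {φ : ℕ → ℝ} (h0 : ∀ k, 0 ≤ φ k) (h1 : ∀ k, φ k ≤ 1) {B : ℝ}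
    (hB : ∀ F : Finset (ℕ × ℕ), (∀ t ∈ F, h t.1 t.2 ≠ 0) →
      ∑ t ∈ F, h t.1 t.2 * ex (cvL (List.replicate t.1 r ++ List.replicate t.2 d)) φ ≤ B) :
    ex b φ ≤ ex (cv r (cv d d)) φ + B := by
  classical
  have sdd := cv_sum' H.d_nn H.d_nn sd sd
  have hdd := cv_nonneg H.d_nn H.d_nn
  have srdd := cv_sum' H.r_nn hdd sr sdd.1
  have hrdd := cv_nonneg H.r_nn hdd
  have hL0 : ∀ (t : ℕ × ℕ) k, 0 ≤ cvL (List.replicate t.1 r ++ List.replicate t.2 d) k := by
    intro t k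
    refine Hv.cvL_nonneg ?_ k
    intro f hf
    rcases List.mem_append.1 hf with h' | h'
    · rw [List.eq_of_mem_replicate h']; exact H.r_nn
    · rw [List.eq_of_mem_replicate h']; exact H.d_nn
  have hLs : ∀ t : ℕ × ℕ, Summable (cvL (List.replicate t.1 r ++ List.replicate t.2 d)) := by
    intro t
    refine (summable_cvL ?_).1
    intro f hf
    rcases List.mem_append.1 hf with h' | h'
    · rw [List.eq_of_mem_replicate h']; exact ⟨H.r_nn, sr⟩
    · rw [List.eq_of_mem_replicate h']; exact ⟨H.d_nn, sd⟩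
  refine Real.tsum_le_of_sum_range_le (fun k => mul_nonneg (H.b_nn k) (h0 k)) fun n => ?_
  have h2 : ∑ k ∈ range n, b k * φ k ≤
      ∑ k ∈ range n, cv r (cv d d) k * φ k + ∑ k ∈ range n, Hc h ⊤ r d k * φ k := by
    rw [← sum_add_distrib]
    refine sum_le_sum fun k _ => ?_
    rw [← add_mul]
    exact mul_le_mul_of_nonneg_right (H.hb k) (h0 k)
  have h3 : ∑ k ∈ range n, cv r (cv d d) k * φ k ≤ ex (cv r (cv d d)) φ :=
    (mul_sum' hrdd srdd.1 h0 h1).sum_le_tsum _ fun k _ => mul_nonneg (hrdd k) (h0 k)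
  have h4 : ∑ k ∈ range n, Hc h ⊤ r d k * φ k ≤ B := by
    set F := ((range (n + 1) ×ˢ range ((n + 2) ^ 2)).filter (fun t : ℕ × ℕ => h t.1 t.2 ≠ 0)) with hF
    have h5 : ∀ k ∈ range n, Hc h ⊤ r d k * φ k ≤ ∑ t ∈ F, h t.1 t.2 *
        (cvL (List.replicate t.1 r ++ List.replicate t.2 d) k * φ k) := by
      intro k hk
      rw [mem_range] at hk
      have h6 : Hc h ⊤ r d k = ∑ t ∈ range (k + 1) ×ˢ range ((k + 2) ^ 2), h t.1 t.2 *
          cvL (List.replicate t.1 r ++ List.replicate t.2 d) k := by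
        unfold Hc
        have hpr := Finset.sum_product' (range (k + 1)) (range ((k + 2) ^ 2)) (fun v e => h v e *
          cvL (List.replicate v r ++ List.replicate e d) k)
        refine Eq.trans ?_ hpr.symm
        refine sum_congr rfl fun v _ => sum_congr rfl fun e _ => ?_
        rw [if_pos (ENat.natCast_lt_top _)]
      rw [h6, sum_mul]
      have h7 : ∑ t ∈ range (k + 1) ×ˢ range ((k + 2) ^ 2), h t.1 t.2 *
          cvL (List.replicate t.1 r ++ List.replicate t.2 d) k * φ k =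
          ∑ t ∈ (range (k + 1) ×ˢ range ((k + 2) ^ 2)).filter (fun t : ℕ × ℕ => h t.1 t.2 ≠ 0),
            h t.1 t.2 * (cvL (List.replicate t.1 r ++ List.replicate t.2 d) k * φ k) := by
        rw [sum_filter]
        refine sum_congr rfl fun t _ => ?_
        split_ifs with h8
        · ring
        · rw [not_not] at h8
          rw [h8]; ring
      rw [h7]
      refine sum_le_sum_of_subset_of_nonneg ?_ fun t _ _ =>
        mul_nonneg (hh _ _) (mul_nonneg (hL0 _ _) (h0 _))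
      intro t ht
      rw [mem_filter, mem_product, mem_range, mem_range] at ht
      rw [hF, mem_filter, mem_product, mem_range, mem_range]
      refine ⟨⟨by omega, ht.1.2.trans_le (Nat.pow_le_pow_left (by omega) 2)⟩, ht.2⟩
    refine (sum_le_sum h5).trans ?_
    rw [sum_comm]
    refine le_trans (sum_le_sum fun t _ => ?_) (hB F fun t ht => (mem_filter.1 ht).2)
    rw [← mul_sum]
    refine mul_le_mul_of_nonneg_left ?_ (hh _ _)
    exact (mul_sum' (hL0 t) (hLs t) h0 h1).sum_le_tsum _ fun k _ => mul_nonneg (hL0 t k) (h0 k)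
  linarith

end

/-- from the functional to the tail -/
theorem tl_le_fw {p : ℕ → ℝ} (hp : ∀ k, 0 ≤ p k) (sp : Summable p) {t : ℕ} (ht : 1 ≤ t) :
    tl p t ≤ ex p (fw (1 / (t : ℝ))) := by
  have ht0 : (0 : ℝ) < t := by exact_mod_cast ht
  have m1 := mul_sum' hp sp (fw_nonneg (1 / (t : ℝ))) (fw_le_one _)
  have h1 : tl p t = ∑' n, p (n + t) * fw (1 / (t : ℝ)) (n + t) := by
    unfold Pool.Agent.DiamP.tl
    refine tsum_congr fun n => ?_
    have h2 : fw (1 / (t : ℝ)) (n + t) = 1 := by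
      unfold fw
      refine min_eq_left (one_le_pow₀ ?_)
      rw [one_div, inv_mul_eq_div, one_le_div₀ ht0]
      push_cast
      linarith [Nat.cast_nonneg (α := ℝ) n]
    rw [h2, mul_one]
  rw [h1]
  unfold Pool.Agent.DiamP.ex
  rw [← m1.sum_add_tsum_nat_add t]
  linarith [sum_nonneg (s := range t) (f := fun k => p k * fw (1 / (t : ℝ)) k)
    fun k _ => mul_nonneg (hp k) (fw_nonneg _ k)]

end Dia
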