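import Pool.Agent.DiaA.Small
import Pool.Agent.DiaA.TailsA

/-!
# The tails of the counting sequences
-/

set_option linter.unusedSectionVars false

namespace Dia
open Finset PGr Pool.Agent.DiamP
open scoped ENNReal

theorem sum_e : Summable (wt (rE ⊤) rho) := by
  have h1 : Summable fun k => wt (rN ⊤) rho (k + 1) := (summable_nat_add_iff 1).2 sum_r
  refine (h1.mul_left (rho⁻¹)).congr fun k => ?_
  rw [(planar_sys rho_pos.le ⊤).hr k, inv_mul_cancel_left₀ rho_pos.ne']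

theorem sum_p : Summable (wt (pN ⊤) rho) :=
  Summable.of_nonneg_of_le (wt_nonneg (pN_nonneg ⊤) rho_pos.le)
    (wt_mono_f (pN_le_e ⊤) rho_pos.le) sum_e

theorem sum_q_eq : ∑' k, wt (qN ⊤) rho k = (1 + D0) / 2 := by
  have H := planar_sys rho_pos.le ⊤
  have h1 : D0 = 1 + ∑' k, wt (dN ⊤) rho (k + 1) := by
    unfold D0; rw [sum_d.tsum_eq_zero_add, H.d_zero]
  have h2 : ∑' k, wt (qN ⊤) rho k = 1 + ∑' k, wt (qN ⊤) rho (k + 1) := by
    rw [sum_qA.tsum_eq_zero_add, H.q_zero]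
  have h3 : ∑' k, wt (dN ⊤) rho (k + 1) = 2 * ∑' k, wt (qN ⊤) rho (k + 1) := by
    rw [← tsum_mul_left]
    exact tsum_congr fun k => H.hd (k + 1) (by omega)
  rw [h2]; linarith

theorem a_le : D0 ^ 2 + 4 ≤ 524 / 100 := by
  have := D0_range
  nlinarith

theorem b_le : 2 * R0 * D0 + 19 / 100 ≤ 2958 / 10000 := by
  have h1 := R0_range
  have h2 := D0_range
  have h3 : R0 * D0 ≤ 476 / 10000 * (1111 / 1000) :=
    mul_le_mul h1.2 h2.2 (by linarith) (by norm_num)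
  nlinarith

/-- the network equation, first functional -/
theorem B_fm {s : ℝ} (hs : 0 ≤ s) : ex (wt (bN ⊤) rho) (fm s) ≤
    (D0 ^ 2 + 4) * ex (wt (rN ⊤) rho) (fm s) +
      (2 * R0 * D0 + 19 / 100) * ex (wt (dN ⊤) rho) (fm s) := by
  have H := planar_sys rho_pos.le ⊤
  have hX := ex_nonneg' H.r_nn (fm_nonneg hs)
  have hY := ex_nonneg' H.d_nn (fm_nonneg hs)
  have h1 := b_gen H hN_nonneg sum_r sum_d (fm_nonneg hs) (fm_le_one s)
    (B := 4 * ex (wt (rN ⊤) rho) (fm s) + 19 / 100 * ex (wt (dN ⊤) rho) (fm s)) fun F _ => by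
    have e1 := h_RgE R0_posA.le D0_pos.le (by norm_num) RgE0 F
    have e2 := h_RgS R0_posA.le D0_pos.le (by norm_num) RgS0 F
    calc _ ≤ ∑ t ∈ F, (ex (wt (rN ⊤) rho) (fm s) *
            (hN t.1 t.2 * (t.1 * R0 ^ (t.1 - 1) * D0 ^ t.2)) +
          ex (wt (dN ⊤) rho) (fm s) * (hN t.1 t.2 * (R0 ^ t.1 * (t.2 * D0 ^ (t.2 - 1))))) := by
          refine sum_le_sum fun t _ => ?_
          refine (mul_le_mul_of_nonneg_left (ex_rd_fm hs H.r_nn H.d_nn sum_r sum_d t.1 t.2)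
            (hN_nonneg t.1 t.2)).trans (le_of_eq ?_)
          unfold R0 D0
          ring
      _ = ex (wt (rN ⊤) rho) (fm s) *
            ∑ t ∈ F, hN t.1 t.2 * (t.1 * R0 ^ (t.1 - 1) * D0 ^ t.2) +
          ex (wt (dN ⊤) rho) (fm s) *
            ∑ t ∈ F, hN t.1 t.2 * (R0 ^ t.1 * (t.2 * D0 ^ (t.2 - 1))) := by
          rw [sum_add_distrib, mul_sum, mul_sum]
      _ ≤ ex (wt (rN ⊤) rho) (fm s) * 4 + ex (wt (dN ⊤) rho) (fm s) * (19 / 100) := by gcongr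
      _ = _ := by ring
  have hdd := cv_sum' H.d_nn H.d_nn sum_d sum_d
  have h2 := ex_cv_fm hs H.r_nn (cv_nonneg H.d_nn H.d_nn) sum_r hdd.1
  have h3 := ex_cv_fm hs H.d_nn H.d_nn sum_d sum_d
  rw [hdd.2] at h2
  change ex (cv (wt (rN ⊤) rho) (cv (wt (dN ⊤) rho) (wt (dN ⊤) rho))) (fm s) ≤
    D0 * D0 * ex (wt (rN ⊤) rho) (fm s) +
      R0 * ex (cv (wt (dN ⊤) rho) (wt (dN ⊤) rho)) (fm s) at h2
  change ex (cv (wt (dN ⊤) rho) (wt (dN ⊤) rho)) (fm s) ≤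
    D0 * ex (wt (dN ⊤) rho) (fm s) + D0 * ex (wt (dN ⊤) rho) (fm s) at h3
  have h4 := mul_le_mul_of_nonneg_left h3 R0_posA.le
  linarith

theorem fm_bounds {s : ℝ} (hs : 0 ≤ s) :
    ex (wt (rN ⊤) rho) (fm s) ≤ s ∧ ex (wt (bN ⊤) rho) (fm s) ≤ 20 * s ∧
      ex (wt (qN ⊤) rho) (fm s) ≤ 20 * s ∧ ex (wt (pN ⊤) rho) (fm s) ≤ 5 * s ∧
      ex (wt (dN ⊤) rho) (fm s) ≤ 40 * s := by
  have H := planar_sys rho_pos.le ⊤
  have h1 := X_fm H rho_pos.le hs sum_r sum_e sum_p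
  have h2 := P_fm H hs sum_r sum_qA
  have h3 := ex_log_fm hs H.q_nn H.b_nn sum_qA sum_b H.hq
  have h4 := B_fm hs
  have h5 := d_ex H (fm_zero s)
  rw [sum_q_eq] at h2 h3
  rw [h5] at h4
  change ex (wt (rN ⊤) rho) (fm s) ≤ R0 * (ex (wt (pN ⊤) rho) (fm s) + s) at h1
  change ex (wt (pN ⊤) rho) (fm s) ≤ (1 + D0) / 2 * ex (wt (rN ⊤) rho) (fm s) +
    R0 * ex (wt (qN ⊤) rho) (fm s) at h2
  have hQ : 0 ≤ (1 + D0) / 2 := by have := D0_pos; positivity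
  have h6 := lin_contr (ex_nonneg' H.r_nn (fm_nonneg hs)) (ex_nonneg' H.p_nn (fm_nonneg hs))
    (ex_nonneg' H.q_nn (fm_nonneg hs)) (ex_nonneg' H.b_nn (fm_nonneg hs)) hs R0_posA.le hQ
    (by have := D0_pos; positivity) (by have := D0_pos; have := R0_posA; positivity) R0_range.2 Q0_le
    a_le b_le h1 (by linarith) (by linarith) (by linarith)
  exact ⟨h6.1, h6.2.1, h6.2.2.1, h6.2.2.2, by linarith [h6.2.2.1]⟩

/-- the rigid part, second functional -/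
theorem rigid_fw : ∃ K : ℝ, 0 ≤ K ∧ ∀ s : ℝ, 0 < s → s ≤ 1 →
    ∀ F : Finset (ℕ × ℕ), (∀ t ∈ F, hN t.1 t.2 ≠ 0) →
      ∑ t ∈ F, hN t.1 t.2 * ex (cvL (List.replicate t.1 (wt (rN ⊤) rho) ++
        List.replicate t.2 (wt (dN ⊤) rho))) (fw s) ≤
      4 * ex (wt (rN ⊤) rho) (fw s) + 19 / 100 * ex (wt (dN ⊤) rho) (fw s) +
        K * s ^ (3 / 2 : ℝ) := by
  obtain ⟨K, hK, hK1, hK2⟩ := tauK
  refine ⟨(8 * 1082 ^ 2 + 1) * K, by positivity, fun s hs hs1 F hF => ?_⟩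
  have H := planar_sys rho_pos.le ⊤
  have hR := R0_posA
  have hD := D0_pos
  obtain ⟨X, hXd⟩ : ∃ X, X = ex (wt (rN ⊤) rho) (fw s) := ⟨_, rfl⟩
  obtain ⟨Y, hYd⟩ : ∃ Y, Y = ex (wt (dN ⊤) rho) (fw s) := ⟨_, rfl⟩
  have hX0 : 0 ≤ X := by rw [hXd]; exact ex_nonneg' H.r_nn (fw_nonneg s)
  have hY0 : 0 ≤ Y := by rw [hYd]; exact ex_nonneg' H.d_nn (fw_nonneg s)
  obtain ⟨hm1, -, -, -, hm5⟩ := fm_bounds hs.le
  -- threshold
  set N : ℕ := ⌈1 / s⌉₊ with hNdef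
  have hN1 : 1 / s ≤ N := Nat.le_ceil _
  have hs1' : 1 ≤ 1 / s := by rw [le_div_iff₀ hs]; linarith
  have hN0 : 1 ≤ N := by
    have : (1 : ℝ) ≤ N := hs1'.trans hN1
    exact_mod_cast this
  have hN2 : (N : ℝ) ≤ 2 / s := by
    have := Nat.ceil_lt_add_one (by positivity : 0 ≤ 1 / s)
    have h2 : (2 : ℝ) / s = 1 / s + 1 / s := by ring
    rw [h2]; linarith
  obtain ⟨u, hud⟩ : ∃ u : ℝ, u = 1082 * s := ⟨_, rfl⟩
  have hu0 : 0 ≤ u := by rw [hud]; positivity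
  have hur : ex (wt (rN ⊤) rho) (fm s) ≤ u * ∑' k, wt (rN ⊤) rho k := by
    change _ ≤ u * R0
    have := R0_range.1
    rw [hud]; nlinarith
  have hud' : ex (wt (dN ⊤) rho) (fm s) ≤ u * ∑' k, wt (dN ⊤) rho k := by
    change _ ≤ u * D0
    have := D0_range.1
    rw [hud]; nlinarith
  -- weights
  set w : ℕ → ℝ := fun e => if e < N then 4 * u ^ 2 * (e : ℝ) ^ 2 else 1 with hw
  have hw0 : ∀ e, 0 ≤ w e := by
    intro e
    simp only [hw]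
    split_ifs <;> positivity
  have hterm : ∀ t ∈ F, hN t.1 t.2 * ex (cvL (List.replicate t.1 (wt (rN ⊤) rho) ++
        List.replicate t.2 (wt (dN ⊤) rho))) (fw s) ≤
      X * (hN t.1 t.2 * (t.1 * R0 ^ (t.1 - 1) * D0 ^ t.2)) +
        Y * (hN t.1 t.2 * (R0 ^ t.1 * (t.2 * D0 ^ (t.2 - 1)))) +
        hN t.1 t.2 * (R0 ^ t.1 * D0 ^ t.2) * w t.2 := by
    intro t ht
    have h0 := hN_nonneg t.1 t.2
    have hle : t.1 ≤ t.2 := hN_le_e (hF t ht)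
    have hle' : (t.1 : ℝ) ≤ t.2 := by exact_mod_cast hle
    by_cases hlt : t.2 < N
    · have h1 := ex_rd_fw hs.le H.r_nn H.d_nn sum_r sum_d hu0 hur hud' t.1 t.2
      change ex (cvL (List.replicate t.1 (wt (rN ⊤) rho) ++
        List.replicate t.2 (wt (dN ⊤) rho))) (fw s) ≤
        t.1 * R0 ^ (t.1 - 1) * D0 ^ t.2 * ex (wt (rN ⊤) rho) (fw s) +
        t.2 * R0 ^ t.1 * D0 ^ (t.2 - 1) * ex (wt (dN ⊤) rho) (fw s) +
        ((t.1 : ℝ) + t.2) ^ 2 * u ^ 2 * (R0 ^ t.1 * D0 ^ t.2) at h1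
      rw [← hXd, ← hYd] at h1
      have h2 : ((t.1 : ℝ) + t.2) ^ 2 ≤ 4 * (t.2 : ℝ) ^ 2 := by
        have h3 : (0 : ℝ) ≤ t.1 := Nat.cast_nonneg _
        nlinarith
      have h3 : ((t.1 : ℝ) + t.2) ^ 2 * u ^ 2 * (R0 ^ t.1 * D0 ^ t.2) ≤
          4 * (t.2 : ℝ) ^ 2 * u ^ 2 * (R0 ^ t.1 * D0 ^ t.2) := by gcongr
      have h4 : w t.2 = 4 * u ^ 2 * (t.2 : ℝ) ^ 2 := if_pos hlt
      rw [h4]
      refine (mul_le_mul_of_nonneg_left (h1.trans (add_le_add_right h3 _)) h0).trans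
        (le_of_eq ?_)
      ring
    · have h4 : w t.2 = 1 := if_neg hlt
      rw [h4, mul_one]
      have hL0 : ∀ k, 0 ≤ cvL (List.replicate t.1 (wt (rN ⊤) rho) ++
          List.replicate t.2 (wt (dN ⊤) rho)) k := by
        intro k
        refine Hv.cvL_nonneg ?_ k
        intro f hf
        rcases List.mem_append.1 hf with h' | h'
        · rw [List.eq_of_mem_replicate h']; exact H.r_nn
        · rw [List.eq_of_mem_replicate h']; exact H.d_nn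
      have hLs : Summable (cvL (List.replicate t.1 (wt (rN ⊤) rho) ++
          List.replicate t.2 (wt (dN ⊤) rho))) := by
        refine (summable_cvL ?_).1
        intro f hf
        rcases List.mem_append.1 hf with h' | h'
        · rw [List.eq_of_mem_replicate h']; exact ⟨H.r_nn, sum_r⟩
        · rw [List.eq_of_mem_replicate h']; exact ⟨H.d_nn, sum_d⟩
      have h5 : ex (cvL (List.replicate t.1 (wt (rN ⊤) rho) ++
          List.replicate t.2 (wt (dN ⊤) rho))) (fw s) ≤ R0 ^ t.1 * D0 ^ t.2 := by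
        have h6 := tsum_cvL_rd H.r_nn H.d_nn sum_r sum_d t.1 t.2
        change _ = R0 ^ t.1 * D0 ^ t.2 at h6
        rw [← h6]
        exact Summable.tsum_le_tsum (fun k => mul_le_of_le_one_right (hL0 k) (fw_le_one s k))
          (mul_sum' hL0 hLs (fw_nonneg s) (fw_le_one s)) hLs
      have h7 := mul_le_mul_of_nonneg_left h5 h0
      have h8 : 0 ≤ X * (hN t.1 t.2 * (t.1 * R0 ^ (t.1 - 1) * D0 ^ t.2)) := by positivity
      have h9 : 0 ≤ Y * (hN t.1 t.2 * (R0 ^ t.1 * (t.2 * D0 ^ (t.2 - 1)))) := by positivity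
      linarith
  have e1 := h_RgE hR.le hD.le (by norm_num) RgE0 F
  have e2 := h_RgS hR.le hD.le (by norm_num) RgS0 F
  have e3 := h_le_tau hw0 F
  have e4 : ∑ e ∈ F.image Prod.snd, w e * tauG PGT e ≤
      (8 * 1082 ^ 2 + 1) * K * s ^ (3 / 2 : ℝ) := by
    rw [← sum_filter_add_sum_filter_not (F.image Prod.snd) (fun e => e < N)]
    have g1 : ∑ e ∈ (F.image Prod.snd).filter (fun e => e < N), w e * tauG PGT e =
        4 * u ^ 2 * ∑ e ∈ (F.image Prod.snd).filter (fun e => e < N), (e : ℝ) ^ 2 * tauG PGT e := by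
      rw [mul_sum]
      refine sum_congr rfl fun e he => ?_
      have : w e = 4 * u ^ 2 * (e : ℝ) ^ 2 := if_pos (mem_filter.1 he).2
      rw [this]; ring
    have g2 : ∑ e ∈ (F.image Prod.snd).filter (fun e => ¬ e < N), w e * tauG PGT e =
        ∑ e ∈ (F.image Prod.snd).filter (fun e => ¬ e < N), tauG PGT e := by
      refine sum_congr rfl fun e he => ?_
      have : w e = 1 := if_neg (mem_filter.1 he).2
      rw [this, one_mul]
    rw [g1, g2]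
    have g3 := hK2 N hN0 ((F.image Prod.snd).filter (fun e => e < N))
      fun j hj => (mem_filter.1 hj).2.le
    have g4 := hK1 N hN0 ((F.image Prod.snd).filter (fun e => ¬ e < N))
      fun j hj => not_lt.1 (mem_filter.1 hj).2
    have hNp : (0 : ℝ) < N := by exact_mod_cast hN0
    have g5 : (N : ℝ) ^ (-(3 / 2) : ℝ) ≤ s ^ (3 / 2 : ℝ) := by
      have : s ^ (3 / 2 : ℝ) = (1 / s) ^ (-(3 / 2) : ℝ) := by
        rw [one_div, Real.inv_rpow hs.le, Real.rpow_neg hs.le, inv_inv]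
      rw [this]
      exact Real.rpow_le_rpow_of_nonpos (by positivity) hN1 (by norm_num)
    have g6 : s ^ 2 * (N : ℝ) ^ (1 / 2 : ℝ) ≤ 2 * s ^ (3 / 2 : ℝ) := by
      have h1 : (N : ℝ) ^ (1 / 2 : ℝ) ≤ (2 / s) ^ (1 / 2 : ℝ) :=
        Real.rpow_le_rpow hNp.le hN2 (by norm_num)
      have h2 : (2 / s) ^ (1 / 2 : ℝ) = 2 ^ (1 / 2 : ℝ) * s ^ (-(1 / 2) : ℝ) := by
        rw [Real.div_rpow (by norm_num) hs.le, Real.rpow_neg hs.le, div_eq_mul_inv]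
      have h3 : (2 : ℝ) ^ (1 / 2 : ℝ) ≤ 2 := by
        calc (2 : ℝ) ^ (1 / 2 : ℝ) ≤ 2 ^ (1 : ℝ) :=
              Real.rpow_le_rpow_of_exponent_le (by norm_num) (by norm_num)
          _ = 2 := Real.rpow_one 2
      have h4 : s ^ 2 * s ^ (-(1 / 2) : ℝ) = s ^ (3 / 2 : ℝ) := by
        rw [← Real.rpow_natCast s 2, ← Real.rpow_add hs]
        norm_num
      calc s ^ 2 * (N : ℝ) ^ (1 / 2 : ℝ) ≤ s ^ 2 * (2 ^ (1 / 2 : ℝ) * s ^ (-(1 / 2) : ℝ)) := by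
            rw [← h2]; exact mul_le_mul_of_nonneg_left h1 (by positivity)
        _ = 2 ^ (1 / 2 : ℝ) * (s ^ 2 * s ^ (-(1 / 2) : ℝ)) := by ring
        _ = 2 ^ (1 / 2 : ℝ) * s ^ (3 / 2 : ℝ) := by rw [h4]
        _ ≤ 2 * s ^ (3 / 2 : ℝ) := mul_le_mul_of_nonneg_right h3 (by positivity)
    have g7 : 4 * u ^ 2 * ∑ e ∈ (F.image Prod.snd).filter (fun e => e < N),
        (e : ℝ) ^ 2 * tauG PGT e ≤ 8 * 1082 ^ 2 * K * s ^ (3 / 2 : ℝ) := by
      calc _ ≤ 4 * u ^ 2 * (K * (N : ℝ) ^ (1 / 2 : ℝ)) :=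
            mul_le_mul_of_nonneg_left g3 (by positivity)
        _ = 4 * 1082 ^ 2 * K * (s ^ 2 * (N : ℝ) ^ (1 / 2 : ℝ)) := by rw [hud]; ring
        _ ≤ 4 * 1082 ^ 2 * K * (2 * s ^ (3 / 2 : ℝ)) :=
            mul_le_mul_of_nonneg_left g6 (by positivity)
        _ = _ := by ring
    have g8 := mul_le_mul_of_nonneg_left g5 hK.le
    linarith
  calc _ ≤ ∑ t ∈ F, (X * (hN t.1 t.2 * (t.1 * R0 ^ (t.1 - 1) * D0 ^ t.2)) +
        Y * (hN t.1 t.2 * (R0 ^ t.1 * (t.2 * D0 ^ (t.2 - 1)))) +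
        hN t.1 t.2 * (R0 ^ t.1 * D0 ^ t.2) * w t.2) := sum_le_sum hterm
    _ = X * ∑ t ∈ F, hN t.1 t.2 * (t.1 * R0 ^ (t.1 - 1) * D0 ^ t.2) +
          Y * ∑ t ∈ F, hN t.1 t.2 * (R0 ^ t.1 * (t.2 * D0 ^ (t.2 - 1))) +
          ∑ t ∈ F, hN t.1 t.2 * (R0 ^ t.1 * D0 ^ t.2) * w t.2 := by
        rw [sum_add_distrib, sum_add_distrib, mul_sum, mul_sum]
    _ ≤ X * 4 + Y * (19 / 100) + (8 * 1082 ^ 2 + 1) * K * s ^ (3 / 2 : ℝ) := by
        have e6 := e3.trans e4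
        gcongr
    _ = _ := by rw [hXd, hYd]; ring

theorem s_sq_le {s : ℝ} (hs : 0 < s) (hs1 : s ≤ 1) : s ^ 2 ≤ s ^ (3 / 2 : ℝ) := by
  rw [← Real.rpow_natCast s 2]
  exact Real.rpow_le_rpow_of_exponent_ge hs hs1 (by norm_num)

theorem pr_le {a b A B s : ℝ} (ha : a ≤ A * s) (hb : b ≤ B * s) (hb0 : 0 ≤ b) (hA : 0 ≤ A * s) :
    a * b ≤ A * B * s ^ 2 := (mul_le_mul ha hb hb0 hA).trans (le_of_eq (by ring))

theorem Dl_aux {K S s δ : ℝ} (hK : 0 ≤ K) (hS : 0 ≤ S) (h : s ^ 2 ≤ S) (hδ : δ = (400 + K) * S) :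
    400 * s ^ 2 ≤ δ ∧ K * S + 331 * s ^ 2 ≤ δ := by
  have h1 := mul_nonneg hK hS
  have h2 : 0 ≤ s ^ 2 := sq_nonneg s
  rw [hδ]
  constructor
  · linarith
  · linarith

theorem fin_aux {K S X' : ℝ} (hK : 0 ≤ K) (hS : 0 ≤ S) (h : X' ≤ 20 * ((400 + K) * S)) :
    2 * X' ≤ 40 * (400 + K) * S ∧ X' ≤ 40 * (400 + K) * S := by
  have h1 := mul_nonneg hK hS
  constructor <;> linarith

theorem fw_bounds : ∃ C : ℝ, 0 ≤ C ∧ ∀ s : ℝ, 0 < s → s ≤ 1 →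
    ex (wt (rN ⊤) rho) (fw s) ≤ C * s ^ (3 / 2 : ℝ) ∧
      ex (wt (dN ⊤) rho) (fw s) ≤ C * s ^ (3 / 2 : ℝ) := by
  obtain ⟨K, hK, hrig⟩ := rigid_fw
  refine ⟨40 * (400 + K), by positivity, fun s hs hs1 => ?_⟩
  have H := planar_sys rho_pos.le ⊤
  have hR := R0_posA
  have hD := D0_pos
  have hR' := R0_range
  have hD' := D0_range
  obtain ⟨hm1, hm2, hm3, hm4, hm5⟩ := fm_bounds hs.le
  have pX := ex_nonneg' H.r_nn (fm_nonneg hs.le)
  have pB := ex_nonneg' H.b_nn (fm_nonneg hs.le)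
  have pq := ex_nonneg' H.q_nn (fm_nonneg hs.le)
  have pP := ex_nonneg' H.p_nn (fm_nonneg hs.le)
  have pY := ex_nonneg' H.d_nn (fm_nonneg hs.le)
  have qX := ex_nonneg' H.r_nn (fw_nonneg s)
  have qB := ex_nonneg' H.b_nn (fw_nonneg s)
  have qq := ex_nonneg' H.q_nn (fw_nonneg s)
  have qP := ex_nonneg' H.p_nn (fw_nonneg s)
  have h1 := X_fw H rho_pos.le hs.le sum_r sum_e sum_p
  have h2 := P_fw H hs.le sum_r sum_qA
  have h3 := ex_log_fw hs.le H.q_nn H.b_nn sum_qA sum_b H.hq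
  have h5 := d_ex H (fw_zero s)
  have h4 := b_gen H hN_nonneg sum_r sum_d (fw_nonneg s) (fw_le_one s) (hrig s hs hs1)
  have hdd := cv_sum' H.d_nn H.d_nn sum_d sum_d
  have h6 := ex_cv_fw hs.le H.r_nn (cv_nonneg H.d_nn H.d_nn) sum_r hdd.1
  have h7 := ex_cv_fw hs.le H.d_nn H.d_nn sum_d sum_d
  have h8 := ex_cv_fm hs.le H.d_nn H.d_nn sum_d sum_d
  have p8 := ex_nonneg' (cv_nonneg H.d_nn H.d_nn) (fm_nonneg hs.le)
  rw [hdd.2] at h6
  rw [sum_q_eq] at h2 h3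
  have hsq := s_sq_le hs hs1
  have hs32 : 0 ≤ s ^ (3 / 2 : ℝ) := by positivity
  change ex (wt (rN ⊤) rho) (fw s) ≤ R0 * (ex (wt (pN ⊤) rho) (fw s) +
    (ex (wt (pN ⊤) rho) (fm s) ^ 2 + s ^ 2 + 2 * s * ex (wt (pN ⊤) rho) (fm s))) at h1
  change ex (wt (pN ⊤) rho) (fw s) ≤ (1 + D0) / 2 * ex (wt (rN ⊤) rho) (fw s) +
    R0 * ex (wt (qN ⊤) rho) (fw s) +
      2 * (ex (wt (rN ⊤) rho) (fm s) * ex (wt (qN ⊤) rho) (fm s)) at h2
  change ex (cv (wt (rN ⊤) rho) (cv (wt (dN ⊤) rho) (wt (dN ⊤) rho))) (fw s) ≤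
    D0 * D0 * ex (wt (rN ⊤) rho) (fw s) +
      R0 * ex (cv (wt (dN ⊤) rho) (wt (dN ⊤) rho)) (fw s) +
      2 * (ex (wt (rN ⊤) rho) (fm s) * ex (cv (wt (dN ⊤) rho) (wt (dN ⊤) rho)) (fm s)) at h6
  change ex (cv (wt (dN ⊤) rho) (wt (dN ⊤) rho)) (fw s) ≤
    D0 * ex (wt (dN ⊤) rho) (fw s) + D0 * ex (wt (dN ⊤) rho) (fw s) +
      2 * (ex (wt (dN ⊤) rho) (fm s) * ex (wt (dN ⊤) rho) (fm s)) at h7
  change ex (cv (wt (dN ⊤) rho) (wt (dN ⊤) rho)) (fm s) ≤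
    D0 * ex (wt (dN ⊤) rho) (fm s) + D0 * ex (wt (dN ⊤) rho) (fm s) at h8
  generalize ex (cv (wt (rN ⊤) rho) (cv (wt (dN ⊤) rho) (wt (dN ⊤) rho))) (fw s) = RDD at *
  generalize ex (cv (wt (dN ⊤) rho) (wt (dN ⊤) rho)) (fw s) = DDw at *
  generalize ex (cv (wt (dN ⊤) rho) (wt (dN ⊤) rho)) (fm s) = DDm at *
  generalize ex (wt (rN ⊤) rho) (fm s) = X at *
  generalize ex (wt (bN ⊤) rho) (fm s) = B at *
  generalize ex (wt (qN ⊤) rho) (fm s) = q at *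
  generalize ex (wt (pN ⊤) rho) (fm s) = P at *
  generalize ex (wt (dN ⊤) rho) (fm s) = Y at *
  generalize ex (wt (dN ⊤) rho) (fw s) = Y' at *
  generalize ex (wt (rN ⊤) rho) (fw s) = X' at *
  generalize ex (wt (bN ⊤) rho) (fw s) = B' at *
  generalize ex (wt (qN ⊤) rho) (fw s) = q' at *
  generalize ex (wt (pN ⊤) rho) (fw s) = P' at *
  generalize s ^ (3 / 2 : ℝ) = S at *
  obtain ⟨δ, hδ⟩ : ∃ δ, δ = (400 + K) * S := ⟨_, rfl⟩
  have hδ0 : 0 ≤ δ := by rw [hδ]; positivity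
  have hs2 : 0 ≤ s ^ 2 := sq_nonneg s
  obtain ⟨hδ1, hδ2⟩ := Dl_aux hK hs32 hsq hδ
  -- products
  have m1 : P ^ 2 ≤ 25 * s ^ 2 := by
    have := pr_le hm4 hm4 pP (by positivity)
    rw [sq P]; linarith only [this]
  have m2 : 2 * s * P ≤ 10 * s ^ 2 := by
    have := pr_le (one_mul s).ge hm4 pP (by positivity)
    linarith only [this]
  have m3 : X * q ≤ 20 * s ^ 2 := by
    have := pr_le (hm1.trans (one_mul s).ge) hm3 pq (by positivity)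
    linarith only [this]
  have m4 : q * B ≤ 400 * s ^ 2 := by
    have := pr_le hm3 hm2 pB (by positivity)
    linarith only [this]
  have m5 : Y * Y ≤ 1600 * s ^ 2 := by
    have := pr_le hm5 hm5 pY (by positivity)
    linarith only [this]
  have m6 : DDm ≤ 89 * s := by
    have h9 : D0 * Y ≤ 1111 / 1000 * (40 * s) := mul_le_mul hD'.2 hm5 pY (by norm_num)
    linarith only [h9, h8, hs]
  have m7 : X * DDm ≤ 89 * s ^ 2 := by
    have := pr_le (hm1.trans (one_mul s).ge) m6 p8 (by positivity)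
    linarith only [this]
  have m8 : R0 * DDw ≤ 2 * R0 * D0 * Y' + 153 * s ^ 2 := by
    have h9 : R0 * DDw ≤ R0 * (D0 * Y' + D0 * Y' + 2 * (Y * Y)) :=
      mul_le_mul_of_nonneg_left h7 hR.le
    have h10 : R0 * (Y * Y) ≤ 476 / 10000 * (1600 * s ^ 2) :=
      mul_le_mul hR'.2 m5 (mul_nonneg pY pY) (by norm_num)
    linarith only [h9, h10, hs2]
  have n1 : X' ≤ R0 * (P' + δ) := by
    refine h1.trans (mul_le_mul_of_nonneg_left ?_ hR.le)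
    linarith only [m1, m2, hδ1, hs2]
  have n2 : P' ≤ (1 + D0) / 2 * X' + R0 * q' + δ := by linarith only [h2, m3, hδ1, hs2]
  have n3 : q' ≤ (1 + D0) / 2 * B' + δ := by linarith only [h3, m4, hδ1, hs2]
  have n4 : B' ≤ (D0 ^ 2 + 4) * X' + (2 * R0 * D0 + 19 / 100) * (2 * q') + δ := by
    rw [h5] at m8 h4
    linarith only [m8, h4, h6, m7, hδ2]
  have hQ : 0 ≤ (1 + D0) / 2 := by positivity
  have hfin := lin_contr qX qP qq qB hδ0 hR.le hQ (by positivity) (by positivity) hR'.2 Q0_le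
    a_le b_le n1 n2 n3 n4
  refine ⟨?_, ?_⟩
  · have h9 : X' ≤ 20 * ((400 + K) * S) := by rw [← hδ]; linarith only [hfin.1, hδ0]
    exact (fin_aux hK hs32 h9).2
  · have h9 : q' ≤ 20 * ((400 + K) * S) := by rw [← hδ]; exact hfin.2.2.1
    rw [h5]
    exact (fin_aux hK hs32 h9).1

end Dia
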