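import Pool.Agent.DiaA.Tails

/-!
# Heavy tails of the laws `rL`, `dL`, `gL`
-/

set_option linter.unusedSectionVars false

namespace Dia
open Finset PGr Pool.Agent.DiamP
open scoped ENNReal

theorem isLaw_div {f : ℕ → ℝ} (hf : ∀ k, 0 ≤ f k) (hs : Summable f) {c : ℝ} (hc : c = ∑' k, f k)
    (h0 : 0 < c) : IsLaw (fun k => f k / c) := by
  refine ⟨fun k => div_nonneg (hf k) h0.le, ?_⟩
  have h1 := hs.hasSum.div_const c
  rwa [← hc, div_self h0.ne'] at h1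

theorem HT_of {f : ℕ → ℝ} (hf : ∀ k, 0 ≤ f k) (hs : Summable f) {c : ℝ} (hc : c = ∑' k, f k)
    (h0 : 0 < c) {C K : ℝ} (hC : ∀ s : ℝ, 0 < s → s ≤ 1 → ex f (fw s) ≤ C * s ^ (3 / 2 : ℝ))
    (hK : C / c ≤ K) : HT K (fun k => f k / c) := by
  refine ⟨isLaw_div hf hs hc h0, fun t ht => ?_⟩
  have ht0 : (0 : ℝ) < t := by exact_mod_cast ht
  have ht1 : (1 : ℝ) ≤ t := by exact_mod_cast ht
  have h1 := tl_le_fw hf hs ht
  have h2 := hC (1 / t) (by positivity) (by rw [div_le_one ht0]; exact ht1)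
  have h3 : (1 / (t : ℝ)) ^ (3 / 2 : ℝ) = (t : ℝ) ^ (-(3 / 2) : ℝ) := by
    rw [one_div, Real.inv_rpow ht0.le, Real.rpow_neg ht0.le]
  have h4 : Pool.Agent.DiamP.tl (fun k => f k / c) t = Pool.Agent.DiamP.tl f t / c := by
    unfold Pool.Agent.DiamP.tl
    rw [tsum_div_const]
  rw [h3] at h2
  rw [h4]
  calc Pool.Agent.DiamP.tl f t / c ≤ (C * (t : ℝ) ^ (-(3 / 2) : ℝ)) / c := by
        exact div_le_div_of_nonneg_right (h1.trans h2) h0.le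
    _ = C / c * (t : ℝ) ^ (-(3 / 2) : ℝ) := by ring
    _ ≤ K * (t : ℝ) ^ (-(3 / 2) : ℝ) := mul_le_mul_of_nonneg_right hK (by positivity)

theorem G0_posA : 0 < G0 := by
  have h1 : wt (gN ⊤) rho 0 ≤ G0 := sum_g.le_tsum 0 fun k _ => wt_nonneg (gN_nonneg ⊤) rho_pos.le k
  have h2 : wt (gN ⊤) rho 0 = 1 := by unfold wt; rw [gN_zero, pow_zero, mul_one]
  linarith

theorem g_fw {C : ℝ} (hC : ∀ s : ℝ, 0 < s → s ≤ 1 →
    ex (wt (rN ⊤) rho) (fw s) ≤ C * s ^ (3 / 2 : ℝ)) (s : ℝ) (hs : 0 < s) (hs1 : s ≤ 1) :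
    ex (wt (gN ⊤) rho) (fw s) ≤ G0 * (C + 1) * s ^ (3 / 2 : ℝ) := by
  have hr := wt_nonneg (rN_nonneg ⊤) rho_pos.le
  have hg := wt_nonneg (gN_nonneg ⊤) rho_pos.le
  obtain ⟨G, hG⟩ : ∃ G : ℕ → ℝ, G = fun j : ℕ => wt (rN ⊤) rho j / j := ⟨_, rfl⟩
  have hG0 : ∀ k, 0 ≤ G k := fun k => by rw [hG]; exact div_nonneg (hr k) (Nat.cast_nonneg _)
  have hGr : ∀ k, G k ≤ wt (rN ⊤) rho k := fun k => by rw [hG]; exact div_self_le (hr k) k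
  have sG : Summable G := Summable.of_nonneg_of_le hG0 hGr sum_r
  have hlog : ∀ k : ℕ, (k : ℝ) * wt (gN ⊤) rho k ≤
      cv (fun j : ℕ => (j : ℝ) * G j) (wt (gN ⊤) rho) k := by
    intro k; rw [hG]; exact g_log rho_pos.le ⊤ k
  have h1 := ex_log_fw hs.le hg hG0 sum_g sG hlog
  have h2 := ex_log_fm hs.le hg hG0 sum_g sG hlog
  have h3 := (ex_mono' hG0 hGr sum_r (fm_nonneg hs.le) (fm_le_one s)).trans (fm_bounds hs.le).1
  have h4 := (ex_mono' hG0 hGr sum_r (fw_nonneg s) (fw_le_one s)).trans (hC s hs hs1)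
  have p1 := ex_nonneg' hG0 (fm_nonneg hs.le)
  have p2 := ex_nonneg' hg (fm_nonneg hs.le)
  have hGp := G0_posA
  change ex (wt (gN ⊤) rho) (fw s) ≤ G0 * ex G (fw s) + _ at h1
  change ex (wt (gN ⊤) rho) (fm s) ≤ G0 * ex G (fm s) at h2
  have h5 : ex (wt (gN ⊤) rho) (fm s) ≤ G0 * s := h2.trans (mul_le_mul_of_nonneg_left h3 hGp.le)
  have h6 : ex (wt (gN ⊤) rho) (fm s) * ex G (fm s) ≤ G0 * s * s :=
    mul_le_mul h5 h3 p1 (by positivity)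
  have h7 := mul_le_mul_of_nonneg_left h4 hGp.le
  have h8 := mul_le_mul_of_nonneg_left (s_sq_le hs hs1) hGp.le
  calc ex (wt (gN ⊤) rho) (fw s) ≤ G0 * (C * s ^ (3 / 2 : ℝ)) + G0 * s * s := by linarith
    _ = G0 * (C * s ^ (3 / 2 : ℝ)) + G0 * s ^ 2 := by ring
    _ ≤ G0 * (C * s ^ (3 / 2 : ℝ)) + G0 * s ^ (3 / 2 : ℝ) := by linarith
    _ = _ := by ring

theorem tails : ∃ K : ℝ, HT K rL ∧ HT K dL ∧ HT K gL := by
  obtain ⟨C, hC0, hC⟩ := fw_bounds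
  have a1 : 0 ≤ C / R0 := div_nonneg hC0 R0_posA.le
  have a2 : 0 ≤ C / D0 := div_nonneg hC0 D0_pos.le
  have a3 : 0 ≤ G0 * (C + 1) / G0 := by have := G0_posA; positivity
  have k1 : C / R0 ≤ C / R0 + C / D0 + G0 * (C + 1) / G0 := by linarith
  have k2 : C / D0 ≤ C / R0 + C / D0 + G0 * (C + 1) / G0 := by linarith
  have k3 : G0 * (C + 1) / G0 ≤ C / R0 + C / D0 + G0 * (C + 1) / G0 := by linarith
  refine ⟨C / R0 + C / D0 + G0 * (C + 1) / G0, ?_, ?_, ?_⟩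
  · exact HT_of (wt_nonneg (rN_nonneg ⊤) rho_pos.le) sum_r rfl R0_posA
      (fun s h0 h1 => (hC s h0 h1).1) k1
  · exact HT_of (wt_nonneg (dN_nonneg ⊤) rho_pos.le) sum_d rfl D0_pos
      (fun s h0 h1 => (hC s h0 h1).2) k2
  · exact HT_of (wt_nonneg (gN_nonneg ⊤) rho_pos.le) sum_g rfl G0_posA
      (g_fw fun s h0 h1 => (hC s h0 h1).1) k3

end Dia
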